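import Pool.Agent.H67.BFL.Mch

/-!
# Probabilities of events
-/

set_option autoImplicit false

namespace Pool.Agent.H39.BFL

open Finset Real
open Pool.Agent.H49.Ent Pool.Agent.H32.Dense Pool.STK Pool.KS3 Pool.BFL

section

variable {Ω W : Type} [Fintype Ω] [Fintype W] {G B : Type}

lemma Pb_nonneg {q : W → ℝ} (hq : ∀ w, 0 ≤ q w) (A : W → Prop) : 0 ≤ Pb q A := by
  classical
  unfold Pb
  exact Finset.sum_nonneg fun w _ => by split_ifs; exacts [hq w, le_rfl]

lemma Pb_mono {q : W → ℝ} (hq : ∀ w, 0 ≤ q w) {A A' : W → Prop}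
    (h : ∀ w, 0 < q w → A w → A' w) : Pb q A ≤ Pb q A' := by
  classical
  unfold Pb
  refine Finset.sum_le_sum fun w _ => ?_
  rcases (hq w).eq_or_lt with h0 | h0
  · rw [← h0]
    simp
  · by_cases hA : A w
    · rw [if_pos hA, if_pos (h w h0 hA)]
    · rw [if_neg hA]
      split_ifs
      · exact hq w
      · exact le_rfl

lemma Pb_or {q : W → ℝ} (hq : ∀ w, 0 ≤ q w) (A A' : W → Prop) :
    Pb q (fun w => A w ∨ A' w) ≤ Pb q A + Pb q A' := by
  classical
  unfold Pb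
  rw [← Finset.sum_add_distrib]
  refine Finset.sum_le_sum fun w _ => ?_
  have := hq w
  by_cases h1 : A w <;> by_cases h2 : A' w <;> simp [h1, h2, this]

lemma Pb_or_le {q : W → ℝ} (hq : ∀ w, 0 ≤ q w) {A A' : W → Prop} {x y : ℝ} (h1 : Pb q A ≤ x)
    (h2 : Pb q A' ≤ y) : Pb q (fun w => A w ∨ A' w) ≤ x + y :=
  (Pb_or hq A A').trans (add_le_add h1 h2)

lemma Pb_ex {q : W → ℝ} (hq : ∀ w, 0 ≤ q w) {ι : Type} [Fintype ι] (A : ι → W → Prop) (x : ℝ)
    (h : ∀ i, Pb q (A i) ≤ x) : Pb q (fun w => ∃ i, A i w) ≤ Fintype.card ι * x := by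
  classical
  have h1 : Pb q (fun w => ∃ i, A i w) ≤ ∑ i, Pb q (A i) := by
    unfold Pb
    rw [Finset.sum_comm]
    refine Finset.sum_le_sum fun w _ => ?_
    have h2 : ∀ i ∈ (univ : Finset ι), 0 ≤ (if A i w then q w else 0) := fun i _ => by
      split_ifs
      exacts [hq w, le_rfl]
    by_cases h3 : ∃ i, A i w
    · rw [if_pos h3]
      obtain ⟨i, hi⟩ := h3
      have := Finset.single_le_sum h2 (Finset.mem_univ i)
      rwa [if_pos hi] at this
    · rw [if_neg h3]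
      exact Finset.sum_nonneg h2
  refine h1.trans ?_
  refine (Finset.sum_le_card_nsmul _ _ _ fun i _ => h i).trans ?_
  rw [nsmul_eq_mul, Finset.card_univ]

lemma P2_alt {p : Ω → ℝ} (g : Ω → G) (bk : Ω → B) {i : ℕ} (hi : i % 2 = 0)
    (A : Ω → Ω → Prop) : P2 p (alt g bk i) A = P2 p g A := by
  classical
  have h1 : alt g bk i = fun ω => Sum.inl (g ω) := by
    funext ω
    unfold alt
    rw [if_pos hi]
  unfold P2
  rw [h1]
  refine Finset.sum_congr rfl fun ω _ => Finset.sum_congr rfl fun ω' _ => ?_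
  have h2 : law p (fun ω => (Sum.inl (g ω) : G ⊕ B)) (Sum.inl (g ω)) = law p g (g ω) := by
    unfold law
    refine Finset.sum_congr rfl fun ω' _ => ?_
    by_cases h : g ω' = g ω
    · rw [if_pos h, if_pos (congrArg Sum.inl h)]
    · rw [if_neg h, if_neg (fun h' => h (Sum.inl_injective h'))]
  rw [h2]
  by_cases h : g ω = g ω' ∧ A ω ω'
  · rw [if_pos h, if_pos ⟨congrArg Sum.inl h.1, h.2⟩]
  · rw [if_neg h, if_neg (fun h' => h ⟨Sum.inl_injective h'.1, h'.2⟩)]

/-- A property of blocks which forces almost all points of the block into a slab is rare. -/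
lemma span_lem {p : Ω → ℝ} (hp : IsLaw p) (bk : Ω → B) (e : B → ℝ) (he : ∀ x, 0 ≤ e x)
    (A : B → Prop) (bad : Ω → Prop) (S : B → Ω → Prop)
    (h1 : ∀ ω, 0 < p ω → A (bk ω) →
      Pb p (fun ω' => bk ω' = bk ω ∧ S (bk ω) ω') ≤ e (bk ω) * law p bk (bk ω))
    (h2 : ∀ ω, 0 < p ω → A (bk ω) → ¬ bad ω → S (bk ω) ω) :
    Pb p (fun ω => A (bk ω)) ≤ Pb p bad + Ex p (fun ω => e (bk ω)) := by
  classical
  have hp0 := hp.nonneg
  have h3 : Pb p (fun ω => A (bk ω)) ≤ Pb p (fun ω => bad ω ∨ (A (bk ω) ∧ S (bk ω) ω)) := by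
    refine Pb_mono hp0 fun ω hω hA => ?_
    by_cases hb : bad ω
    · exact Or.inl hb
    · exact Or.inr ⟨hA, h2 ω hω hA hb⟩
  refine h3.trans ((Pb_or hp0 _ _).trans (add_le_add le_rfl ?_))
  have h4 : Pb p (fun ω => A (bk ω) ∧ S (bk ω) ω) =
      ∑ x ∈ univ.image bk, ∑ ω, if bk ω = x ∧ A x ∧ S x ω then p ω else 0 := by
    unfold Pb
    rw [Finset.sum_comm]
    refine Finset.sum_congr rfl fun ω _ => ?_
    rw [Finset.sum_eq_single (bk ω)]
    · by_cases h : A (bk ω) ∧ S (bk ω) ω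
      · rw [if_pos h, if_pos ⟨rfl, h⟩]
      · rw [if_neg h, if_neg fun h' => h h'.2]
    · intro x _ hx
      rw [if_neg fun h' => hx h'.1.symm]
    · intro h
      exact absurd (Finset.mem_image_of_mem bk (Finset.mem_univ ω)) h
  have h5 : Ex p (fun ω => e (bk ω)) = ∑ x ∈ univ.image bk, law p bk x * e x :=
    sum_mul_eq_sum_image p bk e
  rw [h4, h5]
  refine Finset.sum_le_sum fun x _ => ?_
  have hl := law_nonneg hp0 bk x
  have hr : 0 ≤ law p bk x * e x := mul_nonneg hl (he x)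
  by_cases hx : A x ∧ 0 < law p bk x
  · obtain ⟨ω₀, hω₀, hb⟩ : ∃ ω, 0 < p ω ∧ bk ω = x := by
      by_contra hcon
      push Not at hcon
      have : law p bk x = 0 := by
        unfold law
        refine Finset.sum_eq_zero fun ω _ => ?_
        split_ifs with h
        · exact le_antisymm (not_lt.mp fun h' => hcon ω h' h) (hp0 ω)
        · rfl
      linarith [hx.2]
    have h6 := h1 ω₀ hω₀ (by rw [hb]; exact hx.1)
    rw [hb] at h6
    have h7 : ∑ ω, (if bk ω = x ∧ A x ∧ S x ω then p ω else 0) =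
        Pb p (fun ω' => bk ω' = x ∧ S x ω') := by
      unfold Pb
      refine Finset.sum_congr rfl fun ω _ => ?_
      by_cases h : bk ω = x ∧ S x ω
      · rw [if_pos ⟨h.1, hx.1, h.2⟩, if_pos h]
      · rw [if_neg fun h' => h ⟨h'.1, h'.2.2⟩, if_neg h]
    rw [h7]
    linarith [mul_comm (e x) (law p bk x)]
  · refine le_trans (le_of_eq ?_) hr
    refine Finset.sum_eq_zero fun ω _ => ?_
    split_ifs with h
    · have h8 : ¬ 0 < law p bk x := fun h' => hx ⟨h.2.1, h'⟩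
      have h9 : p ω ≤ law p bk (bk ω) := le_law hp0 bk ω
      rw [h.1] at h9
      exact le_antisymm (h9.trans (not_lt.mp h8)) (hp0 ω)
    · rfl

end

end Pool.Agent.H39.BFL
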