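import Mathlib

/-!
# Broken paths and closed jets

A broken path has the legs `s a * E a`. Along a leg the height changes by a form `b a` of degree
`j - 1`. If the end value is a function of the end point then the forms `b a` are the derivatives
of one form of degree `j`.
-/

set_option autoImplicit false

namespace Pool.BFL

open Finset Polynomial

/-! ### Restriction to lines and primitives -/

/-- Restriction of a polynomial to the line `w + τ E`. -/
noncomputable def ln {n : ℕ} (b : MvPolynomial (Fin n) ℝ) (w E : Fin n → ℝ) : ℝ[X] :=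
  MvPolynomial.aeval (fun i => Polynomial.C (w i) + Polynomial.C (E i) * Polynomial.X) b

lemma ln_eval {n : ℕ} (b : MvPolynomial (Fin n) ℝ) (w E : Fin n → ℝ) (τ : ℝ) :
    (ln b w E).eval τ = MvPolynomial.eval (fun i => w i + E i * τ) b := by
  unfold ln
  induction b using MvPolynomial.induction_on with
  | C a => simp
  | add p q hp hq => rw [map_add, Polynomial.eval_add, hp, hq, map_add]
  | mul_X p i hp =>
    rw [map_mul, Polynomial.eval_mul, hp, map_mul, MvPolynomial.aeval_X, MvPolynomial.eval_X]
    simp

lemma ln_natDegree {n D : ℕ} {b : MvPolynomial (Fin n) ℝ} (hb : b.totalDegree ≤ D)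
    (w E : Fin n → ℝ) : (ln b w E).natDegree ≤ D := by
  have h := MvPolynomial.aeval_natDegree_le b hb
    (fun i => Polynomial.C (w i) + Polynomial.C (E i) * Polynomial.X) (n := 1) (fun i => by
      refine (Polynomial.natDegree_add_le _ _).trans (max_le ?_ ?_)
      · rw [Polynomial.natDegree_C]
        exact Nat.zero_le _
      · exact (Polynomial.natDegree_C_mul_le _ _).trans Polynomial.natDegree_X_le)
  rwa [Nat.mul_one] at h

lemma ln_derivative {n : ℕ} (b : MvPolynomial (Fin n) ℝ) (w E : Fin n → ℝ) :
    (ln b w E).derivative = ∑ i, Polynomial.C (E i) * ln (MvPolynomial.pderiv i b) w E := by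
  unfold ln
  induction b using MvPolynomial.induction_on with
  | C a => simp
  | add p q hp hq =>
    rw [map_add, Polynomial.derivative_add, hp, hq, ← Finset.sum_add_distrib]
    refine Finset.sum_congr rfl fun i _ => ?_
    rw [map_add, map_add, mul_add]
  | mul_X p l hp =>
    rw [map_mul, Polynomial.derivative_mul, hp, MvPolynomial.aeval_X]
    have h1 : Polynomial.derivative (Polynomial.C (w l) + Polynomial.C (E l) * Polynomial.X :
        ℝ[X]) = Polynomial.C (E l) := by simp
    rw [h1, Finset.sum_mul]
    have h2 : ∀ i, Polynomial.C (E i) * MvPolynomial.aeval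
        (fun i => Polynomial.C (w i) + Polynomial.C (E i) * Polynomial.X)
        (MvPolynomial.pderiv i (p * MvPolynomial.X l)) =
        Polynomial.C (E i) * MvPolynomial.aeval
          (fun i => Polynomial.C (w i) + Polynomial.C (E i) * Polynomial.X)
          (MvPolynomial.pderiv i p) * (Polynomial.C (w l) + Polynomial.C (E l) * Polynomial.X) +
        (if i = l then MvPolynomial.aeval
          (fun i => Polynomial.C (w i) + Polynomial.C (E i) * Polynomial.X) p *
            Polynomial.C (E l) else 0) := by
      intro i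
      rw [Derivation.leibniz, MvPolynomial.pderiv_X, smul_eq_mul, smul_eq_mul, map_add, map_mul,
        map_mul, MvPolynomial.aeval_X]
      by_cases h : i = l
      · subst h
        simp only [Pi.single_eq_same, map_one, if_true]
        ring
      · have h' : (Pi.single i (1 : MvPolynomial (Fin n) ℝ) : Fin n → MvPolynomial (Fin n) ℝ) l = 0 :=
          Pi.single_eq_of_ne (Ne.symm h) _
        rw [h', map_zero, if_neg h]
        ring
    rw [Finset.sum_congr rfl fun i _ => h2 i, Finset.sum_add_distrib, Finset.sum_ite_eq',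
      if_pos (Finset.mem_univ l)]

/-- The primitive of a polynomial vanishing at zero. -/
noncomputable def pm (p : ℝ[X]) : ℝ[X] :=
  ∑ m ∈ range (p.natDegree + 1), Polynomial.C (p.coeff m / ((m : ℝ) + 1)) * Polynomial.X ^ (m + 1)

lemma pm_derivative (p : ℝ[X]) : (pm p).derivative = p := by
  unfold pm
  rw [Polynomial.derivative_sum]
  conv_rhs => rw [p.as_sum_range_C_mul_X_pow]
  refine Finset.sum_congr rfl fun m _ => ?_
  rw [Polynomial.derivative_C_mul, Polynomial.derivative_X_pow]
  have h : ((m : ℝ) + 1) ≠ 0 := by positivity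
  rw [← mul_assoc, ← Polynomial.C_mul]
  congr 2
  push_cast
  field_simp

lemma pm_eval (p : ℝ[X]) (x : ℝ) :
    (pm p).eval x = ∑ m ∈ range (p.natDegree + 1), p.coeff m / ((m : ℝ) + 1) * x ^ (m + 1) := by
  unfold pm
  rw [Polynomial.eval_finsetSum]
  refine Finset.sum_congr rfl fun m _ => ?_
  simp

lemma pm_eval_of_le {p : ℝ[X]} {D : ℕ} (hp : p.natDegree ≤ D) (x : ℝ) :
    (pm p).eval x = ∑ m ∈ range (D + 1), p.coeff m / ((m : ℝ) + 1) * x ^ (m + 1) := by
  rw [pm_eval]
  refine Finset.sum_subset (Finset.range_subset_range.mpr (by omega)) fun m _ hm => ?_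
  rw [Polynomial.coeff_eq_zero_of_natDegree_lt (by
    rw [Finset.mem_range] at hm
    omega)]
  simp

lemma pm_natDegree {p : ℝ[X]} {D : ℕ} (hp : p.natDegree ≤ D) : (pm p).natDegree ≤ D + 1 := by
  unfold pm
  refine Polynomial.natDegree_sum_le_of_forall_le _ _ fun m hm => ?_
  refine (Polynomial.natDegree_C_mul_le _ _).trans ?_
  rw [Polynomial.natDegree_X_pow]
  rw [Finset.mem_range] at hm
  omega

lemma pm_eval_zero (p : ℝ[X]) : (pm p).eval 0 = 0 := by
  rw [pm_eval]
  refine Finset.sum_eq_zero fun m _ => ?_
  simp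

lemma integral_eq_pm (p : ℝ[X]) (a b : ℝ) :
    ∫ τ in a..b, p.eval τ = (pm p).eval b - (pm p).eval a := by
  refine intervalIntegral.integral_eq_sub_of_hasDerivAt (f := fun x => (pm p).eval x)
    (fun x _ => ?_) (p.continuous.intervalIntegrable _ _)
  have h := (pm p).hasDerivAt x
  rwa [pm_derivative] at h

lemma integral_zero_eq_pm (p : ℝ[X]) (b : ℝ) : ∫ τ in (0 : ℝ)..b, p.eval τ = (pm p).eval b := by
  rw [integral_eq_pm, pm_eval_zero, sub_zero]

/-! ### Broken paths -/

/-- The displacement. -/
def dsp {n N : ℕ} (E : Fin N → Fin n → ℝ) (s : Fin N → ℝ) : Fin n → ℝ :=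
  fun i => ∑ a, s a * E a i

/-- The displacement of the legs after `a`. -/
def tl {n N : ℕ} (E : Fin N → Fin n → ℝ) (s : Fin N → ℝ) (a : Fin N) : Fin n → ℝ :=
  fun i => ∑ c, if a < c then s c * E c i else 0

/-- The height at the end of a broken path. -/
noncomputable def QQ {n N : ℕ} (E : Fin N → Fin n → ℝ) (b : Fin N → MvPolynomial (Fin n) ℝ)
    (s : Fin N → ℝ) : ℝ :=
  ∑ a, (pm (ln (b a) (tl E s a) (E a))).eval (s a)

lemma QQ_eq_integral {n N : ℕ} (E : Fin N → Fin n → ℝ) (b : Fin N → MvPolynomial (Fin n) ℝ)
    (s : Fin N → ℝ) : QQ E b s = ∑ a, ∫ τ in (0 : ℝ)..(s a),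
      MvPolynomial.eval (fun i => tl E s a i + E a i * τ) (b a) := by
  unfold QQ
  refine Finset.sum_congr rfl fun a _ => ?_
  rw [← integral_zero_eq_pm]
  refine intervalIntegral.integral_congr fun τ _ => ?_
  exact ln_eval _ _ _ _

/-- **Transport.** The value at the end point of a function which changes along the leg `a` by
`∫ b a (z - x a - τ E a) dτ`. -/
theorem transport {n N : ℕ} (E : Fin N → Fin n → ℝ) (b : Fin N → MvPolynomial (Fin n) ℝ)
    (s : Fin N → ℝ) (x : ℕ → Fin n → ℝ) (V : ℕ → ℝ) (ε : ℝ)
    (hx : ∀ (a : Fin N) (i : Fin n), x (a + 1) i = x a i + s a * E a i)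
    (hV : ∀ a : Fin N, |V (a + 1) - (V a + ∫ τ in (0 : ℝ)..(s a),
      MvPolynomial.eval (fun i => x N i - x a i - E a i * τ) (b a))| ≤ ε) :
    |V N - (V 0 + QQ E b s)| ≤ N * ε := by
  -- the remaining displacement
  have hrem' : ∀ (k m : ℕ), m + k = N → ∀ i, x N i - x m i =
      ∑ c : Fin N, if m ≤ (c : ℕ) then s c * E c i else 0 := by
    intro k
    induction k with
    | zero =>
      intro m hm i
      have hm' : m = N := by omega
      subst hm'
      rw [sub_self]
      symm
      refine Finset.sum_eq_zero fun c _ => ?_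
      rw [if_neg (by have := c.2; omega)]
    | succ k ih =>
      intro m hm i
      have h1 := ih (m + 1) (by omega) i
      have h2 := hx ⟨m, by omega⟩ i
      simp only at h2
      have h3 : x N i - x m i = (x N i - x (m + 1) i) + s ⟨m, by omega⟩ * E ⟨m, by omega⟩ i := by
        rw [h2]
        ring
      rw [h3, h1]
      have h4 : s ⟨m, by omega⟩ * E ⟨m, by omega⟩ i =
          ∑ c : Fin N, if c = ⟨m, by omega⟩ then s c * E c i else 0 := by
        rw [Finset.sum_ite_eq' univ (⟨m, by omega⟩ : Fin N), if_pos (Finset.mem_univ _)]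
      rw [h4, ← Finset.sum_add_distrib]
      refine Finset.sum_congr rfl fun c _ => ?_
      by_cases hc : c = ⟨m, by omega⟩
      · subst hc
        rw [if_neg (by simp), if_pos rfl, if_pos (le_refl _), zero_add]
      · rw [if_neg hc, add_zero]
        have hc' : (c : ℕ) ≠ m := fun h => hc (Fin.ext h)
        by_cases hle : m ≤ (c : ℕ)
        · rw [if_pos (by omega), if_pos hle]
        · rw [if_neg (by omega), if_neg hle]
  have hrem : ∀ (m : ℕ), m ≤ N → ∀ i, x N i - x m i =
      ∑ c : Fin N, if m ≤ (c : ℕ) then s c * E c i else 0 :=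
    fun m hm => hrem' (N - m) m (by omega)
  have hint : ∀ a : Fin N, (∫ τ in (0 : ℝ)..(s a),
      MvPolynomial.eval (fun i => x N i - x a i - E a i * τ) (b a)) =
      (pm (ln (b a) (tl E s a) (E a))).eval (s a) := by
    intro a
    have h1 : ∀ τ : ℝ, MvPolynomial.eval (fun i => x N i - x a i - E a i * τ) (b a) =
        (ln (b a) (tl E s a) (E a)).eval (s a - τ) := by
      intro τ
      rw [ln_eval]
      refine congrArg (fun y => MvPolynomial.eval y (b a)) ?_
      funext i
      have h2 : x N i - x a i = tl E s a i + s a * E a i := by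
        rw [hrem a a.2.le i]
        have h4 : s a * E a i = ∑ c : Fin N, if c = a then s c * E c i else 0 := by
          rw [Finset.sum_ite_eq' univ a, if_pos (Finset.mem_univ _)]
        unfold tl
        rw [h4, ← Finset.sum_add_distrib]
        refine Finset.sum_congr rfl fun c _ => ?_
        by_cases hc : c = a
        · subst hc
          rw [if_pos (le_refl _), if_neg (lt_irrefl _), if_pos rfl, zero_add]
        · rw [if_neg hc, add_zero]
          have hc' : (c : ℕ) ≠ a := fun h => hc (Fin.ext h)
          by_cases hle : (a : ℕ) ≤ (c : ℕ)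
          · rw [if_pos hle, if_pos (Fin.lt_def.mpr (by omega))]
          · rw [if_neg hle, if_neg (fun h => hle (Fin.lt_def.mp h).le)]
      rw [h2]
      ring
    rw [intervalIntegral.integral_congr (g := fun τ => (ln (b a) (tl E s a) (E a)).eval (s a - τ))
      (fun τ _ => h1 τ)]
    rw [intervalIntegral.integral_comp_sub_left (fun τ => (ln (b a) (tl E s a) (E a)).eval τ) (s a),
      sub_self, sub_zero, integral_zero_eq_pm]
  -- the sum
  have hsum : ∀ m : ℕ, m ≤ N → |V m - (V 0 + ∑ a : Fin N, if (a : ℕ) < m then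
      (pm (ln (b a) (tl E s a) (E a))).eval (s a) else 0)| ≤ m * ε := by
    intro m
    induction m with
    | zero =>
      intro _
      simp
    | succ m ih =>
      intro hm
      have h1 := ih (by omega)
      have h2 := hV ⟨m, by omega⟩
      rw [hint] at h2
      simp only at h2
      set t := (pm (ln (b ⟨m, by omega⟩) (tl E s ⟨m, by omega⟩) (E ⟨m, by omega⟩))).eval
        (s ⟨m, by omega⟩) with ht
      have h3 : (∑ a : Fin N, if (a : ℕ) < m + 1 then
          (pm (ln (b a) (tl E s a) (E a))).eval (s a) else 0) =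
          (∑ a : Fin N, if (a : ℕ) < m then
          (pm (ln (b a) (tl E s a) (E a))).eval (s a) else 0) + t := by
        have h4 : t = ∑ a : Fin N, if a = ⟨m, by omega⟩ then
            (pm (ln (b a) (tl E s a) (E a))).eval (s a) else 0 := by
          rw [Finset.sum_ite_eq' univ (⟨m, by omega⟩ : Fin N), if_pos (Finset.mem_univ _)]
        rw [h4, ← Finset.sum_add_distrib]
        refine Finset.sum_congr rfl fun a _ => ?_
        by_cases ha : a = ⟨m, by omega⟩
        · subst ha
          rw [if_pos (by simp), if_neg (by simp), if_pos rfl, zero_add]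
        · rw [if_neg ha, add_zero]
          have ha' : (a : ℕ) ≠ m := fun h => ha (Fin.ext h)
          by_cases hlt : (a : ℕ) < m
          · rw [if_pos hlt, if_pos (by omega)]
          · rw [if_neg hlt, if_neg (by omega)]
      rw [h3]
      have e : V (m + 1) - (V 0 + ((∑ a : Fin N, if (a : ℕ) < m then
          (pm (ln (b a) (tl E s a) (E a))).eval (s a) else 0) + t)) =
          (V (m + 1) - (V m + t)) + (V m - (V 0 + ∑ a : Fin N, if (a : ℕ) < m then
          (pm (ln (b a) (tl E s a) (E a))).eval (s a) else 0)) := by ring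
      rw [e]
      refine (abs_add_le _ _).trans ?_
      push_cast
      linarith
  have h := hsum N le_rfl
  unfold QQ
  have e : (∑ a : Fin N, if (a : ℕ) < N then
      (pm (ln (b a) (tl E s a) (E a))).eval (s a) else 0) =
      ∑ a, (pm (ln (b a) (tl E s a) (E a))).eval (s a) :=
    Finset.sum_congr rfl fun a _ => if_pos a.2
  rw [e] at h
  exact h

end Pool.BFL
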