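import Pool.Agent.H39.BFL.Cor
import Pool.Agent.H34.BFL.KVR
import Pool.Agent.H55.BFL.SPN

/-!
# The core theorem of the ball frontier lemma
-/

set_option autoImplicit false

namespace Pool.Agent.H39.BFL

/-- **Row COR.** -/
theorem cor_thm : Pool.BFL.CORStmt := cor_of Pool.Agent.H34.BFL.kvr_thm Pool.Agent.H55.BFL.spn_thm

end Pool.Agent.H39.BFL
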