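import Pool.Agent.H39.BFL.Alg

/-!
# The potential of `n` independent legs
-/

set_option autoImplicit false

namespace Pool.BFL

open Finset Polynomial

/-! ### Homogeneous polynomials -/

lemma eval_smul_homog {n d : ℕ} {φ : MvPolynomial (Fin n) ℝ} (h : φ.IsHomogeneous d) (r : ℝ)
    (v : Fin n → ℝ) :
    MvPolynomial.eval (fun i => r * v i) φ = r ^ d * MvPolynomial.eval v φ := by
  rw [MvPolynomial.eval_eq', MvPolynomial.eval_eq', Finset.mul_sum]
  refine Finset.sum_congr rfl fun α hα => ?_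
  have h1 : α.degree = d := by
    by_contra hne
    exact (MvPolynomial.mem_support_iff.mp hα) (h.coeff_eq_zero hne)
  have h2 : ∑ i, α i = d := by
    rw [← h1, Finsupp.degree_eq_sum]
  have h3 : ∏ i, (r * v i) ^ α i = r ^ d * ∏ i, v i ^ α i := by
    rw [← h2, ← Finset.prod_pow_eq_pow_sum, ← Finset.prod_mul_distrib]
    exact Finset.prod_congr rfl fun i _ => mul_pow _ _ _
  rw [h3]
  ring

lemma homog_of_eval {n d : ℕ} {φ : MvPolynomial (Fin n) ℝ}
    (h : ∀ v : Fin n → ℝ, MvPolynomial.eval (fun i => 2 * v i) φ = 2 ^ d * MvPolynomial.eval v φ) :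
    φ.IsHomogeneous d := by
  classical
  set ψ : MvPolynomial (Fin n) ℝ :=
    ∑ α ∈ φ.support, MvPolynomial.monomial α (φ.coeff α * 2 ^ (∑ i, α i)) with hψ
  have h1 : ψ = MvPolynomial.C (2 ^ d) * φ := by
    apply MvPolynomial.funext
    intro v
    rw [map_mul, MvPolynomial.eval_C, ← h v, hψ, map_sum, MvPolynomial.eval_eq']
    refine Finset.sum_congr rfl fun α _ => ?_
    rw [MvPolynomial.eval_monomial, Finsupp.prod_fintype _ _ (fun i => pow_zero _)]
    have h3 : ∏ i, (2 * v i) ^ α i = 2 ^ (∑ i, α i) * ∏ i, v i ^ α i := by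
      rw [← Finset.prod_pow_eq_pow_sum, ← Finset.prod_mul_distrib]
      exact Finset.prod_congr rfl fun i _ => mul_pow _ _ _
    rw [h3]
    ring
  intro α hα
  have h2 : ψ.coeff α = φ.coeff α * 2 ^ (∑ i, α i) := by
    rw [hψ, MvPolynomial.coeff_sum]
    rw [Finset.sum_eq_single α]
    · rw [MvPolynomial.coeff_monomial, if_pos rfl]
    · intro β _ hne
      rw [MvPolynomial.coeff_monomial, if_neg hne]
    · intro hn
      exact absurd (MvPolynomial.mem_support_iff.mpr hα) hn
  rw [h1, MvPolynomial.coeff_C_mul, mul_comm] at h2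
  have h3 := mul_left_cancel₀ hα h2
  have h4 : d = ∑ i, α i := by
    have := (pow_right_injective₀ (a := (2 : ℝ)) (by norm_num) (by norm_num)) h3
    exact this
  have h5 : α.degree = d := by
    rw [Finsupp.degree_eq_sum, h4]
  rw [Finsupp.degree_eq_weight_one] at h5
  exact h5

/-! ### The potential -/

/-- Restriction to a line over the polynomial ring. -/
noncomputable def lnA {n : ℕ} (b : MvPolynomial (Fin n) ℝ) (W : Fin n → MvPolynomial (Fin n) ℝ)
    (E : Fin n → ℝ) : Polynomial (MvPolynomial (Fin n) ℝ) :=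
  MvPolynomial.aeval (fun i => Polynomial.C (W i) +
    Polynomial.C (MvPolynomial.C (E i)) * Polynomial.X) b

lemma lnA_map {n : ℕ} (b : MvPolynomial (Fin n) ℝ) (W : Fin n → MvPolynomial (Fin n) ℝ)
    (E v : Fin n → ℝ) :
    (lnA b W E).map (MvPolynomial.eval v) = ln b (fun i => MvPolynomial.eval v (W i)) E := by
  unfold lnA ln
  induction b using MvPolynomial.induction_on with
  | C a =>
    rw [MvPolynomial.aeval_C, MvPolynomial.aeval_C]
    show Polynomial.map (MvPolynomial.eval v) (Polynomial.C (MvPolynomial.C a)) = _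
    rw [Polynomial.map_C, MvPolynomial.eval_C]
    rfl
  | add p q hp hq => rw [map_add, Polynomial.map_add, hp, hq, map_add]
  | mul_X p i hp =>
    rw [map_mul, Polynomial.map_mul, hp, map_mul, MvPolynomial.aeval_X, MvPolynomial.aeval_X]
    rw [Polynomial.map_add, Polynomial.map_mul, Polynomial.map_C, Polynomial.map_C,
      Polynomial.map_X, MvPolynomial.eval_C]

/-- The coordinates of `v` in the frame `E`. -/
noncomputable def co {n : ℕ} (E : Fin n → Fin n → ℝ) (v : Fin n → ℝ) (c : Fin n) : ℝ :=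
  ∑ i, v i * (Matrix.of E)⁻¹ i c

lemma dsp_co {n : ℕ} {E : Fin n → Fin n → ℝ} (hE : (Matrix.of E).det ≠ 0) (v : Fin n → ℝ) :
    dsp E (co E v) = v := by
  have hu : IsUnit (Matrix.of E).det := isUnit_iff_ne_zero.2 hE
  have h1 : Matrix.vecMul (Matrix.vecMul v (Matrix.of E)⁻¹) (Matrix.of E) = v := by
    rw [Matrix.vecMul_vecMul, Matrix.nonsing_inv_mul _ hu, Matrix.vecMul_one]
  exact h1

lemma co_dsp {n : ℕ} {E : Fin n → Fin n → ℝ} (hE : (Matrix.of E).det ≠ 0) (u : Fin n → ℝ) :
    co E (dsp E u) = u := by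
  have hu : IsUnit (Matrix.of E).det := isUnit_iff_ne_zero.2 hE
  have h1 : Matrix.vecMul (Matrix.vecMul u (Matrix.of E)) (Matrix.of E)⁻¹ = u := by
    rw [Matrix.vecMul_vecMul, Matrix.mul_nonsing_inv _ hu, Matrix.vecMul_one]
  exact h1

/-- The coordinates as linear forms. -/
noncomputable def coU {n : ℕ} (E : Fin n → Fin n → ℝ) (c : Fin n) : MvPolynomial (Fin n) ℝ :=
  ∑ i, MvPolynomial.C ((Matrix.of E)⁻¹ i c) * MvPolynomial.X i

lemma coU_eval {n : ℕ} (E : Fin n → Fin n → ℝ) (c : Fin n) (v : Fin n → ℝ) :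
    MvPolynomial.eval v (coU E c) = co E v c := by
  unfold coU co
  rw [map_sum]
  refine Finset.sum_congr rfl fun i _ => ?_
  rw [map_mul, MvPolynomial.eval_C, MvPolynomial.eval_X, mul_comm]

/-- The remaining displacement as linear forms. -/
noncomputable def tlW {n : ℕ} (E : Fin n → Fin n → ℝ) (c i : Fin n) : MvPolynomial (Fin n) ℝ :=
  ∑ c', if c < c' then coU E c' * MvPolynomial.C (E c' i) else 0

lemma tlW_eval {n : ℕ} (E : Fin n → Fin n → ℝ) (c i : Fin n) (v : Fin n → ℝ) :
    MvPolynomial.eval v (tlW E c i) = tl E (co E v) c i := by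
  unfold tlW tl
  rw [map_sum]
  refine Finset.sum_congr rfl fun c' _ => ?_
  split_ifs
  · rw [map_mul, MvPolynomial.eval_C, coU_eval]
  · exact map_zero _

/-- The potential: the height at the end of the path of `n` independent legs, as a polynomial of
the displacement. -/
noncomputable def pot {n : ℕ} (D : ℕ) (E : Fin n → Fin n → ℝ)
    (b : Fin n → MvPolynomial (Fin n) ℝ) : MvPolynomial (Fin n) ℝ :=
  ∑ c, ∑ m ∈ range (D + 1), (lnA (b c) (tlW E c) (E c)).coeff m *
    (MvPolynomial.C (1 / ((m : ℝ) + 1)) * coU E c ^ (m + 1))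

lemma pot_eval {n D : ℕ} (E : Fin n → Fin n → ℝ) (b : Fin n → MvPolynomial (Fin n) ℝ)
    (hb : ∀ c, (b c).totalDegree ≤ D) (v : Fin n → ℝ) :
    MvPolynomial.eval v (pot D E b) = QQ E b (co E v) := by
  unfold pot QQ
  rw [map_sum]
  refine Finset.sum_congr rfl fun c _ => ?_
  rw [pm_eval_of_le (ln_natDegree (hb c) _ _), map_sum]
  refine Finset.sum_congr rfl fun m _ => ?_
  have h1 : MvPolynomial.eval v ((lnA (b c) (tlW E c) (E c)).coeff m) =
      (ln (b c) (tl E (co E v) c) (E c)).coeff m := by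
    have h2 := lnA_map (b c) (tlW E c) (E c) v
    have h3 : (fun i => MvPolynomial.eval v (tlW E c i)) = tl E (co E v) c := by
      funext i
      exact tlW_eval E c i v
    rw [h3] at h2
    rw [← h2, Polynomial.coeff_map]
  rw [map_mul, map_mul, map_pow, MvPolynomial.eval_C, coU_eval, h1]
  ring

/-! ### Homogeneity -/

lemma tl_smul {n N : ℕ} (E : Fin N → Fin n → ℝ) (s : Fin N → ℝ) (r : ℝ) (a : Fin N) :
    tl E (fun c => r * s c) a = fun i => r * tl E s a i := by
  funext i
  unfold tl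
  rw [Finset.mul_sum]
  refine Finset.sum_congr rfl fun c _ => ?_
  split_ifs
  · ring
  · ring

lemma ln_smul {n D : ℕ} {b : MvPolynomial (Fin n) ℝ} (hb : b.IsHomogeneous D) (w E : Fin n → ℝ)
    (r x : ℝ) : (pm (ln b (fun i => r * w i) E)).eval (r * x) =
      r ^ (D + 1) * (pm (ln b w E)).eval x := by
  rw [← integral_zero_eq_pm, ← integral_zero_eq_pm]
  have h1 := intervalIntegral.mul_integral_comp_mul_left (a := 0) (b := x) r
    (f := fun τ => (ln b (fun i => r * w i) E).eval τ)
  rw [mul_zero] at h1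
  rw [← h1]
  have h2 : ∀ τ : ℝ, (ln b (fun i => r * w i) E).eval (r * τ) = r ^ D * (ln b w E).eval τ := by
    intro τ
    rw [ln_eval, ln_eval, ← eval_smul_homog hb]
    refine congrArg (fun y => MvPolynomial.eval y b) ?_
    funext i
    ring
  rw [intervalIntegral.integral_congr (g := fun τ => r ^ D * (ln b w E).eval τ) fun τ _ => h2 τ,
    intervalIntegral.integral_const_mul, pow_succ]
  ring

lemma QQ_smul {n N D : ℕ} (E : Fin N → Fin n → ℝ) (b : Fin N → MvPolynomial (Fin n) ℝ)
    (hb : ∀ a, (b a).IsHomogeneous D) (s : Fin N → ℝ) (r : ℝ) :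
    QQ E b (fun a => r * s a) = r ^ (D + 1) * QQ E b s := by
  unfold QQ
  rw [Finset.mul_sum]
  refine Finset.sum_congr rfl fun a _ => ?_
  rw [tl_smul, ln_smul (hb a)]

lemma co_smul {n : ℕ} (E : Fin n → Fin n → ℝ) (v : Fin n → ℝ) (r : ℝ) :
    co E (fun i => r * v i) = fun c => r * co E v c := by
  funext c
  unfold co
  rw [Finset.mul_sum]
  exact Finset.sum_congr rfl fun i _ => by ring

lemma pot_homog {n D : ℕ} (E : Fin n → Fin n → ℝ) (b : Fin n → MvPolynomial (Fin n) ℝ)
    (hb : ∀ c, (b c).IsHomogeneous D) : (pot D E b).IsHomogeneous (D + 1) := by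
  apply homog_of_eval
  intro v
  rw [pot_eval E b (fun c => (hb c).totalDegree_le), pot_eval E b (fun c => (hb c).totalDegree_le),
    co_smul, QQ_smul E b hb]

/-! ### Sub-paths -/

/-- Legs of length zero may be deleted. -/
lemma QQ_sub {n N m : ℕ} (E : Fin N → Fin n → ℝ) (b : Fin N → MvPolynomial (Fin n) ℝ)
    (g : Fin m → Fin N) (hg : StrictMono g) (s : Fin N → ℝ)
    (hs : ∀ a, (∀ c, g c ≠ a) → s a = 0) :
    QQ E b s = QQ (fun c => E (g c)) (fun c => b (g c)) (fun c => s (g c)) := by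
  classical
  have hgi := hg.injective
  have htl : ∀ c : Fin m, tl E s (g c) = tl (fun c => E (g c)) (fun c => s (g c)) c := by
    intro c
    funext i
    unfold tl
    have e1 : ∑ c' : Fin m, (if c < c' then s (g c') * E (g c') i else 0) =
        ∑ a ∈ univ.image g, if g c < a then s a * E a i else 0 := by
      rw [Finset.sum_image (fun _ _ _ _ h => hgi h)]
      refine Finset.sum_congr rfl fun c' _ => ?_
      by_cases h : c < c'
      · rw [if_pos h, if_pos (hg h)]
      · rw [if_neg h, if_neg (fun h2 => h (hg.lt_iff_lt.mp h2))]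
    rw [e1]
    symm
    refine Finset.sum_subset (Finset.subset_univ _) fun a _ ha => ?_
    have : s a = 0 := hs a fun c' hc' => ha (Finset.mem_image.mpr ⟨c', Finset.mem_univ _, hc'⟩)
    rw [this, zero_mul, ite_self]
  unfold QQ
  have e2 : ∑ c : Fin m, (pm (ln (b (g c)) (tl (fun c => E (g c)) (fun c => s (g c)) c)
      (E (g c)))).eval (s (g c)) =
      ∑ a ∈ univ.image g, (pm (ln (b a) (tl E s a) (E a))).eval (s a) := by
    rw [Finset.sum_image (fun _ _ _ _ h => hgi h)]
    refine Finset.sum_congr rfl fun c _ => ?_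
    rw [htl]
  rw [e2]
  symm
  refine Finset.sum_subset (Finset.subset_univ _) fun a _ ha => ?_
  have : s a = 0 := hs a fun c' hc' => ha (Finset.mem_image.mpr ⟨c', Finset.mem_univ _, hc'⟩)
  rw [this, pm_eval_zero]

lemma dsp_sub {n N m : ℕ} (E : Fin N → Fin n → ℝ) (g : Fin m → Fin N) (hg : StrictMono g)
    (s : Fin N → ℝ) (hs : ∀ a, (∀ c, g c ≠ a) → s a = 0) :
    dsp E s = dsp (fun c => E (g c)) (fun c => s (g c)) := by
  classical
  funext i
  unfold dsp
  have e1 : ∑ c : Fin m, s (g c) * E (g c) i = ∑ a ∈ univ.image g, s a * E a i :=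
    (Finset.sum_image (f := fun a => s a * E a i) (fun _ _ _ _ h => hg.injective h)).symm
  rw [e1]
  symm
  refine Finset.sum_subset (Finset.subset_univ _) fun a _ ha => ?_
  have : s a = 0 := hs a fun c' hc' => ha (Finset.mem_image.mpr ⟨c', Finset.mem_univ _, hc'⟩)
  rw [this, zero_mul]

/-- The first leg. -/
lemma QQ_cons {n m : ℕ} (E : Fin (m + 1) → Fin n → ℝ) (b : Fin (m + 1) → MvPolynomial (Fin n) ℝ)
    (s : Fin (m + 1) → ℝ) :
    QQ E b s = (pm (ln (b 0) (dsp (fun c => E c.succ) (fun c => s c.succ)) (E 0))).eval (s 0) +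
      QQ (fun c => E c.succ) (fun c => b c.succ) (fun c => s c.succ) := by
  unfold QQ
  rw [Fin.sum_univ_succ]
  have e0 : tl E s 0 = dsp (fun c => E c.succ) (fun c => s c.succ) := by
    funext i
    unfold tl dsp
    rw [Fin.sum_univ_succ, if_neg (lt_irrefl _), zero_add]
    refine Finset.sum_congr rfl fun c _ => ?_
    rw [if_pos (Fin.succ_pos c)]
  have e1 : ∀ c : Fin m, tl E s c.succ = tl (fun c => E c.succ) (fun c => s c.succ) c := by
    intro c
    funext i
    unfold tl
    rw [Fin.sum_univ_succ, if_neg (by simp), zero_add]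
    refine Finset.sum_congr rfl fun c' _ => ?_
    by_cases h : c < c'
    · rw [if_pos h, if_pos (Fin.succ_lt_succ_iff.mpr h)]
    · rw [if_neg h, if_neg (fun h2 => h (Fin.succ_lt_succ_iff.mp h2))]
  rw [e0, add_right_inj]
  refine Finset.sum_congr rfl fun c _ => ?_
  rw [e1]

end Pool.BFL
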