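import Pool.Agent.H19.BFL.Stmts

/-!
# Board kbfl, row WLE: the lengths of the legs of the walk
-/

set_option autoImplicit false

namespace Pool.Agent.H39.BFL

open Finset Real
open Pool.Agent.H49.Ent Pool.Agent.H32.Dense Pool.STK Pool.KS3 Pool.BFL

/-- **Row WLE.** -/
theorem wle_thm : WLEStmt := by
  intro Ω G B 𝔅 𝒱 W _ _ p g bk β V τ N q z h d hp hN hMC hbβ hgβ hbτ hh hd
  have hp0 := hp.nonneg
  have hq := hMC.isLaw
  have hq0 := hq.nonneg
  have hpos : ∀ i ≤ 2 * N - 1, ∀ w, 0 < q w → 0 < p (z i w) :=
    fun i hi w hw => (hMC.marg i hi).pos hq0 hw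
  -- the variable `β` is constant along the walk
  have hβ1 : ∀ w, 0 < q w → ∀ i < 2 * N - 1, β (z i w) = β (z (i + 1) w) := by
    intro w hw i hi
    have h1 := hMC.same w hw i hi
    have p1 := hpos i hi.le w hw
    have p2 := hpos (i + 1) hi w hw
    unfold alt at h1
    split_ifs at h1 with he
    · exact hgβ _ _ p1 p2 (Sum.inl_injective h1)
    · exact hbβ _ _ p1 p2 (Sum.inr_injective h1)
  have hβ : ∀ w, 0 < q w → ∀ i ≤ 2 * N - 1, β (z 0 w) = β (z i w) := by
    intro w hw i
    induction i with
    | zero => intro _; rfl
    | succ i ih =>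
      intro hi
      rw [ih (by omega), hβ1 w hw i (by omega)]
  set S : ℕ → W → ℤ := fun i w => τ (z (2 * i + 1) w) - τ (z (2 * i) w) with hS
  set Sv : (a : ℕ) → W → Fin a → ℤ := fun a w i => S i w with hSv
  set Vv : (a : ℕ) → W → Fin a → 𝒱 := fun a w i => V (z (2 * i) w) with hVv
  set B0 : W → B := fun w => bk (z 0 w) with hB0
  -- the new length
  have hnew : ∀ a < N, h ≤ CH q (S a) (fun w (k : Fin (2 * a + 1)) => z k w) := by
    intro a ha
    have hM : 2 * a < 2 * N - 1 := by omega
    have hci := hMC.markov (2 * a) hM
    have hci2 : CI q (fun w => τ (z (2 * a + 1) w)) (fun w (k : Fin (2 * a + 1)) => z k w)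
        (fun w => alt g bk (2 * a) (z (2 * a) w)) := by
      refine hci.mono_left hq0 ?_
      intro w w' _ _ e
      have e1 := congrFun (Prod.ext_iff.mp e).1 ⟨0, by omega⟩
      simp only [Nat.add_zero] at e1
      exact congrArg τ e1
    unfold CI at hci2
    have h1 : CH q (S a) (fun w (k : Fin (2 * a + 1)) => z k w) =
        CH q (fun w => τ (z (2 * a + 1) w)) (fun w => ((fun (k : Fin (2 * a + 1)) => z k w),
          alt g bk (2 * a) (z (2 * a) w))) := by
      refine CH_congr hq0 ?_ ?_ ?_ ?_
      · intro w w' _ _ e
        have e1 := (Prod.ext_iff.mp e).1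
        have e2 := congrFun (Prod.ext_iff.mp e).2 ⟨2 * a, by omega⟩
        simp only [hS] at e1 e2
        rw [e2] at e1
        exact sub_left_injective e1
      · intro w w' _ _ e
        have e1 := (Prod.ext_iff.mp e).1
        have e2 := congrFun (Prod.ext_iff.mp (Prod.ext_iff.mp e).2).1 ⟨2 * a, by omega⟩
        simp only [hS] at e1 e2 ⊢
        rw [e1, e2]
      · intro w w' _ _ e
        have e2 := congrFun e ⟨2 * a, by omega⟩
        simp only at e2
        exact Prod.ext e (by simp only; rw [e2])
      · intro w w' _ _ e
        exact (Prod.ext_iff.mp e).1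
    have h2 : CH q (fun w => τ (z (2 * a + 1) w)) (fun w => alt g bk (2 * a) (z (2 * a) w)) =
        CH q (fun w => τ (z (2 * a + 1) w)) (fun w => g (z (2 * a + 1) w)) := by
      have hev : (2 * a) % 2 = 0 := by omega
      refine CH_congr hq0 (fun _ _ _ _ e => (Prod.ext_iff.mp e).1)
        (fun _ _ _ _ e => (Prod.ext_iff.mp e).1) ?_ ?_
      · intro w w' hw hw' e
        have s1 := hMC.same w hw (2 * a) hM
        have s2 := hMC.same w' hw' (2 * a) hM
        dsimp only at e ⊢
        rw [s1, s2] at e
        unfold alt at e
        rw [if_pos hev, if_pos hev] at e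
        exact Sum.inl_injective e
      · intro w w' hw hw' e
        have s1 := hMC.same w hw (2 * a) hM
        have s2 := hMC.same w' hw' (2 * a) hM
        dsimp only at e ⊢
        rw [s1, s2]
        unfold alt
        rw [if_pos hev, if_pos hev, e]
    have h3 := (hMC.marg (2 * a + 1) (by omega)).CH τ g
    rw [h1, hci2, h2, h3]
    exact hh
  -- the new variable given the past
  have hV1 : ∀ a < N, 1 ≤ a → CH p V bk ≤
      CH q (fun w => V (z (2 * a) w)) (fun w (k : Fin (2 * a - 1 + 1)) => z k w) := by
    intro a ha ha1
    have hM : 2 * a - 1 < 2 * N - 1 := by omega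
    have e0 : 2 * a - 1 + 1 = 2 * a := by omega
    have hci := hMC.markov (2 * a - 1) hM
    have hci2 : CI q (fun w => V (z (2 * a) w)) (fun w (k : Fin (2 * a - 1 + 1)) => z k w)
        (fun w => alt g bk (2 * a - 1) (z (2 * a - 1) w)) := by
      refine hci.mono_left hq0 ?_
      intro w w' _ _ e
      have e1 := congrFun (Prod.ext_iff.mp e).1 ⟨0, by omega⟩
      simp only [Nat.add_zero, e0] at e1
      exact congrArg V e1
    unfold CI at hci2
    have h1 : CH q (fun w => V (z (2 * a) w)) (fun w (k : Fin (2 * a - 1 + 1)) => z k w) =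
        CH q (fun w => V (z (2 * a) w)) (fun w => ((fun (k : Fin (2 * a - 1 + 1)) => z k w),
          alt g bk (2 * a - 1) (z (2 * a - 1) w))) := by
      refine CH_congr hq0 (fun _ _ _ _ e => (Prod.ext_iff.mp e).1)
        (fun _ _ _ _ e => (Prod.ext_iff.mp e).1) ?_ (fun _ _ _ _ e => (Prod.ext_iff.mp e).1)
      intro w w' _ _ e
      have e2 := congrFun e ⟨2 * a - 1, by omega⟩
      simp only at e2
      exact Prod.ext e (by simp only; rw [e2])
    have h2 : CH q (fun w => V (z (2 * a) w))
        (fun w => alt g bk (2 * a - 1) (z (2 * a - 1) w)) =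
        CH q (fun w => V (z (2 * a) w)) (fun w => bk (z (2 * a) w)) := by
      have hod : ¬ (2 * a - 1) % 2 = 0 := by omega
      refine CH_congr hq0 (fun _ _ _ _ e => (Prod.ext_iff.mp e).1)
        (fun _ _ _ _ e => (Prod.ext_iff.mp e).1) ?_ ?_
      · intro w w' hw hw' e
        have s1 := hMC.same w hw (2 * a - 1) hM
        have s2 := hMC.same w' hw' (2 * a - 1) hM
        dsimp only at e ⊢
        rw [s1, s2, e0] at e
        unfold alt at e
        rw [if_neg hod, if_neg hod] at e
        exact Sum.inr_injective e
      · intro w w' hw hw' e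
        have s1 := hMC.same w hw (2 * a - 1) hM
        have s2 := hMC.same w' hw' (2 * a - 1) hM
        dsimp only at e ⊢
        rw [s1, s2, e0]
        unfold alt
        rw [if_neg hod, if_neg hod, e]
    have h3 := (hMC.marg (2 * a) (by omega)).CH V bk
    rw [h1, hci2, h2, h3]
  -- the new variable given `β`
  have hV2 : ∀ a < N, CH q (fun w => V (z (2 * a) w)) (fun w => (Vv a w, B0 w)) ≤ CH p V β := by
    intro a ha
    have h1 : CH q (fun w => V (z (2 * a) w)) (fun w => (Vv a w, B0 w)) ≤
        CH q (fun w => V (z (2 * a) w)) (fun w => β (z (2 * a) w)) := by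
      refine CH_mono_cond hq0 ?_
      intro w w' hw hw' e
      have e1 := (Prod.ext_iff.mp e).2
      simp only [hB0] at e1
      have e2 := hbβ _ _ (hpos 0 (by omega) w hw) (hpos 0 (by omega) w' hw') e1
      rw [hβ w hw (2 * a) (by omega), hβ w' hw' (2 * a) (by omega)] at e2
      exact e2
    have h3 := (hMC.marg (2 * a) (by omega)).CH V β
    rw [h3] at h1
    exact h1
  -- induction
  have key : ∀ a : ℕ, 1 ≤ a → a ≤ N →
      (a : ℝ) * h - ((a : ℝ) - 1) * d ≤ CH q (Sv a) (fun w => (Vv a w, B0 w)) := by
    intro a
    induction a with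
    | zero => intro h0; omega
    | succ a ih =>
      intro _ haN
      -- split the last length
      have e1 : CH q (Sv (a + 1)) (fun w => (Vv (a + 1) w, B0 w)) =
          CH q (fun w => (S a w, Sv a w)) (fun w => (Vv (a + 1) w, B0 w)) := by
        refine CH_congr hq0 ?_ ?_ (fun _ _ _ _ e => e) (fun _ _ _ _ e => e)
        · intro w w' _ _ e
          have e1 := (Prod.ext_iff.mp e).1
          refine Prod.ext ?_ ?_
          · exact congrFun e1 (Fin.last a)
          · funext i
            exact congrFun e1 i.castSucc
        · intro w w' _ _ e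
          have e1 := (Prod.ext_iff.mp e).1
          have e2 := (Prod.ext_iff.mp e1).1
          have e3 := (Prod.ext_iff.mp e1).2
          funext i
          refine Fin.lastCases ?_ (fun i => ?_) i
          · exact e2
          · exact congrFun e3 i
      rw [e1, CH_chain hq0]
      have h2 : h ≤ CH q (S a) (fun w => (Sv a w, (Vv (a + 1) w, B0 w))) := by
        refine (hnew a (by omega)).trans (CH_mono_cond hq0 ?_)
        intro w w' _ _ e
        refine Prod.ext ?_ (Prod.ext ?_ ?_)
        · funext i
          have e2 := congrFun e ⟨2 * i + 1, by omega⟩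
          have e3 := congrFun e ⟨2 * i, by omega⟩
          simp only at e2 e3
          simp only [hSv, hS]
          rw [e2, e3]
        · funext i
          have e3 := congrFun e ⟨2 * i, by omega⟩
          simp only at e3
          simp only [hVv]
          rw [e3]
        · have e3 := congrFun e ⟨0, by omega⟩
          simp only at e3
          simp only [hB0]
          rw [e3]
      rcases Nat.eq_zero_or_pos a with ha0 | ha0
      · subst ha0
        have h3 := CH_nonneg hq0 (Sv 0) (fun w => (Vv (0 + 1) w, B0 w))
        push_cast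
        linarith
      · have ih' := ih ha0 (by omega)
        set Va : W → 𝒱 := fun w => V (z (2 * a) w) with hVa
        have e4 : CH q (Sv a) (fun w => (Vv (a + 1) w, B0 w)) =
            CH q (Sv a) (fun w => (Va w, (Vv a w, B0 w))) := by
          refine CH_congr hq0 (fun _ _ _ _ e => (Prod.ext_iff.mp e).1)
            (fun _ _ _ _ e => (Prod.ext_iff.mp e).1) ?_ ?_
          · intro w w' _ _ e
            have e1 := (Prod.ext_iff.mp e).1
            refine Prod.ext ?_ (Prod.ext ?_ (Prod.ext_iff.mp e).2)
            · exact congrFun e1 (Fin.last a)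
            · funext i
              exact congrFun e1 i.castSucc
          · intro w w' _ _ e
            have e1 := (Prod.ext_iff.mp e).1
            have e2 := (Prod.ext_iff.mp (Prod.ext_iff.mp e).2).1
            refine Prod.ext ?_ (Prod.ext_iff.mp (Prod.ext_iff.mp e).2).2
            funext i
            refine Fin.lastCases ?_ (fun i => ?_) i
            · exact e1
            · exact congrFun e2 i
        have c1 := CH_chain hq0 (Sv a) Va (fun w => (Vv a w, B0 w))
        have c2 := CH_chain hq0 Va (Sv a) (fun w => (Vv a w, B0 w))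
        have c3 : CH q (fun w => (Sv a w, Va w)) (fun w => (Vv a w, B0 w)) =
            CH q (fun w => (Va w, Sv a w)) (fun w => (Vv a w, B0 w)) := by
          refine CH_congr hq0 ?_ ?_ (fun _ _ _ _ e => e) (fun _ _ _ _ e => e) <;>
          · intro w w' _ _ e
            simp only [Prod.mk.injEq] at e ⊢
            tauto
        have h5 : CH p V bk ≤ CH q Va (fun w => (Sv a w, (Vv a w, B0 w))) := by
          refine (hV1 a (by omega) ha0).trans (CH_mono_cond hq0 ?_)
          intro w w' _ _ e
          refine Prod.ext ?_ (Prod.ext ?_ ?_)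
          · funext i
            have e2 := congrFun e ⟨2 * i + 1, by omega⟩
            have e3 := congrFun e ⟨2 * i, by omega⟩
            simp only at e2 e3
            simp only [hSv, hS]
            rw [e2, e3]
          · funext i
            have e3 := congrFun e ⟨2 * i, by omega⟩
            simp only at e3
            simp only [hVv]
            rw [e3]
          · have e3 := congrFun e ⟨0, by omega⟩
            simp only at e3
            simp only [hB0]
            rw [e3]
        have h6 := hV2 a (by omega)
        have h7 : CH q Va (fun w => (Vv a w, B0 w)) ≤ CH p V β := h6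
        rw [e4]
        push_cast
        linarith
  have hfin := key N hN le_rfl
  exact hfin

end Pool.Agent.H39.BFL
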