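import Pool.Agent.H39.BFL.Height
import Pool.Agent.H39.BFL.Walk

/-!
# The kernel variation of a typical walk is small
-/

set_option autoImplicit false

namespace Pool.Agent.H39.BFL

open Finset Real
open Pool.Agent.H49.Ent Pool.Agent.H32.Dense Pool.STK Pool.KS3 Pool.BFL

lemma exp_large (A a : ℝ) (ha : 0 < a) : ∃ U₀ : ℕ, ∀ U : ℕ, U₀ ≤ U → A ≤ exp (a * U) := by
  obtain ⟨U₀, hU₀⟩ := exists_nat_ge (A / a)
  refine ⟨U₀, fun U hU => ?_⟩
  have h1 : A / a ≤ U := hU₀.trans (by exact_mod_cast hU)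
  rw [div_le_iff₀ ha] at h1
  have h2 := Real.add_one_le_exp (a * U)
  linarith only [h1, h2, mul_comm a (U : ℝ)]

lemma exists_fun {Ω B 𝔅 : Type} [Fintype Ω] {p : Ω → ℝ} {bk : Ω → B} {β : Ω → 𝔅}
    (h : Det p bk β) (ω₀ : Ω) : ∃ f : B → 𝔅, ∀ ω, 0 < p ω → f (bk ω) = β ω := by
  classical
  refine ⟨fun x => if hx : ∃ ω, 0 < p ω ∧ bk ω = x then β hx.choose else β ω₀, ?_⟩
  intro ω hω
  have hx : ∃ ω', 0 < p ω' ∧ bk ω' = bk ω := ⟨ω, hω, rfl⟩
  dsimp only
  rw [dif_pos hx]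
  exact h _ _ hx.choose_spec.1 hω hx.choose_spec.2

lemma exists_near {Ω B : Type} {n : ℕ} {bk : Ω → B} {Y : Ω → Fin n → ℝ} {e : ℝ}
    (h : ∀ ω ω', bk ω = bk ω' → ∀ i, |Y ω' i - Y ω i| ≤ e) :
    ∃ f : B → Fin n → ℝ, ∀ ω i, |f (bk ω) i - Y ω i| ≤ e := by
  classical
  refine ⟨fun x => if hx : ∃ ω, bk ω = x then Y hx.choose else 0, ?_⟩
  intro ω i
  have hx : ∃ ω', bk ω' = bk ω := ⟨ω, rfl⟩
  dsimp only
  rw [dif_pos hx]
  exact h _ _ hx.choose_spec.symm i

/-- The frames of a typical walk are not degenerate. -/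
lemma frame_det (hSPN : SPNStmt) {n N : ℕ} {Ω G B 𝔅 𝒱 W : Type} [Fintype Ω] [Fintype W]
    {j U m : ℕ} {c C₀ θ η : ℝ}
    {p : Ω → ℝ} {g : Ω → G} {bk : Ω → B} {β : Ω → 𝔅} {V : Ω → 𝒱} {tm : Ω → ℤ}
    {Y E : Ω → Fin n → ℝ} {yc : Ω → Fin n → ℤ} {hgt : Ω → ℝ} {T : B → Pl n}
    {bV : 𝒱 → 𝔅 → Pl n} {EV : 𝒱 → Fin n → ℝ} {q : W → ℝ} {z : ℕ → W → Ω}
    (hC : Core j U m c C₀ θ η p g bk β V tm Y E yc hgt T bV EV)
    (hMC : MC p (alt g bk) (2 * N - 1) q z) (hC₀ : 1 ≤ C₀)
    (hbig : n.factorial * (n * C₀ ^ n * (C₀ / 2 ^ m)) ≤ exp (-(n * θ)) / 2)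
    {a₀ : ℕ} (ha : a₀ + n ≤ N) :
    Pb q (fun w => |(Matrix.of fun k : Fin n => EV (V (z (2 * (a₀ + k)) w))).det| <
      exp (-(n * θ)) / 2) ≤ n * η := by
  have hq0 := hMC.isLaw.nonneg
  obtain ⟨e, he0, he1, he2⟩ := hC.span
  have h1 := hSPN n Ω G B W p g bk E N a₀ q z (exp (-θ)) η e hC.isLaw hMC ha (exp_pos _) he0 he1 he2
  refine (Pb_mono hq0 ?_).trans h1
  intro w hw hlt
  have hpos : ∀ i ≤ 2 * N - 1, 0 < p (z i w) := fun i hi => (hMC.marg i hi).pos hq0 hw
  have h2m : (0 : ℝ) < 2 ^ m := by positivity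
  have h2 := det_lip (n := n) (C₀ := C₀) (δ := C₀ / 2 ^ m) hC₀ (by positivity)
    (E := fun k : Fin n => EV (V (z (2 * (a₀ + k)) w)))
    (E' := fun k : Fin n => E (z (2 * (a₀ + k)) w)) (fun _ _ => hC.EV_le _ _)
    (fun _ _ => hC.E_le _ _) (fun k i => hC.EV_near _ (hpos _ (by have := k.2; omega)) i)
  have h3 : |(Matrix.of fun i k : Fin n => E (z (2 * (a₀ + k)) w) i).det| =
      |(Matrix.of fun k : Fin n => E (z (2 * (a₀ + k)) w)).det| := by
    rw [← Matrix.det_transpose]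
    rfl
  rw [h3]
  have h4 : exp (-θ) ^ n = exp (-(n * θ)) := by
    rw [← Real.exp_nat_mul]
    congr 1
    ring
  rw [h4]
  have h5 := abs_sub_abs_le_abs_sub (Matrix.of fun k : Fin n => E (z (2 * (a₀ + k)) w)).det
    (Matrix.of fun k : Fin n => EV (V (z (2 * (a₀ + k)) w))).det
  rw [abs_sub_comm] at h5
  linarith only [hbig, hlt, h2, h5]

/-- Transport along all the legs. -/
lemma trn_all {n N : ℕ} {Ω G B 𝔅 𝒱 W : Type} [Fintype Ω] [Fintype W]
    {j U m : ℕ} {c C₀ θ η : ℝ}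
    {p : Ω → ℝ} {g : Ω → G} {bk : Ω → B} {β : Ω → 𝔅} {V : Ω → 𝒱} {tm : Ω → ℤ}
    {Y E : Ω → Fin n → ℝ} {yc : Ω → Fin n → ℤ} {hgt : Ω → ℝ} {T : B → Pl n}
    {bV : 𝒱 → 𝔅 → Pl n} {EV : 𝒱 → Fin n → ℝ} {q : W → ℝ} {z : ℕ → W → Ω}
    (hC : Core j U m c C₀ θ η p g bk β V tm Y E yc hgt T bV EV)
    (hMC : MC p (alt g bk) (2 * N - 1) q z) :
    Pb q (fun w => ∃ a : Fin N, ¬ Trn m C₀ (exp θ / 2 ^ U) bk β V tm Y E T bV (z (2 * a) w)
      (z (2 * a + 1) w)) ≤ N * η := by
  have hq0 := hMC.isLaw.nonneg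
  have h1 := Pb_ex hq0 (fun (a : Fin N) w => ¬ Trn m C₀ (exp θ / 2 ^ U) bk β V tm Y E T bV
    (z (2 * a) w) (z (2 * a + 1) w)) η (fun a => by
      have h2 := hMC.pair (2 * a) (by have := a.2; omega)
        (fun ω ω' => ¬ Trn m C₀ (exp θ / 2 ^ U) bk β V tm Y E T bV ω ω')
      rw [h2, P2_alt g bk (by omega)]
      exact hC.transport)
  rwa [Fintype.card_fin] at h1

/-- The kernel variation of a typical walk is small. -/
theorem kv_lem (hKVR : KVRStmt) (hSPN : SPNStmt) (n j : ℕ) (c C₀ τ₀ : ℝ) (hn : 1 ≤ n)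
    (hj : 1 ≤ j) (hc : 0 < c) (hC₀ : 1 ≤ C₀) (hτ₀ : 0 < τ₀) :
    ∃ τ₁ : ℝ, 0 < τ₁ ∧ ∃ U₀ : ℕ, ∀ U m : ℕ, U₀ ≤ U → U ≤ m → (m : ℝ) ≤ C₀ * U →
    ∀ {Ω G B 𝔅 𝒱 W : Type} [Fintype Ω] [Fintype W] {θ η : ℝ}
    {p : Ω → ℝ} {g : Ω → G} {bk : Ω → B} {β : Ω → 𝔅} {V : Ω → 𝒱} {tm : Ω → ℤ}
    {Y E : Ω → Fin n → ℝ} {yc : Ω → Fin n → ℤ} {hgt : Ω → ℝ} {T : B → Pl n}
    {bV : 𝒱 → 𝔅 → Pl n} {EV : 𝒱 → Fin n → ℝ} {q : W → ℝ} {z : ℕ → W → Ω},
    Core j U m c C₀ θ η p g bk β V tm Y E yc hgt T bV EV → 0 ≤ θ → θ ≤ τ₁ * U → 0 ≤ η →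
    η ≤ τ₁ → MC p (alt g bk) (2 * (2 * n + 1) - 1) q z →
    n.factorial * (n * C₀ ^ n * (C₀ / 2 ^ m)) ≤ exp (-(n * θ)) / 2 ∧
    Pb q (fun w => KV (exp (τ₀ * U) / 2 ^ U)
      (fun a : Fin (2 * n + 1) => EV (V (z (2 * a) w)))
      (Qw (fun a : Fin (2 * n + 1) => bV (V (z (2 * a) w)) (β (z 0 w)))
        (fun a : Fin (2 * n + 1) => EV (V (z (2 * a) w))))) ≤ τ₀ := by
  set N := 2 * n + 1 with hN
  have hC₀' : (1 : ℝ) ≤ (3 * N + 2) * C₀ := by
    have : (0 : ℝ) ≤ N := Nat.cast_nonneg N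
    nlinarith only [hC₀]
  obtain ⟨τ', hτ', U', hU'⟩ := hKVR n N j c ((3 * N + 2) * C₀) τ₀ (by omega) hc hC₀' hτ₀
  obtain ⟨A, hA1, hA⟩ := height_det n N j (by omega) C₀ hC₀
  obtain ⟨CQ, hCQ1, hCQ⟩ := qpol n N (j - 1) C₀ hC₀
  have hlog : 0 < Real.log 2 := Real.log_pos (by norm_num)
  set K : ℝ := 4 * (N + n + 1) with hK
  have hK0 : 0 < K := by positivity
  set τ₁ : ℝ := min τ' (Real.log 2) / K with hτ₁
  have hmin : 0 < min τ' (Real.log 2) := lt_min hτ' hlog
  have hτ₁0 : 0 < τ₁ := by positivity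
  have hKτ : K * τ₁ = min τ' (Real.log 2) := by
    rw [hτ₁]
    field_simp
  have hNn : (N : ℝ) = 2 * n + 1 := by
    rw [hN]
    push_cast
    ring
  have hn0 : (1 : ℝ) ≤ n := by exact_mod_cast hn
  have b1 : 4 * (N + n + 1) * τ₁ ≤ τ' := by
    rw [← hK, hKτ]
    exact min_le_left _ _
  have b2 : 4 * (N + n + 1) * τ₁ ≤ Real.log 2 := by
    rw [← hK, hKτ]
    exact min_le_right _ _
  obtain ⟨U1, hU1⟩ := exp_large (2 * (n.factorial * (n * C₀ ^ n * C₀))) (Real.log 2 / 2)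
    (by positivity)
  obtain ⟨U2, hU2⟩ := exp_large (max A (max CQ 2)) (τ' / 2) (by positivity)
  exact by
   obtain ⟨U3, hU3⟩ := exp_large (2 * C₀) (Real.log 2) hlog
   refine ⟨τ₁, hτ₁0, max U' (max U1 (max U2 U3)), ?_⟩
   intro U m hU hUm hmU Ω G B 𝔅 𝒱 W _ _ θ η p g bk β V tm Y E yc hgt T bV EV q z hC hθ hθ1 hη hη1 hMC
   have hUU' : U' ≤ U := le_trans (le_max_left _ _) hU
   have hUU1 : U1 ≤ U := le_trans (le_trans (le_max_left _ _) (le_max_right _ _)) hU
   have hUU2 : U2 ≤ U := le_trans (le_trans (le_max_left _ _) (le_trans (le_max_right _ _)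
     (le_max_right _ _))) hU
   have hUU3 : U3 ≤ U := le_trans (le_trans (le_max_right _ _) (le_trans (le_max_right _ _)
     (le_max_right _ _))) hU
   have hq := hMC.isLaw
   have hq0 := hq.nonneg
   have hU0 : (0 : ℝ) ≤ U := Nat.cast_nonneg U
   have h2m : (0 : ℝ) < 2 ^ m := by positivity
   have h2U : (0 : ℝ) < 2 ^ U := by positivity
   have hUm' : (2 : ℝ) ^ U ≤ 2 ^ m := pow_le_pow_right₀ (by norm_num) hUm
   have e2U : (2 : ℝ) ^ U = exp (Real.log 2 * U) := by
     rw [mul_comm, Real.exp_nat_mul, Real.exp_log (by norm_num)]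
   have hnθ : n * θ ≤ Real.log 2 / 2 * U := by
     have h1 : n * θ ≤ n * (τ₁ * U) := mul_le_mul_of_nonneg_left hθ1 (by linarith only [hn0])
     have h2 : n * τ₁ ≤ Real.log 2 / 2 := by nlinarith only [hlog, hτ₁0, b2]
     nlinarith only [hθ, hθ1, h1, hlog, b2]
   have hnθ2 : n * θ ≤ τ' / 2 * U := by
     have h1 : n * θ ≤ n * (τ₁ * U) := mul_le_mul_of_nonneg_left hθ1 (by linarith only [hn0])
     have h2 : n * τ₁ ≤ τ' / 2 := by nlinarith only [hτ', hτ₁0, b1]
     nlinarith only [hθ, hθ1, h1, hτ', b1]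
   have hθ2 : θ ≤ τ' / 2 * U := by
     have h2 : τ₁ ≤ τ' / 2 := by nlinarith only [hτ₁0, b1]
     nlinarith only [hθ1, hnθ2, hθ, b1]
   -- the determinant condition
   have hbig : n.factorial * (n * C₀ ^ n * (C₀ / 2 ^ m)) ≤ exp (-(n * θ)) / 2 := by
     have h1 := hU1 U hUU1
     have h3 : exp (Real.log 2 / 2 * U) ≤ 2 ^ m * exp (-(n * θ)) := by
       refine le_trans ?_ (mul_le_mul_of_nonneg_right hUm' (exp_pos _).le)
       rw [e2U, ← Real.exp_add]
       refine Real.exp_le_exp.mpr ?_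
       nlinarith only [hnθ]
     have e : n.factorial * (n * C₀ ^ n * (C₀ / 2 ^ m)) =
         (n.factorial * (n * C₀ ^ n * C₀)) / 2 ^ m := by
       field_simp
     rw [e, div_le_iff₀ h2m]
     linarith only [h1, h3]
   exact by
    refine ⟨hbig, ?_⟩
    -- the data
    obtain ⟨ω₀, hω₀⟩ : ∃ ω : Ω, 0 < p ω := by
      by_contra hcon
      push Not at hcon
      have h1 := hC.isLaw.sum_one
      have h2 : ∑ ω, p ω ≤ 0 := Finset.sum_nonpos fun ω _ => hcon ω
      linarith only [h1, h2]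
    obtain ⟨βB, hβB⟩ := exists_fun hC.bk_β ω₀
    obtain ⟨YB, hYB⟩ := exists_near hC.Y_bk
    have hβc := beta_const hMC hC.bk_β hC.g_β
    have hpos : ∀ i ≤ 2 * N - 1, ∀ w, 0 < q w → 0 < p (z i w) :=
      fun i hi w hw => (hMC.marg i hi).pos hq0 hw
    have hg : ∀ w, 0 < q w → ∀ a < N, g (z (2 * a) w) = g (z (2 * a + 1) w) :=
      fun w hw a ha => same_g hMC hw (by omega) (by omega)
    have hb : ∀ w, 0 < q w → ∀ a, a + 1 < N → bk (z (2 * a + 1) w) = bk (z (2 * a + 2) w) :=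
      fun w hw a ha => same_bk hMC hw (by omega) (by omega)
    set S : W → Fin N → ℤ := fun w a => tm (z (2 * a + 1) w) - tm (z (2 * a) w) with hS
    set S' : W → Fin N → ℤ := fun w a => if |S w a| ≤ 2 ^ m then S w a else 0 with hS'
    have hSS : ∀ w, 0 < q w → S' w = S w := by
      intro w hw
      funext a
      simp only [hS']
      rw [if_pos]
      exact hC.tm_g _ _ (hg w hw a a.2)
    set v : W → (Fin N → 𝒱) × B := fun w => ((fun a : Fin N => V (z (2 * a) w)), bk (z 0 w)) with hv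
    have hWLE := wle_thm Ω G B 𝔅 𝒱 W p g bk β V tm N q z (m * Real.log 2 - θ) θ hC.isLaw (by omega)
      hMC hC.bk_β hC.g_β hC.bk_tm hC.timeFull hC.indep
    have hCH : CH q S' v = CH q S v := by
      refine CH_congr hq0 ?_ ?_ (fun _ _ _ _ e => e) (fun _ _ _ _ e => e)
      · intro w w' hw hw' e
        rw [← hSS w hw, ← hSS w' hw']
        exact (Prod.ext_iff.mp e).1
      · intro w w' hw hw' e
        rw [hSS w hw, hSS w' hw']
        exact (Prod.ext_iff.mp e).1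
    exact by
     set Gd : W → Prop := fun w =>
       (∀ a : Fin N, Trn m C₀ (exp θ / 2 ^ U) bk β V tm Y E T bV (z (2 * a) w) (z (2 * a + 1) w)) ∧
       |hgt (z (2 * N - 1) w) -
         MvPolynomial.eval (Y (z (2 * N - 1) w)) (T (bk (z (2 * N - 1) w)))| ≤ exp θ / 2 ^ U ∧
       exp (-(n * θ)) / 2 ≤ |(Matrix.of fun k : Fin n => EV (V (z (2 * (N - n + k)) w))).det|
       with hGd
     have hGdp : Pb q (fun w => ¬ Gd w) ≤ τ' := by
       have h1 := trn_all hC hMC
       have h2 : Pb q (fun w => exp θ / 2 ^ U < |hgt (z (2 * N - 1) w) -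
           MvPolynomial.eval (Y (z (2 * N - 1) w)) (T (bk (z (2 * N - 1) w)))|) ≤ η := by
         have h3 := Pool.Agent.H67.BFL.Pb_marg (hMC.marg (2 * N - 1) le_rfl)
           (fun ω => exp θ / 2 ^ U < |hgt ω - MvPolynomial.eval (Y ω) (T (bk ω))|)
         rw [h3]
         exact hC.T_hgt
       have h4 := frame_det hSPN hC hMC hC₀ hbig (a₀ := N - n) (by omega)
       have h5 : Pb q (fun w => ¬ Gd w) ≤ N * η + (η + n * η) := by
         refine (Pb_mono hq0 ?_).trans (Pb_or_le hq0 h1 (Pb_or_le hq0 h2 h4))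
         intro w hw hnot
         by_contra hcon
         push Not at hcon
         exact hnot ⟨hcon.1, hcon.2.1, hcon.2.2⟩
       refine h5.trans ?_
       have h6 : (N + 1 + n) * η ≤ (N + 1 + n) * τ₁ :=
         mul_le_mul_of_nonneg_left hη1 (by positivity)
       nlinarith only [hτ', b1, h6]
     have key := hU' U m hUU' hUm (by
         refine hmU.trans ?_
         refine mul_le_mul_of_nonneg_right ?_ hU0
         have : (0 : ℝ) ≤ N := Nat.cast_nonneg N
         nlinarith only [hC₀', hNn, hn0, hC₀]) W ((Fin N → 𝒱) × B) 𝔅 q v (fun w => β (z 0 w)) S'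
       (fun x a => EV (x.1 a)) (fun x => QP (fun a => bV (x.1 a) (βB x.2)) (fun a => EV (x.1 a)))
       (fun x i => 2 ^ m * YB x.2 i) (fun w => yc (z (2 * N - 1) w))
       (fun x y => MvPolynomial.eval (fun i => (y i : ℝ) / 2 ^ m) (T x.2))
       (fun w => hgt (z (2 * N - 1) w)) Gd hq
       (by
         intro w w' hw hw' e
         exact hC.bk_β _ _ (hpos 0 (by omega) w hw) (hpos 0 (by omega) w' hw') (Prod.ext_iff.mp e).2)
       (by
         intro w a
         simp only [hS']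
         split_ifs with h
         · exact h
         · rw [abs_zero]
           positivity)
       (by
         rw [hCH]
         refine le_trans ?_ hWLE
         have h1 : (2 * N - 1) * θ ≤ (2 * N - 1) * (τ₁ * U) := by
           refine mul_le_mul_of_nonneg_left hθ1 ?_
           rw [hNn]
           linarith only [hn0]
         have h2 : (2 * N - 1) * τ₁ ≤ τ' := by nlinarith only [hτ', hτ₁0, b1]
         nlinarith only [hθ, hθ1, hθ2, h1, b1])
       (fun x a i => (hC.EV_le _ i).trans (by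
         have : (0 : ℝ) ≤ N := Nat.cast_nonneg N
         nlinarith only [hC₀', hNn, hn0, hC₀]))
       (fun x => (QP_degree (D := j - 1) (fun a => (hC.bV_hom _ _).totalDegree_le) _).trans
         (by omega))
       (fun x => by
         have h1 := (hCQ (fun a => bV (x.1 a) (βB x.2)) (fun a => EV (x.1 a)) (exp θ)
           (fun a i => hC.EV_le _ i) (fun a => (hC.bV_hom _ _).totalDegree_le) (exp_pos _).le
           (fun a => hC.bV_le _ _)).2.2
         refine CB_mono h1 ?_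
         have h2 := hU2 U hUU2
         have h3 : CQ ≤ exp (τ' / 2 * U) :=
           ((le_max_left _ _).trans (le_max_right _ _)).trans h2
         have h4 : exp θ ≤ exp (τ' / 2 * U) := Real.exp_le_exp.mpr hθ2
         calc CQ * exp θ ≤ exp (τ' / 2 * U) * exp (τ' / 2 * U) :=
               mul_le_mul h3 h4 (exp_pos _).le (exp_pos _).le
           _ = exp (τ' * U) := by
             rw [← Real.exp_add]
             congr 1
             ring)
       hGdp
       (by
         intro w hG hw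
         obtain ⟨g1, g2, g3⟩ := hG
         have hS1 := hSS w hw
         refine ⟨?_, ?_, ?_⟩
         · have h1 : exp (-(τ' * U)) ≤ exp (-(n * θ)) / 2 := by
             have h2 : (2 : ℝ) ≤ exp (τ' / 2 * U) :=
               ((le_max_right _ _).trans (le_max_right _ _)).trans (hU2 U hUU2)
             have h3 : exp (-(τ' * U)) * exp (τ' / 2 * U) ≤ exp (-(n * θ)) := by
               rw [← Real.exp_add]
               refine Real.exp_le_exp.mpr ?_
               linarith only [hnθ2]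
             have h4 : exp (-(τ' * U)) * 2 ≤ exp (-(τ' * U)) * exp (τ' / 2 * U) :=
               mul_le_mul_of_nonneg_left h2 (exp_pos _).le
             linarith only [h3, h4]
           refine h1.trans (g3.trans (le_of_eq ?_))
           unfold ldet
           rw [← Matrix.det_transpose]
           rfl
         · intro i
           have h1 := base_det (by omega) hC (fun i => z i w) (hg w hw) (hb w hw)
             (fun i hi => hpos i hi w hw) i
           have h2 := hYB (z 0 w) i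
           rw [hS1]
           have e : (yc (z (2 * N - 1) w) i : ℝ) - 2 ^ m * YB (v w).2 i -
               ∑ a, (S w a : ℝ) * EV ((v w).1 a) i =
               ((yc (z (2 * N - 1) w) i : ℝ) - 2 ^ m * Y (z 0 w) i -
                 ∑ a : Fin N, ((tm (z (2 * a + 1) w) - tm (z (2 * a) w) : ℤ) : ℝ) *
                   EV (V (z (2 * a) w)) i) - 2 ^ m * (YB (bk (z 0 w)) i - Y (z 0 w) i) := by
             simp only [hv, hS]
             ring
           rw [e]
           refine (abs_sub _ _).trans ?_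
           rw [abs_mul, abs_of_pos h2m]
           have h3 : 2 ^ m * |YB (bk (z 0 w)) i - Y (z 0 w) i| ≤ 2 ^ m * (C₀ / 2 ^ m) :=
             mul_le_mul_of_nonneg_left h2 h2m.le
           have h7 : (2 : ℝ) ^ m * (C₀ / 2 ^ m) = C₀ := by field_simp
           rw [h7] at h3
           linarith only [h1, h3]
         · have h1 := hA hC (fun i => z i w) (hg w hw) (hb w hw)
             (fun i hi => hpos i hi w hw) (hβc w hw) hθ (by
               have h3 := hU3 U hUU3
               rw [← e2U] at h3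
               linarith only [hUm', h3]) hUm (fun a ha => g1 ⟨a, ha⟩) g2
           have h2 : A * (exp θ / 2 ^ U) ≤ exp (τ' * U) / 2 ^ U := by
             have h3 : A ≤ exp (τ' / 2 * U) := (le_max_left _ _).trans (hU2 U hUU2)
             have h4 : exp θ ≤ exp (τ' / 2 * U) := Real.exp_le_exp.mpr hθ2
             have h5 : A * exp θ ≤ exp (τ' * U) := by
               calc A * exp θ ≤ exp (τ' / 2 * U) * exp (τ' / 2 * U) :=
                   mul_le_mul h3 h4 (exp_pos _).le (exp_pos _).le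
                 _ = exp (τ' * U) := by
                   rw [← Real.exp_add]
                   congr 1
                   ring
             rw [← mul_div_assoc]
             exact div_le_div_of_nonneg_right h5 h2U.le
           refine le_trans (le_of_eq ?_) (h1.trans h2)
           rw [hS1, QP_eval]
           simp only [hv, hS]
           rw [hβB _ (hpos 0 (by omega) w hw)])
       (by
         intro P₁ P₂ h12 h2U' w hw
         have hpw := hpos (2 * N - 1) le_rfl w hw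
         have h1 := hC.count P₁ P₂ h12 h2U' (z (2 * N - 1) w) hpw
         have h2 : exp ((1 - c) * ((P₂ : ℝ) - P₁) * Real.log 2 + θ) ≤
             exp ((1 - c) * ((P₂ : ℝ) - P₁) * Real.log 2 + τ' * U) := by
           refine Real.exp_le_exp.mpr ?_
           nlinarith only [hθ, hθ2]
         refine le_trans ?_ (h1.trans h2)
         have hfin : Set.Finite {k : ℤ | ∃ ω', 0 < p ω' ∧ β ω' = β (z (2 * N - 1) w) ∧
             yc ω' = yc (z (2 * N - 1) w) ∧
             ⌊(2 : ℝ) ^ P₁ * hgt ω'⌋ = ⌊(2 : ℝ) ^ P₁ * hgt (z (2 * N - 1) w)⌋ ∧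
             k = ⌊(2 : ℝ) ^ P₂ * hgt ω'⌋} := by
           refine (Set.finite_range (fun ω' : Ω => ⌊(2 : ℝ) ^ P₂ * hgt ω'⌋)).subset ?_
           rintro k ⟨ω', _, _, _, _, rfl⟩
           exact ⟨ω', rfl⟩
         have hsub : {k : ℤ | ∃ w', 0 < q w' ∧ β (z 0 w') = β (z 0 w) ∧
             yc (z (2 * N - 1) w') = yc (z (2 * N - 1) w) ∧
             ⌊(2 : ℝ) ^ P₁ * hgt (z (2 * N - 1) w')⌋ = ⌊(2 : ℝ) ^ P₁ * hgt (z (2 * N - 1) w)⌋ ∧
             k = ⌊(2 : ℝ) ^ P₂ * hgt (z (2 * N - 1) w')⌋} ⊆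
             {k : ℤ | ∃ ω', 0 < p ω' ∧ β ω' = β (z (2 * N - 1) w) ∧
             yc ω' = yc (z (2 * N - 1) w) ∧
             ⌊(2 : ℝ) ^ P₁ * hgt ω'⌋ = ⌊(2 : ℝ) ^ P₁ * hgt (z (2 * N - 1) w)⌋ ∧
             k = ⌊(2 : ℝ) ^ P₂ * hgt ω'⌋} := by
           rintro k ⟨w', hw', e1, e2, e3, rfl⟩
           refine ⟨z (2 * N - 1) w', hpos _ le_rfl w' hw', ?_, e2, e3, rfl⟩
           rw [← hβc w' hw' _ le_rfl, ← hβc w hw _ le_rfl]
           exact e1
         exact_mod_cast Set.ncard_le_ncard hsub hfin)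
     exact by
      refine (Pb_mono hq0 ?_).trans key
      intro w hw hKV
      have e : (fun a : Fin N => bV ((v w).1 a) (βB (v w).2)) =
          fun a : Fin N => bV (V (z (2 * a) w)) (β (z 0 w)) := by
        funext a
        simp only [hv]
        rw [hβB _ (hpos 0 (by omega) w hw)]
      have e2 : (fun σ => MvPolynomial.eval σ (QP (fun a => bV ((v w).1 a) (βB (v w).2))
          (fun a => EV ((v w).1 a)))) =
          Qw (fun a : Fin N => bV (V (z (2 * a) w)) (β (z 0 w)))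
            (fun a : Fin N => EV (V (z (2 * a) w))) := by
        funext σ
        rw [QP_eval, e]
      rw [e2]
      exact hKV

end Pool.Agent.H39.BFL
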