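import Pool.Agent.H39.BFL.Det

/-!
# The potentials of the frames of a closed walk
-/

set_option autoImplicit false

namespace Pool.Agent.H39.BFL

open Finset
open Pool.BFL

/-- The potential has bounded coefficients. -/
lemma pot_CB (n D : ℕ) (C₀ : ℝ) (hC₀ : 1 ≤ C₀) : ∃ C : ℝ, 1 ≤ C ∧
    ∀ (E : Fin n → Fin n → ℝ) (b : Fin n → Pl n) (κ r : ℝ), 0 < κ → κ ≤ |(Matrix.of E).det| →
      (∀ a i, |E a i| ≤ C₀) → (∀ a, (b a).IsHomogeneous D) → 0 ≤ r → (∀ a, CB (b a) r) →
      CB (pot D E b) (C * r / κ ^ (D + 1)) := by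
  obtain ⟨C1, hC11, hC1⟩ := qpol n n D C₀ hC₀
  obtain ⟨K, hK0, hK⟩ := Pool.Agent.H36.KBX.coef_bound n (D + 1)
  have hf : (0 : ℝ) < n.factorial := by exact_mod_cast Nat.factorial_pos n
  have hC : (0 : ℝ) < C₀ := by linarith
  set B : ℝ := 2 * (n + 1) * n.factorial * C₀ ^ (n + 1) with hB
  have hB0 : 0 < B := by positivity
  set A : ℝ := (Pool.Agent.H36.KBX.bx n (D + 1)).card * C1 with hA
  have hA0 : 0 ≤ A := by positivity
  refine ⟨1 + K * A * B ^ (D + 1), by
    have : 0 ≤ K * A * B ^ (D + 1) := by positivity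
    linarith, ?_⟩
  intro E b κ r hκ hdet hE hb hr hbr
  have hd0 : (Matrix.of E).det ≠ 0 := fun h => by
    rw [h, abs_zero] at hdet
    linarith
  have hrad := rad_pos (n := n) hκ hC₀
  have hκp : (0 : ℝ) < κ ^ (D + 1) := by positivity
  have hradp : rad n C₀ κ ^ (D + 1) = κ ^ (D + 1) / B ^ (D + 1) := by
    unfold rad
    rw [div_pow]
  obtain ⟨q1, q2, q3⟩ := hC1 b E r hE (fun a => (hb a).totalDegree_le) hr hbr
  have h1 : ∀ v : Fin n → ℝ, (∀ i, |v i| ≤ 1) →
      |MvPolynomial.eval v (pot D E b)| ≤ A * r * B ^ (D + 1) / κ ^ (D + 1) := by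
    intro v hv
    have hw : ∀ i, |rad n C₀ κ * v i| ≤ 2 * C₀ * rad n C₀ κ := by
      intro i
      rw [abs_mul, abs_of_pos hrad]
      have := hv i
      nlinarith [abs_nonneg (v i)]
    have hco := co_rad hκ hC₀ hE hdet _ hw
    have h2 := eval_smul_homog (pot_homog E b hb) (rad n C₀ κ) v
    rw [pot_eval E b (fun c => (hb c).totalDegree_le), ← Qw_eq, ← q1] at h2
    have h3 : |MvPolynomial.eval (co E fun i => rad n C₀ κ * v i) (QP b E)| ≤ A * r := by
      refine (Pool.Agent.H36.KBX.eval_bound (QP b E) q2 (C1 * r) 1 le_rfl q3 _ hco).trans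
        (le_of_eq ?_)
      rw [one_pow, hA]
      ring
    rw [h2, abs_mul, abs_pow, abs_of_pos hrad, hradp] at h3
    rw [le_div_iff₀ hκp]
    have hBp : (0 : ℝ) < B ^ (D + 1) := by positivity
    have e : |MvPolynomial.eval v (pot D E b)| * κ ^ (D + 1) =
        (κ ^ (D + 1) / B ^ (D + 1) * |MvPolynomial.eval v (pot D E b)|) * B ^ (D + 1) := by
      field_simp
    rw [e]
    exact mul_le_mul_of_nonneg_right h3 hBp.le
  intro k
  refine (hK _ _ (pot_homog E b hb).totalDegree_le h1 k).trans ?_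
  rw [mul_div_assoc', div_le_div_iff_of_pos_right hκp]
  have : 0 ≤ 1 * r := by linarith
  nlinarith

/-- The potentials of two frames agree. -/
lemma frames_CB (n N D : ℕ) (C₀ : ℝ) (hC₀ : 1 ≤ C₀) : ∃ C : ℝ, 1 ≤ C ∧
    ∀ (E : Fin N → Fin n → ℝ) (b : Fin N → Pl n) (ε κ : ℝ), 0 < κ → (∀ a i, |E a i| ≤ C₀) →
      (∀ a, (b a).IsHomogeneous D) → ¬ KV ε E (Qw b E) →
      ∀ g g' : Fin n → Fin N, StrictMono g → StrictMono g' →
      κ ≤ |(Matrix.of fun c => E (g c)).det| → κ ≤ |(Matrix.of fun c => E (g' c)).det| →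
      CB (pot D (fun c => E (g c)) (fun c => b (g c)) -
        pot D (fun c => E (g' c)) (fun c => b (g' c))) (C * ε / κ ^ (D + 1)) := by
  obtain ⟨C, hC1, hC⟩ := Pool.BFL.alg_thm n D C₀ hC₀
  obtain ⟨K, hK0, hK⟩ := Pool.Agent.H36.KBX.coef_bound n (D + 1)
  refine ⟨1 + K * C, by
    have : 0 ≤ K * C := by positivity
    linarith, ?_⟩
  intro E b ε κ hκ hE hb hKV g g' hg hg' hdet hdet'
  have hcl : Closed E b ε := by
    intro s s' hs hs' h
    by_contra hcon
    push Not at hcon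
    refine hKV ⟨s, s', hs, hs', fun i => congrFun h i, ?_⟩
    rw [Qw_eq, Qw_eq]
    exact hcon
  have hε0 : 0 ≤ ε := by
    have := hcl 0 0 (by simp) (by simp) rfl
    exact (abs_nonneg _).trans this
  obtain ⟨_, _, _, h4⟩ := hC N E b ε κ hκ hE hb hcl g hg hdet
  have hκp : (0 : ℝ) < κ ^ (D + 1) := by positivity
  have h5 : ∀ v : Fin n → ℝ, (∀ i, |v i| ≤ 1) →
      |MvPolynomial.eval v (pot D (fun c => E (g c)) (fun c => b (g c)) -
        pot D (fun c => E (g' c)) (fun c => b (g' c)))| ≤ C * ε / κ ^ (D + 1) := by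
    intro v hv
    rw [map_sub]
    exact h4 g' hg' hdet' v hv
  intro k
  refine (hK _ _ ((MvPolynomial.totalDegree_sub _ _).trans (max_le
    (pot_homog _ _ (fun c => hb (g c))).totalDegree_le
    (pot_homog _ _ (fun c => hb (g' c))).totalDegree_le)) h5 k).trans ?_
  rw [mul_div_assoc', div_le_div_iff_of_pos_right hκp]
  nlinarith

/-- The form of the first leg of a frame. -/
lemma first_leg {n D : ℕ} (hn : 0 < n) {E : Fin n → Fin n → ℝ} {b : Fin n → Pl n}
    (hE : (Matrix.of E).det ≠ 0) (hb : ∀ c, (b c).totalDegree ≤ D) :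
    b ⟨0, hn⟩ = dD (E ⟨0, hn⟩) (pot D E b) := by
  cases n with
  | zero => exact absurd hn (lt_irrefl 0)
  | succ n =>
    apply MvPolynomial.funext
    intro v
    have h1 := leg_first hE hb v
    rw [dd_eval] at h1
    rw [eval_dD]
    exact h1

/-- A large coefficient of a form gives a large coefficient of the gradient. -/
lemma exists_grad {n j : ℕ} (hj : 1 ≤ j) {G : Pl n} (hG : G.IsHomogeneous j) {t : ℝ} (ht : 0 ≤ t)
    (h : ¬ CB G t) : ∃ α : Fin n →₀ ℕ, ∃ i, t < |(MvPolynomial.pderiv i G).coeff α| := by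
  classical
  unfold CB at h
  push Not at h
  obtain ⟨γ, hγ⟩ := h
  have h1 : G.coeff γ ≠ 0 := by
    intro h0
    rw [h0, abs_zero] at hγ
    linarith
  have h2 : γ.degree = j := by
    by_contra hne
    exact h1 (hG.coeff_eq_zero hne)
  obtain ⟨i, hi⟩ : ∃ i, γ i ≠ 0 := by
    by_contra hcon
    push Not at hcon
    have : γ = 0 := Finsupp.ext hcon
    rw [this, map_zero] at h2
    omega
  refine ⟨γ - Finsupp.single i 1, i, ?_⟩
  have h3 : γ - Finsupp.single i 1 + Finsupp.single i 1 = γ := by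
    ext k
    by_cases hk : k = i
    · subst hk
      simp only [Finsupp.coe_add, Finsupp.coe_tsub, Pi.add_apply, Pi.sub_apply,
        Finsupp.single_eq_same]
      omega
    · simp only [Finsupp.coe_add, Finsupp.coe_tsub, Pi.add_apply, Pi.sub_apply,
        Finsupp.single_eq_of_ne hk]
      omega
  rw [MvPolynomial.coeff_pderiv, h3, abs_mul]
  have h4 : (1 : ℝ) ≤ |((γ - Finsupp.single i 1 : Fin n →₀ ℕ) i : ℝ) + 1| := by
    rw [abs_of_nonneg (by positivity)]
    have : (0 : ℝ) ≤ ((γ - Finsupp.single i 1 : Fin n →₀ ℕ) i : ℝ) := Nat.cast_nonneg _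
    linarith
  calc t < |G.coeff γ| := hγ
    _ = |G.coeff γ| * 1 := (mul_one _).symm
    _ ≤ _ := mul_le_mul_of_nonneg_left h4 (abs_nonneg _)

lemma coeff_dD {n : ℕ} (G : Pl n) (E : Fin n → ℝ) (α : Fin n →₀ ℕ) :
    (dD E G).coeff α = ∑ i, E i * (MvPolynomial.pderiv i G).coeff α := by
  unfold dD
  rw [MvPolynomial.coeff_sum]
  exact Finset.sum_congr rfl fun i _ => MvPolynomial.coeff_C_mul _ _ _

end Pool.Agent.H39.BFL
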