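import Pool.Agent.H39.BFL.Prob
import Pool.Agent.H39.BFL.Frames
import Pool.Agent.H64.BFL.VIS

/-!
# A polynomial computed from the legs before a block and from the legs after it
-/

set_option autoImplicit false

namespace Pool.Agent.H39.BFL

open Finset Real
open Pool.Agent.H49.Ent Pool.Agent.H32.Dense Pool.STK Pool.KS3 Pool.BFL

section

variable {Ω W : Type} [Fintype Ω] [Fintype W] {G B 𝔅 𝒱 : Type}
variable {p : Ω → ℝ} {g : Ω → G} {bk : Ω → B} {β : Ω → 𝔅} {V : Ω → 𝒱} {q : W → ℝ} {z : ℕ → W → Ω}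

/-- The variable `β` is constant along the walk. -/
lemma beta_const {M : ℕ} (hMC : MC p (alt g bk) M q z) (hbβ : Det p bk β) (hgβ : Det p g β) :
    ∀ w, 0 < q w → ∀ i ≤ M, β (z 0 w) = β (z i w) := by
  have hq0 := hMC.isLaw.nonneg
  have hpos : ∀ i ≤ M, ∀ w, 0 < q w → 0 < p (z i w) :=
    fun i hi w hw => (hMC.marg i hi).pos hq0 hw
  have hβ1 : ∀ w, 0 < q w → ∀ i < M, β (z i w) = β (z (i + 1) w) := by
    intro w hw i hi
    have h1 := hMC.same w hw i hi
    have p1 := hpos i hi.le w hw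
    have p2 := hpos (i + 1) hi w hw
    unfold alt at h1
    split_ifs at h1 with he
    · exact hgβ _ _ p1 p2 (Sum.inl_injective h1)
    · exact hbβ _ _ p1 p2 (Sum.inr_injective h1)
  intro w hw i
  induction i with
  | zero => intro _; rfl
  | succ i ih =>
    intro hi
    rw [ih (by omega), hβ1 w hw i (by omega)]

/-- The labels of consecutive points. -/
lemma same_g {M : ℕ} (hMC : MC p (alt g bk) M q z) {w : W} (hw : 0 < q w) {i : ℕ} (hi : i < M)
    (he : i % 2 = 0) : g (z i w) = g (z (i + 1) w) := by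
  have h1 := hMC.same w hw i hi
  unfold alt at h1
  rw [if_pos he, if_pos he] at h1
  exact Sum.inl_injective h1

lemma same_bk {M : ℕ} (hMC : MC p (alt g bk) M q z) {w : W} (hw : 0 < q w) {i : ℕ} (hi : i < M)
    (he : ¬ i % 2 = 0) : bk (z i w) = bk (z (i + 1) w) := by
  have h1 := hMC.same w hw i hi
  unfold alt at h1
  rw [if_neg he, if_neg he] at h1
  exact Sum.inr_injective h1

open Classical in
/-- Visibility. -/
lemma vis_lem {N n j : ℕ} (hMC : MC p (alt g bk) (2 * N - 1) q z) (hbβ : Det p bk β)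
    (hgβ : Det p g β) (hn : 1 ≤ n) {a₀ : ℕ} (ha : a₀ + 2 * n ≤ N)
    (F : (Fin n → 𝒱) → 𝔅 → Pl n) (hF : ∀ vs x, (F vs x).totalDegree ≤ j) {t η : ℝ} (ht : 0 ≤ t)
    (h : Pb q (fun w => ¬ CB (F (fun k => V (z (2 * (a₀ + k)) w)) (β (z 0 w)) -
      F (fun k => V (z (2 * (a₀ + n + k)) w)) (β (z 0 w))) t) ≤ η) :
    ∃ Hf : B → Pl n, (∀ x, ∃ vs y, Hf x = F vs y) ∧
      Pb q (fun w => ¬ CB (F (fun k => V (z (2 * (a₀ + k)) w)) (β (z 0 w)) -
        Hf (bk (z (2 * (a₀ + n)) w))) t) ≤ η := by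
  have hq0 := hMC.isLaw.nonneg
  obtain ⟨i, hi⟩ : ∃ i, i + 1 = 2 * (a₀ + n) := ⟨2 * (a₀ + n) - 1, by omega⟩
  have hiM : i < 2 * N - 1 := by omega
  have hio : ¬ i % 2 = 0 := by omega
  set X : W → (Pool.Agent.H36.KBX.bx n j) → ℝ := fun w α =>
    (F (fun k => V (z (2 * (a₀ + k)) w)) (β (z i w))).coeff α with hX
  set Y : W → (Pool.Agent.H36.KBX.bx n j) → ℝ := fun w α =>
    (F (fun k => V (z (2 * (a₀ + n + k)) w)) (β (z (i + 1) w))).coeff α with hY
  have hβ := beta_const hMC hbβ hgβ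
  have hci := hMC.markov i hiM
  have hci1 : CI q Y (fun w (k : Fin (i + 1)) => z k w) (fun w => alt g bk i (z i w)) := by
    refine hci.mono_left hq0 ?_
    intro w w' _ _ e
    have e1 := (Prod.ext_iff.mp e).1
    have e2 : ∀ k < 2 * N - 1 - i, z (i + 1 + k) w = z (i + 1 + k) w' := fun k hk =>
      congrFun e1 ⟨k, hk⟩
    simp only [hY]
    funext α
    have e3 : (fun k : Fin n => V (z (2 * (a₀ + n + k)) w)) =
        fun k : Fin n => V (z (2 * (a₀ + n + k)) w') := by
      funext k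
      have hk := k.2
      have e4 := e2 (2 * k) (by omega)
      have e5 : i + 1 + 2 * (k : ℕ) = 2 * (a₀ + n + k) := by omega
      rw [e5] at e4
      rw [e4]
    have e6 : z (i + 1) w = z (i + 1) w' := by
      have := e2 0 (by omega)
      simpa using this
    rw [e3, e6]
  have hci2 : CI q Y X (fun w => alt g bk i (z i w)) := by
    refine hci1.mono_right hq0 ?_
    intro w w' _ _ e
    have e1 := (Prod.ext_iff.mp e).1
    have e2 : ∀ k < i + 1, z k w = z k w' := fun k hk => congrFun e1 ⟨k, hk⟩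
    simp only [hX]
    funext α
    have e3 : (fun k : Fin n => V (z (2 * (a₀ + k)) w)) =
        fun k : Fin n => V (z (2 * (a₀ + k)) w') := by
      funext k
      have hk := k.2
      rw [e2 (2 * (a₀ + k)) (by omega)]
    rw [e3, e2 i (by omega)]
  have hci3 : CI q Y X (fun w => bk (z i w)) := by
    refine hci2.congr hq0 ?_ ?_
    · intro w w' _ _ e
      dsimp only at e ⊢
      unfold alt at e
      rw [if_neg hio, if_neg hio] at e
      exact Sum.inr_injective e
    · intro w w' _ _ e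
      dsimp only at e ⊢
      unfold alt
      rw [if_neg hio, if_neg hio, e]
  have hci4 : CI q X Y (fun w => bk (z i w)) := hci3.symm hq0
  have hXY : Pb q (fun w => ∃ α, t < |X w α - Y w α|) ≤ η := by
    refine (Pb_mono hq0 ?_).trans h
    intro w hw hex hCB
    obtain ⟨α, hα⟩ := hex
    have h1 := hCB α
    rw [MvPolynomial.coeff_sub] at h1
    simp only [hX, hY] at hα
    rw [← hβ w hw i hiM.le, ← hβ w hw (i + 1) hiM] at hα
    linarith
  obtain ⟨hh, hh1, hh2⟩ := vis_thm (Pool.Agent.H36.KBX.bx n j) W B q X Y (fun w => bk (z i w)) t η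
    hMC.isLaw hci4 hXY
  choose wf hwf using hh1
  refine ⟨fun x => F (fun k => V (z (2 * (a₀ + n + k)) (wf x))) (β (z (i + 1) (wf x))),
    fun x => ⟨_, _, rfl⟩, ?_⟩
  refine (Pb_mono hq0 ?_).trans hh2
  intro w hw hCB
  by_contra hcon
  push Not at hcon
  refine hCB ?_
  intro α
  have hbk : bk (z i w) = bk (z (2 * (a₀ + n)) w) := by
    rw [same_bk hMC hw hiM hio, hi]
  rw [MvPolynomial.coeff_sub]
  by_cases hα : α ∈ Pool.Agent.H36.KBX.bx n j
  · have h1 := hcon ⟨α, hα⟩
    rw [hwf] at h1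
    simp only [hX, hY] at h1
    rw [← hβ w hw i hiM.le, hbk] at h1
    exact h1
  · have h2 : ∀ vs x, (F vs x).coeff α = 0 := by
      intro vs x
      by_contra hne
      exact hα (Pool.Agent.H36.KBX.support_bx _ (hF vs x) (MvPolynomial.mem_support_iff.mpr hne))
    rw [h2, h2, sub_zero, abs_zero]
    exact ht

end

end Pool.Agent.H39.BFL
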