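import Pool.Agent.H39.BFL.Pot

/-!
# Closed jets: the quantitative theorem
-/

set_option autoImplicit false

namespace Pool.BFL

open Finset Polynomial

/-! ### Coefficients of a small polynomial -/

lemma coeff_bd0 (d : ℕ) : ∃ A : ℝ, 1 ≤ A ∧ ∀ (p : ℝ[X]), p.natDegree ≤ d → ∀ ε : ℝ,
    (∀ x, |x| ≤ 1 → |p.eval x| ≤ ε) → ∀ m, |p.coeff m| ≤ A * ε := by
  classical
  set x : Fin (d + 1) → ℝ := fun i => (i : ℝ) / (d + 1) with hx
  have hd : (0 : ℝ) < (d : ℝ) + 1 := by positivity
  have hinj : Function.Injective x := by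
    intro i i' h
    simp only [hx] at h
    rw [div_left_inj' hd.ne'] at h
    exact Fin.ext (by exact_mod_cast h)
  have hx1 : ∀ i, |x i| ≤ 1 := by
    intro i
    simp only [hx]
    rw [abs_of_nonneg (by positivity), div_le_one hd]
    have : (i : ℕ) < d + 1 := i.2
    have h2 : ((i : ℕ) : ℝ) < ((d + 1 : ℕ) : ℝ) := by exact_mod_cast this
    push_cast at h2
    exact h2.le
  set V := Matrix.vandermonde x with hV
  have hdet : V.det ≠ 0 := Matrix.det_vandermonde_ne_zero_iff.mpr hinj
  have hu : IsUnit V.det := isUnit_iff_ne_zero.2 hdet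
  refine ⟨1 + ∑ m, ∑ i, |V⁻¹ m i|, ?_, ?_⟩
  · have : 0 ≤ ∑ m, ∑ i, |V⁻¹ m i| :=
      Finset.sum_nonneg fun m _ => Finset.sum_nonneg fun i _ => abs_nonneg _
    linarith
  · intro p hp ε hε m
    have hε0 : 0 ≤ ε := (abs_nonneg _).trans (hε 0 (by simp))
    have hS0 : 0 ≤ ∑ m, ∑ i, |V⁻¹ m i| :=
      Finset.sum_nonneg fun m _ => Finset.sum_nonneg fun i _ => abs_nonneg _
    by_cases hm : m < d + 1
    · have h1 : V.mulVec (fun m => p.coeff m) = fun i => p.eval (x i) := by
        funext i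
        rw [Polynomial.eval_eq_sum_range' (n := d + 1) (by omega)]
        show ∑ m, V i m * p.coeff m = _
        rw [← Fin.sum_univ_eq_sum_range (fun m => p.coeff m * x i ^ m) (d + 1)]
        refine Finset.sum_congr rfl fun m _ => ?_
        rw [hV, Matrix.vandermonde_apply, mul_comm]
      have h2 : (fun m : Fin (d + 1) => p.coeff m) = V⁻¹.mulVec (fun i => p.eval (x i)) := by
        rw [← h1, Matrix.mulVec_mulVec, Matrix.nonsing_inv_mul _ hu, Matrix.one_mulVec]
      have h3 : p.coeff m = ∑ i, V⁻¹ ⟨m, hm⟩ i * p.eval (x i) := congrFun h2 ⟨m, hm⟩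
      rw [h3]
      refine (Finset.abs_sum_le_sum_abs _ _).trans ?_
      have h4 : ∑ i, |V⁻¹ ⟨m, hm⟩ i * p.eval (x i)| ≤ ∑ i, |V⁻¹ ⟨m, hm⟩ i| * ε := by
        refine Finset.sum_le_sum fun i _ => ?_
        rw [abs_mul]
        exact mul_le_mul_of_nonneg_left (hε _ (hx1 i)) (abs_nonneg _)
      refine h4.trans ?_
      rw [← Finset.sum_mul]
      refine mul_le_mul_of_nonneg_right ?_ hε0
      have h5 : ∑ i, |V⁻¹ ⟨m, hm⟩ i| ≤ ∑ m, ∑ i, |V⁻¹ m i| :=
        Finset.single_le_sum (f := fun m => ∑ i, |V⁻¹ m i|)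
          (fun m _ => Finset.sum_nonneg fun i _ => abs_nonneg _) (Finset.mem_univ _)
      linarith
    · rw [Polynomial.coeff_eq_zero_of_natDegree_lt (by omega), abs_zero]
      exact mul_nonneg (by linarith) hε0

lemma coeff_bd (d : ℕ) : ∃ A : ℝ, 1 ≤ A ∧ ∀ (p : ℝ[X]), p.natDegree ≤ d → ∀ ε r : ℝ, 0 < r →
    (∀ x, |x| ≤ r → |p.eval x| ≤ ε) → ∀ m, |p.coeff m| * r ^ m ≤ A * ε := by
  obtain ⟨A, hA1, hA⟩ := coeff_bd0 d
  refine ⟨A, hA1, ?_⟩
  intro p hp ε r hr hε m
  have h1 := hA (p.comp (Polynomial.C r * Polynomial.X)) (by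
    refine (Polynomial.natDegree_comp_le).trans ?_
    have : (Polynomial.C r * Polynomial.X : ℝ[X]).natDegree ≤ 1 :=
      (Polynomial.natDegree_C_mul_le _ _).trans Polynomial.natDegree_X_le
    calc p.natDegree * (Polynomial.C r * Polynomial.X : ℝ[X]).natDegree ≤ p.natDegree * 1 :=
          Nat.mul_le_mul_left _ this
      _ ≤ d := by omega) ε (fun x hx => by
    rw [Polynomial.eval_comp]
    refine hε _ ?_
    simp only [Polynomial.eval_mul, Polynomial.eval_C, Polynomial.eval_X]
    rw [abs_mul, abs_of_pos hr]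
    nlinarith [abs_nonneg x]) m
  rw [Polynomial.comp_C_mul_X_coeff, abs_mul, abs_pow, abs_of_pos hr] at h1
  exact h1

/-! ### The inverse of the frame -/

lemma co_bd {n : ℕ} {E : Fin n → Fin n → ℝ} {κ C0 : ℝ} (hκ : 0 < κ) (hC0 : 1 ≤ C0)
    (hE : ∀ c i, |E c i| ≤ C0) (hdet : κ ≤ |(Matrix.of E).det|) (v : Fin n → ℝ) (r : ℝ)
    (hr : 0 ≤ r) (hv : ∀ i, |v i| ≤ r) (c : Fin n) :
    |co E v c| ≤ n * (n.factorial * C0 ^ n / κ) * r := by
  classical
  have hinv : ∀ i c, |(Matrix.of E)⁻¹ i c| ≤ n.factorial * C0 ^ n / κ := by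
    intro i c
    rw [Matrix.inv_def, Matrix.smul_apply, smul_eq_mul, abs_mul, Ring.inverse_eq_inv', abs_inv,
      Matrix.adjugate_apply]
    have h1 : |((Matrix.of E).updateRow c (Pi.single i 1)).det| ≤ n.factorial * C0 ^ n := by
      have h2 := Matrix.det_le (A := (Matrix.of E).updateRow c (Pi.single i 1)) (n := Fin n)
        (abv := AbsoluteValue.abs) (x := C0) (fun a b => by
          show |((Matrix.of E).updateRow c (Pi.single i 1)) a b| ≤ C0
          rw [Matrix.updateRow_apply]
          split_ifs with h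
          · by_cases hb : b = i
            · subst hb
              rw [Pi.single_eq_same, abs_one]
              exact hC0
            · rw [Pi.single_eq_of_ne hb, abs_zero]
              linarith
          · exact hE a b)
      rw [Fintype.card_fin, nsmul_eq_mul] at h2
      exact h2
    have h3 : |(Matrix.of E).det|⁻¹ ≤ κ⁻¹ := inv_anti₀ hκ hdet
    calc |(Matrix.of E).det|⁻¹ * |((Matrix.of E).updateRow c (Pi.single i 1)).det| ≤
        κ⁻¹ * (n.factorial * C0 ^ n) := mul_le_mul h3 h1 (abs_nonneg _) (by positivity)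
      _ = n.factorial * C0 ^ n / κ := by
        rw [div_eq_mul_inv]
        ring
  unfold co
  refine (Finset.abs_sum_le_sum_abs _ _).trans ?_
  have h1 : ∀ i ∈ (univ : Finset (Fin n)), |v i * (Matrix.of E)⁻¹ i c| ≤
      r * (n.factorial * C0 ^ n / κ) := by
    intro i _
    rw [abs_mul]
    exact mul_le_mul (hv i) (hinv i c) (abs_nonneg _) hr
  refine (Finset.sum_le_card_nsmul _ _ _ h1).trans ?_
  rw [Finset.card_univ, Fintype.card_fin, nsmul_eq_mul]
  linarith [mul_comm (r * ((n.factorial : ℝ) * C0 ^ n / κ)) (n : ℝ)]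

/-! ### Closed heights -/

/-- The height is a function of the displacement, up to `ε`, for legs of length `≤ 1`. -/
def Closed {n N : ℕ} (E : Fin N → Fin n → ℝ) (b : Fin N → MvPolynomial (Fin n) ℝ) (ε : ℝ) : Prop :=
  ∀ s s' : Fin N → ℝ, (∀ a, |s a| ≤ 1) → (∀ a, |s' a| ≤ 1) → dsp E s = dsp E s' →
    |QQ E b s - QQ E b s'| ≤ ε

lemma closed_sub {n N m m' : ℕ} {E : Fin N → Fin n → ℝ} {b : Fin N → MvPolynomial (Fin n) ℝ}
    {ε : ℝ} (hcl : Closed E b ε) {g : Fin m → Fin N} (hg : StrictMono g) {g' : Fin m' → Fin N}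
    (hg' : StrictMono g') (u : Fin m → ℝ) (u' : Fin m' → ℝ) (hu : ∀ c, |u c| ≤ 1)
    (hu' : ∀ c, |u' c| ≤ 1) (h : dsp (fun c => E (g c)) u = dsp (fun c => E (g' c)) u') :
    |QQ (fun c => E (g c)) (fun c => b (g c)) u - QQ (fun c => E (g' c)) (fun c => b (g' c)) u'| ≤
      ε := by
  classical
  have key : ∀ {m : ℕ} {g : Fin m → Fin N} (_ : StrictMono g) (u : Fin m → ℝ)
      (_ : ∀ c, |u c| ≤ 1), ∃ s : Fin N → ℝ, (∀ a, |s a| ≤ 1) ∧
        dsp E s = dsp (fun c => E (g c)) u ∧
        QQ E b s = QQ (fun c => E (g c)) (fun c => b (g c)) u := by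
    intro m g hg u hu
    refine ⟨Function.extend g u 0, ?_, ?_, ?_⟩
    · intro a
      by_cases ha : ∃ c, g c = a
      · obtain ⟨c, rfl⟩ := ha
        rw [hg.injective.extend_apply]
        exact hu c
      · rw [Function.extend_apply' _ _ _ ha, Pi.zero_apply, abs_zero]
        exact zero_le_one
    · have hz : ∀ a, (∀ c, g c ≠ a) → Function.extend g u 0 a = 0 := by
        intro a ha
        rw [Function.extend_apply' _ _ _ (fun ⟨c, hc⟩ => ha c hc)]
        rfl
      rw [dsp_sub E g hg _ hz]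
      congr 1
      funext c
      exact hg.injective.extend_apply _ _ _
    · have hz : ∀ a, (∀ c, g c ≠ a) → Function.extend g u 0 a = 0 := by
        intro a ha
        rw [Function.extend_apply' _ _ _ (fun ⟨c, hc⟩ => ha c hc)]
        rfl
      rw [QQ_sub E b g hg _ hz]
      congr 1
      funext c
      exact hg.injective.extend_apply _ _ _
  obtain ⟨s, hs1, hs2, hs3⟩ := key hg u hu
  obtain ⟨s', hs1', hs2', hs3'⟩ := key hg' u' hu'
  rw [← hs3, ← hs3']
  exact hcl s s' hs1 hs1' (by rw [hs2, hs2', h])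

/-- The radius on which the frame coordinates are at most one. -/
noncomputable def rad (n : ℕ) (C0 κ : ℝ) : ℝ := κ / (2 * (n + 1) * n.factorial * C0 ^ (n + 1))

lemma rad_pos {n : ℕ} {C0 κ : ℝ} (hκ : 0 < κ) (hC0 : 1 ≤ C0) : 0 < rad n C0 κ := by
  unfold rad
  have : (0 : ℝ) < n.factorial := by exact_mod_cast Nat.factorial_pos n
  have : (0 : ℝ) < C0 := by linarith
  positivity

lemma rad_le_one {n : ℕ} {E : Fin n → Fin n → ℝ} {κ C0 : ℝ} (hC0 : 1 ≤ C0)
    (hE : ∀ c i, |E c i| ≤ C0) (hdet : κ ≤ |(Matrix.of E).det|) : rad n C0 κ ≤ 1 := by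
  have h2 := Matrix.det_le (A := Matrix.of E) (n := Fin n)
    (abv := AbsoluteValue.abs) (x := C0) (fun a b => hE a b)
  rw [Fintype.card_fin, nsmul_eq_mul] at h2
  have h3 : κ ≤ n.factorial * C0 ^ n := hdet.trans h2
  have hf : (0 : ℝ) < n.factorial := by exact_mod_cast Nat.factorial_pos n
  have hC : (0 : ℝ) < C0 := by linarith
  unfold rad
  rw [div_le_one (by positivity)]
  have h4 : (n.factorial : ℝ) * C0 ^ n ≤ n.factorial * C0 ^ (n + 1) :=
    mul_le_mul_of_nonneg_left (pow_le_pow_right₀ hC0 (by omega)) hf.le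
  have h5 : (n.factorial : ℝ) * C0 ^ (n + 1) ≤ 2 * (n + 1) * n.factorial * C0 ^ (n + 1) := by
    have h6 : (1 : ℝ) ≤ 2 * (n + 1) := by
      have : (0 : ℝ) ≤ n := Nat.cast_nonneg n
      linarith
    have h7 : (0 : ℝ) ≤ n.factorial * C0 ^ (n + 1) := by positivity
    nlinarith
  linarith

lemma co_rad {n : ℕ} {E : Fin n → Fin n → ℝ} {κ C0 : ℝ} (hκ : 0 < κ) (hC0 : 1 ≤ C0)
    (hE : ∀ c i, |E c i| ≤ C0) (hdet : κ ≤ |(Matrix.of E).det|) (v : Fin n → ℝ)
    (hv : ∀ i, |v i| ≤ 2 * C0 * rad n C0 κ) (c : Fin n) : |co E v c| ≤ 1 := by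
  have hr := rad_pos (n := n) hκ hC0
  have hC : (0 : ℝ) < C0 := by linarith
  have hf : (0 : ℝ) < n.factorial := by exact_mod_cast Nat.factorial_pos n
  refine (co_bd hκ hC0 hE hdet v _ (by positivity) hv c).trans ?_
  have e : (n : ℝ) * (n.factorial * C0 ^ n / κ) * (2 * C0 * rad n C0 κ) = n / (n + 1) := by
    unfold rad
    rw [pow_succ]
    field_simp
  rw [e, div_le_one (by positivity)]
  linarith

/-- **Independence of the frame.** -/
theorem frame_frame {n N D : ℕ} {E : Fin N → Fin n → ℝ} {b : Fin N → MvPolynomial (Fin n) ℝ}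
    {ε κ C0 : ℝ} (hκ : 0 < κ) (hC0 : 1 ≤ C0) (hE : ∀ a i, |E a i| ≤ C0)
    (hb : ∀ a, (b a).IsHomogeneous D) (hcl : Closed E b ε)
    {g g' : Fin n → Fin N} (hg : StrictMono g) (hg' : StrictMono g')
    (hdet : κ ≤ |(Matrix.of fun c => E (g c)).det|)
    (hdet' : κ ≤ |(Matrix.of fun c => E (g' c)).det|) (v : Fin n → ℝ) (hv : ∀ i, |v i| ≤ 1) :
    |MvPolynomial.eval v (pot D (fun c => E (g c)) (fun c => b (g c))) -
      MvPolynomial.eval v (pot D (fun c => E (g' c)) (fun c => b (g' c)))| ≤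
      ε / rad n C0 κ ^ (D + 1) := by
  have hr := rad_pos (n := n) hκ hC0
  have hd0 : (Matrix.of fun c => E (g c)).det ≠ 0 := fun h => by
    rw [h, abs_zero] at hdet
    linarith
  have hd0' : (Matrix.of fun c => E (g' c)).det ≠ 0 := fun h => by
    rw [h, abs_zero] at hdet'
    linarith
  have key : ∀ w : Fin n → ℝ, (∀ i, |w i| ≤ rad n C0 κ) →
      |MvPolynomial.eval w (pot D (fun c => E (g c)) (fun c => b (g c))) -
        MvPolynomial.eval w (pot D (fun c => E (g' c)) (fun c => b (g' c)))| ≤ ε := by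
    intro w hw
    have hw2 : ∀ i, |w i| ≤ 2 * C0 * rad n C0 κ := fun i => (hw i).trans (by nlinarith)
    rw [pot_eval _ _ (fun c => (hb (g c)).totalDegree_le),
      pot_eval _ _ (fun c => (hb (g' c)).totalDegree_le)]
    refine closed_sub hcl hg hg' _ _ (co_rad hκ hC0 (fun c i => hE (g c) i) hdet w hw2)
      (co_rad hκ hC0 (fun c i => hE (g' c) i) hdet' w hw2) ?_
    rw [dsp_co hd0, dsp_co hd0']
  have h1 := key (fun i => rad n C0 κ * v i) (fun i => by
    rw [abs_mul, abs_of_pos hr]
    have := hv i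
    nlinarith [abs_nonneg (v i)])
  rw [eval_smul_homog (pot_homog _ _ (fun c => hb (g c))),
    eval_smul_homog (pot_homog _ _ (fun c => hb (g' c))), ← mul_sub, abs_mul, abs_pow,
    abs_of_pos hr] at h1
  rw [le_div_iff₀ (by positivity)]
  linarith [mul_comm (rad n C0 κ ^ (D + 1)) (|MvPolynomial.eval v
    (pot D (fun c => E (g c)) (fun c => b (g c))) -
      MvPolynomial.eval v (pot D (fun c => E (g' c)) (fun c => b (g' c)))|)]

/-- The derivative of a form along a vector. -/
noncomputable def dd {n : ℕ} (φ : MvPolynomial (Fin n) ℝ) (E : Fin n → ℝ) :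
    MvPolynomial (Fin n) ℝ :=
  ∑ i, MvPolynomial.C (E i) * MvPolynomial.pderiv i φ

lemma dd_eval {n : ℕ} (φ : MvPolynomial (Fin n) ℝ) (E v : Fin n → ℝ) :
    MvPolynomial.eval v (dd φ E) = ∑ i, E i * MvPolynomial.eval v (MvPolynomial.pderiv i φ) := by
  unfold dd
  rw [map_sum]
  refine Finset.sum_congr rfl fun i _ => ?_
  rw [map_mul, MvPolynomial.eval_C]

lemma dd_homog {n D : ℕ} {φ : MvPolynomial (Fin n) ℝ} (hφ : φ.IsHomogeneous (D + 1))
    (E : Fin n → ℝ) : (dd φ E).IsHomogeneous D := by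
  unfold dd
  refine MvPolynomial.IsHomogeneous.sum _ _ _ fun i _ => ?_
  have h1 := (MvPolynomial.isHomogeneous_C (Fin n) (E i)).mul (hφ.pderiv (i := i))
  rw [Nat.zero_add, Nat.add_sub_cancel] at h1
  exact h1

lemma ln_coeff_zero {n : ℕ} (b : MvPolynomial (Fin n) ℝ) (w E : Fin n → ℝ) :
    (ln b w E).coeff 0 = MvPolynomial.eval w b := by
  rw [Polynomial.coeff_zero_eq_eval_zero, ln_eval]
  refine congrArg (fun y => MvPolynomial.eval y b) ?_
  funext i
  ring

/-- **The forms are the derivatives of the potential.** -/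
theorem leg_frame (n D : ℕ) : ∃ A : ℝ, 1 ≤ A ∧ ∀ (N : ℕ) (E : Fin N → Fin n → ℝ)
    (b : Fin N → MvPolynomial (Fin n) ℝ) (ε κ C0 : ℝ), 0 < κ → 1 ≤ C0 → (∀ a i, |E a i| ≤ C0) →
    (∀ a, (b a).IsHomogeneous D) → Closed E b ε → ∀ g : Fin n → Fin N, StrictMono g →
    κ ≤ |(Matrix.of fun c => E (g c)).det| → ∀ a : Fin N, (∀ c, a < g c) →
    ∀ v : Fin n → ℝ, (∀ i, |v i| ≤ 1) →
    |MvPolynomial.eval v (b a) -
      MvPolynomial.eval v (dd (pot D (fun c => E (g c)) (fun c => b (g c))) (E a))| ≤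
      A * ε / rad n C0 κ ^ (D + 1) := by
  obtain ⟨A, hA1, hA⟩ := coeff_bd (D + 1)
  refine ⟨A, hA1, ?_⟩
  intro N E b ε κ C0 hκ hC0 hE hb hcl g hg hdet a ha v hv
  have hr := rad_pos (n := n) hκ hC0
  have hr1 : rad n C0 κ ≤ 1 := rad_le_one hC0 (fun c i => hE (g c) i) hdet
  have hd0 : (Matrix.of fun c => E (g c)).det ≠ 0 := fun h => by
    rw [h, abs_zero] at hdet
    linarith
  set φ := pot D (fun c => E (g c)) (fun c => b (g c)) with hφ
  have hφh : φ.IsHomogeneous (D + 1) := pot_homog _ _ (fun c => hb (g c))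
  -- small vectors
  have key : ∀ w : Fin n → ℝ, (∀ i, |w i| ≤ rad n C0 κ) →
      |MvPolynomial.eval w (b a) - MvPolynomial.eval w (dd φ (E a))| * rad n C0 κ ≤ A * ε := by
    intro w hw
    set p : ℝ[X] := pm (ln (b a) w (E a)) + Polynomial.C (MvPolynomial.eval w φ) -
      ln φ w (E a) with hp
    have hpd : p.natDegree ≤ D + 1 := by
      refine (Polynomial.natDegree_sub_le _ _).trans (max_le ?_ ?_)
      · refine (Polynomial.natDegree_add_le _ _).trans (max_le ?_ ?_)
        · exact pm_natDegree (ln_natDegree (hb a).totalDegree_le _ _)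
        · rw [Polynomial.natDegree_C]
          exact Nat.zero_le _
      · exact ln_natDegree hφh.totalDegree_le _ _
    have hpe : ∀ h : ℝ, |h| ≤ rad n C0 κ → |p.eval h| ≤ ε := by
      intro h hh
      have hw2 : ∀ i, |w i| ≤ 2 * C0 * rad n C0 κ := fun i => (hw i).trans (by nlinarith)
      have hw3 : ∀ i, |w i + E a i * h| ≤ 2 * C0 * rad n C0 κ := by
        intro i
        refine (abs_add_le _ _).trans ?_
        rw [abs_mul]
        have h1 := hw i
        have h2 := hE a i
        have h3 : |E a i| * |h| ≤ C0 * rad n C0 κ :=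
          mul_le_mul h2 hh (abs_nonneg _) (by linarith)
        nlinarith
      set g1 : Fin (n + 1) → Fin N := Fin.cons a g with hg1
      have hg1m : StrictMono g1 := by
        rw [Fin.strictMono_iff_lt_succ]
        intro i
        rcases Nat.eq_zero_or_pos n with hn | hn
        · subst hn
          exact i.elim0
        · by_cases hi : (i : ℕ) = 0
          · have e1 : i.castSucc = 0 := Fin.ext hi
            rw [e1, hg1, Fin.cons_zero, Fin.cons_succ]
            exact ha i
          · have e1 : i.castSucc = Fin.succ ⟨(i : ℕ) - 1, by omega⟩ := by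
              apply Fin.ext
              simp only [Fin.val_castSucc, Fin.val_succ]
              omega
            rw [e1, hg1, Fin.cons_succ, Fin.cons_succ]
            refine hg ?_
            rw [Fin.lt_def]
            simp only
            omega
      set u1 : Fin (n + 1) → ℝ := Fin.cons h (co (fun c => E (g c)) w) with hu1
      have hcw := co_rad hκ hC0 (fun c i => hE (g c) i) hdet w hw2
      have hcw' := co_rad hκ hC0 (fun c i => hE (g c) i) hdet _ hw3
      have hu1b : ∀ c, |u1 c| ≤ 1 := by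
        intro c
        refine Fin.cases ?_ (fun c => ?_) c
        · rw [hu1, Fin.cons_zero]
          exact hh.trans hr1
        · rw [hu1, Fin.cons_succ]
          exact hcw c
      have hds : dsp (fun c => E (g1 c)) u1 =
          dsp (fun c => E (g c)) (co (fun c => E (g c)) (fun i => w i + E a i * h)) := by
        rw [dsp_co hd0]
        have h2 := dsp_co hd0 w
        funext i
        have h3 := congrFun h2 i
        unfold dsp at h3 ⊢
        rw [Fin.sum_univ_succ, hg1, hu1]
        simp only [Fin.cons_zero, Fin.cons_succ]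
        rw [h3]
        ring
      have h4 := closed_sub hcl hg1m hg u1 _ hu1b hcw' hds
      rw [QQ_cons] at h4
      have e5 : QQ (fun c : Fin n => E (g1 c.succ)) (fun c : Fin n => b (g1 c.succ))
          (fun c : Fin n => u1 c.succ) = MvPolynomial.eval w φ := by
        rw [hφ, pot_eval _ _ (fun c => (hb (g c)).totalDegree_le)]
        rfl
      have e6 : dsp (fun c : Fin n => E (g1 c.succ)) (fun c : Fin n => u1 c.succ) = w :=
        dsp_co hd0 w
      have e7 : QQ (fun c => E (g c)) (fun c => b (g c))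
          (co (fun c => E (g c)) (fun i => w i + E a i * h)) =
          MvPolynomial.eval (fun i => w i + E a i * h) φ := by
        rw [hφ, pot_eval _ _ (fun c => (hb (g c)).totalDegree_le)]
      rw [e5, e6, e7] at h4
      have e8 : p.eval h = (pm (ln (b a) w (E a))).eval h + MvPolynomial.eval w φ -
          MvPolynomial.eval (fun i => w i + E a i * h) φ := by
        rw [hp, Polynomial.eval_sub, Polynomial.eval_add, Polynomial.eval_C, ln_eval φ]
      rw [e8]
      exact h4
    have h1 := hA p hpd ε _ hr hpe 1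
    have h2 : p.coeff 1 = MvPolynomial.eval w (b a) - MvPolynomial.eval w (dd φ (E a)) := by
      have h3 : p.derivative.coeff 0 = p.coeff 1 := by
        rw [Polynomial.coeff_derivative]
        norm_num
      rw [← h3, hp, Polynomial.derivative_sub, Polynomial.derivative_add, pm_derivative,
        Polynomial.derivative_C, add_zero, ln_derivative, Polynomial.coeff_sub, ln_coeff_zero,
        Polynomial.finsetSum_coeff, dd_eval]
      congr 1
      refine Finset.sum_congr rfl fun i _ => ?_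
      rw [Polynomial.coeff_C_mul, ln_coeff_zero]
    rw [h2, pow_one] at h1
    exact h1
  have h1 := key (fun i => rad n C0 κ * v i) (fun i => by
    rw [abs_mul, abs_of_pos hr]
    have := hv i
    nlinarith [abs_nonneg (v i)])
  rw [eval_smul_homog (hb a), eval_smul_homog (dd_homog hφh (E a)), ← mul_sub, abs_mul, abs_pow,
    abs_of_pos hr] at h1
  rw [le_div_iff₀ (by positivity), pow_succ]
  linarith [mul_comm (rad n C0 κ ^ D) (|MvPolynomial.eval v (b a) -
    MvPolynomial.eval v (dd φ (E a))|), mul_right_comm (|MvPolynomial.eval v (b a) -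
    MvPolynomial.eval v (dd φ (E a))|) (rad n C0 κ ^ D) (rad n C0 κ)]

/-- The form of the first leg of the frame is exactly the derivative of the potential. -/
theorem leg_first {n D : ℕ} {E : Fin (n + 1) → Fin (n + 1) → ℝ}
    {b : Fin (n + 1) → MvPolynomial (Fin (n + 1)) ℝ} (hE : (Matrix.of E).det ≠ 0)
    (hb : ∀ c, (b c).totalDegree ≤ D) (v : Fin (n + 1) → ℝ) :
    MvPolynomial.eval v (b 0) = MvPolynomial.eval v (dd (pot D E b) (E 0)) := by
  set φ := pot D E b with hφ
  set u := co E v with hu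
  set w := dsp (fun c : Fin n => E c.succ) (fun c : Fin n => u c.succ) with hw
  set q : ℝ[X] := (pm (ln (b 0) w (E 0))).comp (Polynomial.X + Polynomial.C (u 0)) +
    Polynomial.C (QQ (fun c : Fin n => E c.succ) (fun c : Fin n => b c.succ)
      (fun c : Fin n => u c.succ)) with hq
  have h1 : ln φ v (E 0) = q := by
    apply Polynomial.funext
    intro h
    rw [ln_eval, hφ, pot_eval E b hb]
    have h2 : co E (fun i => v i + E 0 i * h) = fun c => u c + (if c = 0 then h else 0) := by
      have h3 : (fun i => v i + E 0 i * h) =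
          dsp E (fun c => u c + (if c = 0 then h else 0)) := by
        have h4 := dsp_co hE v
        funext i
        have h5 := congrFun h4 i
        unfold dsp at h5 ⊢
        simp only [add_mul, ite_mul, zero_mul]
        rw [Finset.sum_add_distrib, Finset.sum_ite_eq', if_pos (Finset.mem_univ _), h5]
        ring
      rw [h3, co_dsp hE]
    rw [h2, QQ_cons, hq, Polynomial.eval_add, Polynomial.eval_C, Polynomial.eval_comp]
    simp only [Fin.succ_ne_zero, if_false, if_true, add_zero, Polynomial.eval_add,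
      Polynomial.eval_X, Polynomial.eval_C]
    rw [add_comm h (u 0)]
  have h2 : (ln φ v (E 0)).derivative.coeff 0 = q.derivative.coeff 0 := by rw [h1]
  rw [ln_derivative, Polynomial.finsetSum_coeff] at h2
  rw [dd_eval]
  have h3 : ∑ i, (Polynomial.C (E 0 i) * ln (MvPolynomial.pderiv i φ) v (E 0)).coeff 0 =
      ∑ i, E 0 i * MvPolynomial.eval v (MvPolynomial.pderiv i φ) := by
    refine Finset.sum_congr rfl fun i _ => ?_
    rw [Polynomial.coeff_C_mul, ln_coeff_zero]
  rw [← h3, h2, hq, Polynomial.derivative_add, Polynomial.derivative_C, add_zero,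
    Polynomial.derivative_comp, pm_derivative, Polynomial.coeff_zero_eq_eval_zero,
    Polynomial.eval_mul, Polynomial.eval_comp]
  simp only [Polynomial.derivative_add, Polynomial.derivative_X, Polynomial.derivative_C,
    add_zero, Polynomial.eval_one, Polynomial.eval_add, Polynomial.eval_X, Polynomial.eval_C,
    zero_add, one_mul]
  rw [ln_eval]
  refine congrArg (fun y => MvPolynomial.eval y (b 0)) ?_
  have h4 := dsp_co hE v
  funext i
  have h5 := congrFun h4 i
  rw [← h5]
  unfold dsp at hw ⊢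
  rw [Fin.sum_univ_succ, hw, ← hu]
  ring

/-- The potential on the legs of the frame. -/
lemma pot_on {n N D : ℕ} {E : Fin N → Fin n → ℝ} {b : Fin N → MvPolynomial (Fin n) ℝ}
    (hb : ∀ a, (b a).IsHomogeneous D) {g : Fin n → Fin N} (hg : StrictMono g)
    (hdet : (Matrix.of fun c => E (g c)).det ≠ 0) (s : Fin N → ℝ)
    (hs : ∀ a, (∀ c, g c ≠ a) → s a = 0) :
    MvPolynomial.eval (dsp E s) (pot D (fun c => E (g c)) (fun c => b (g c))) = QQ E b s := by
  rw [pot_eval _ _ (fun c => (hb (g c)).totalDegree_le), QQ_sub E b g hg s hs,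
    dsp_sub E g hg s hs, co_dsp hdet]

/-- **BFL, row ALG.** If the height at the end of a broken path is a function of the end point, up
to `ε`, then the forms of the legs are the derivatives of ONE form of degree `D + 1`, the
potential of a frame; and the potentials of all frames agree. -/
theorem alg_thm (n D : ℕ) (C0 : ℝ) (hC0 : 1 ≤ C0) : ∃ C : ℝ, 1 ≤ C ∧
    ∀ (N : ℕ) (E : Fin N → Fin n → ℝ) (b : Fin N → MvPolynomial (Fin n) ℝ) (ε κ : ℝ), 0 < κ →
    (∀ a i, |E a i| ≤ C0) → (∀ a, (b a).IsHomogeneous D) → Closed E b ε →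
    ∀ g : Fin n → Fin N, StrictMono g → κ ≤ |(Matrix.of fun c => E (g c)).det| →
    (pot D (fun c => E (g c)) (fun c => b (g c))).IsHomogeneous (D + 1) ∧
    (∀ s : Fin N → ℝ, (∀ a, (∀ c, g c ≠ a) → s a = 0) →
      MvPolynomial.eval (dsp E s) (pot D (fun c => E (g c)) (fun c => b (g c))) = QQ E b s) ∧
    (∀ a : Fin N, (∀ c, a ≤ g c) → ∀ v : Fin n → ℝ, (∀ i, |v i| ≤ 1) →
      |MvPolynomial.eval v (b a) -
        MvPolynomial.eval v (dd (pot D (fun c => E (g c)) (fun c => b (g c))) (E a))| ≤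
        C * ε / κ ^ (D + 1)) ∧
    (∀ g' : Fin n → Fin N, StrictMono g' → κ ≤ |(Matrix.of fun c => E (g' c)).det| →
      ∀ v : Fin n → ℝ, (∀ i, |v i| ≤ 1) →
      |MvPolynomial.eval v (pot D (fun c => E (g c)) (fun c => b (g c))) -
        MvPolynomial.eval v (pot D (fun c => E (g' c)) (fun c => b (g' c)))| ≤
        C * ε / κ ^ (D + 1)) := by
  obtain ⟨A, hA1, hA⟩ := leg_frame n D
  have hf : (0 : ℝ) < n.factorial := by exact_mod_cast Nat.factorial_pos n
  have hC : (0 : ℝ) < C0 := by linarith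
  set B : ℝ := 2 * (n + 1) * n.factorial * C0 ^ (n + 1) with hB
  have hB0 : 0 < B := by positivity
  have hB1 : 1 ≤ B := by
    have h1 : (1 : ℝ) ≤ n.factorial := by exact_mod_cast Nat.factorial_pos n
    have h2 : (1 : ℝ) ≤ C0 ^ (n + 1) := one_le_pow₀ hC0
    have h3 : (1 : ℝ) ≤ 2 * (n + 1) := by
      have : (0 : ℝ) ≤ n := Nat.cast_nonneg n
      linarith
    calc (1 : ℝ) = 1 * 1 * 1 := by norm_num
      _ ≤ 2 * (n + 1) * n.factorial * C0 ^ (n + 1) := by gcongr
  have hBp : 1 ≤ B ^ (D + 1) := one_le_pow₀ hB1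
  refine ⟨A * B ^ (D + 1), by nlinarith, ?_⟩
  intro N E b ε κ hκ hE hb hcl g hg hdet
  have hd0 : (Matrix.of fun c => E (g c)).det ≠ 0 := fun h => by
    rw [h, abs_zero] at hdet
    linarith
  have hε0 : 0 ≤ ε := by
    have := hcl 0 0 (by simp) (by simp) rfl
    exact (abs_nonneg _).trans this
  have hradp : rad n C0 κ ^ (D + 1) = κ ^ (D + 1) / B ^ (D + 1) := by
    unfold rad
    rw [div_pow]
  have hconv : ∀ x : ℝ, x / rad n C0 κ ^ (D + 1) = x * B ^ (D + 1) / κ ^ (D + 1) := by
    intro x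
    rw [hradp]
    have : (0 : ℝ) < κ ^ (D + 1) := by positivity
    have : (0 : ℝ) < B ^ (D + 1) := by positivity
    field_simp
  have hκp : (0 : ℝ) < κ ^ (D + 1) := by positivity
  refine ⟨pot_homog _ _ (fun c => hb (g c)), fun s hs => pot_on hb hg hd0 s hs, ?_, ?_⟩
  · intro a ha v hv
    by_cases hlt : ∀ c, a < g c
    · have h1 := hA N E b ε κ C0 hκ hC0 hE hb hcl g hg hdet a hlt v hv
      rw [hconv] at h1
      calc _ ≤ A * ε * B ^ (D + 1) / κ ^ (D + 1) := h1
        _ = A * B ^ (D + 1) * ε / κ ^ (D + 1) := by ring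
    · push Not at hlt
      obtain ⟨c, hc⟩ := hlt
      have hca : g c = a := le_antisymm hc (ha c)
      have hrhs : 0 ≤ A * B ^ (D + 1) * ε / κ ^ (D + 1) := by positivity
      cases n with
      | zero => exact c.elim0
      | succ m =>
        have hc0 : c = 0 := by
          by_contra hne
          have h1 : g 0 < g c := hg (Fin.pos_of_ne_zero hne)
          have h2 := ha 0
          rw [hca] at h1
          exact absurd h1 (not_lt.mpr h2)
        rw [hc0] at hca
        have h1 := leg_first (E := fun c => E (g c)) (b := fun c => b (g c)) hd0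
          (fun c => (hb (g c)).totalDegree_le) v
        simp only [hca] at h1
        rw [h1, sub_self, abs_zero]
        exact hrhs
  · intro g' hg' hdet' v hv
    have h1 := frame_frame hκ hC0 hE hb hcl hg hg' hdet hdet' v hv
    rw [hconv] at h1
    refine h1.trans ?_
    refine div_le_div_of_nonneg_right ?_ hκp.le
    have h2 : 0 ≤ ε * B ^ (D + 1) := by positivity
    calc ε * B ^ (D + 1) = 1 * (ε * B ^ (D + 1)) := by ring
      _ ≤ A * (ε * B ^ (D + 1)) := mul_le_mul_of_nonneg_right hA1 h2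
      _ = A * B ^ (D + 1) * ε := by ring

end Pool.BFL
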