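import Pool.Agent.H19.BFL.Stmts
import Pool.Agent.H39.BFL.AlgThm

/-!
# Board kbfl, row ALG
-/

set_option autoImplicit false

namespace Pool.Agent.H39.BFL

open Finset
open Pool.BFL

lemma Qw_eq {n N : ℕ} (E : Fin N → Fin n → ℝ) (b : Fin N → Pl n) (s : Fin N → ℝ) :
    Qw b E s = QQ E b s := by
  rw [QQ_eq_integral]
  unfold Qw
  refine Finset.sum_congr rfl fun a _ => ?_
  refine intervalIntegral.integral_congr fun τ _ => ?_
  show MvPolynomial.eval _ (b a) = MvPolynomial.eval _ (b a)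
  refine congrArg (fun y => MvPolynomial.eval y (b a)) ?_
  funext i
  unfold tl
  rw [Finset.sum_filter]
  ring

/-- **Row ALG.** -/
theorem alg_thm : ALGStmt := by
  intro n N j C₀ hN hn hj hC₀
  obtain ⟨C, hC1, hC⟩ := Pool.BFL.alg_thm n (j - 1) C₀ hC₀
  refine ⟨C, hC1, ?_⟩
  intro E b κ ε hE hb hκ hκ1 hε hdet hKV
  have hj1 : j - 1 + 1 = j := Nat.sub_add_cancel hj
  have hcl : Closed E b ε := by
    intro s s' hs hs' h
    by_contra hcon
    push Not at hcon
    refine hKV ⟨s, s', hs, hs', fun i => congrFun h i, ?_⟩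
    rw [Qw_eq, Qw_eq]
    exact hcon
  have hg : StrictMono (fun k : Fin n => (⟨N - n + k, by omega⟩ : Fin N)) := by
    intro k k' hk
    rw [Fin.lt_def] at hk ⊢
    simp only
    omega
  have hdet' : κ ≤ |(Matrix.of fun c : Fin n => E ⟨N - n + c, by omega⟩).det| := by
    unfold ldet at hdet
    rw [← Matrix.det_transpose] at hdet
    exact hdet
  obtain ⟨h1, _, h3, _⟩ := hC N E b ε κ hκ hE hb hcl _ hg hdet'
  rw [hj1] at h1 h3
  refine ⟨_, h1, ?_⟩
  intro a ha v hv
  have h4 := h3 a (fun c => by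
    rw [Fin.le_def]
    simp only
    omega) v hv
  rw [dd_eval] at h4
  refine h4.trans ?_
  refine div_le_div_of_nonneg_left (by positivity) (by positivity) ?_
  exact pow_le_pow_of_le_one hκ.le hκ1 (by omega)

end Pool.Agent.H39.BFL
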