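import Pool.Agent.H39.BFL.QPol
import Pool.Agent.H39.BFL.AlgRow
import Pool.Agent.H1.BFL.TRN
import Pool.Agent.H90.BFL.Leg

/-!
# Deterministic estimates for the core theorem
-/

set_option autoImplicit false

namespace Pool.Agent.H39.BFL

open Finset
open Pool.BFL

/-- The determinant is Lipschitz. -/
lemma det_lip {n : ℕ} {C₀ δ : ℝ} (hC₀ : 1 ≤ C₀) (hδ : 0 ≤ δ) {E E' : Fin n → Fin n → ℝ}
    (hE : ∀ a i, |E a i| ≤ C₀) (hE' : ∀ a i, |E' a i| ≤ C₀) (h : ∀ a i, |E a i - E' a i| ≤ δ) :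
    |(Matrix.of E).det - (Matrix.of E').det| ≤ n.factorial * (n * C₀ ^ n * δ) := by
  classical
  rw [Matrix.det_apply', Matrix.det_apply', ← Finset.sum_sub_distrib]
  refine (Finset.abs_sum_le_sum_abs _ _).trans ?_
  have h1 : ∀ σ ∈ (univ : Finset (Equiv.Perm (Fin n))),
      |((Equiv.Perm.sign σ : ℤ) : ℝ) * ∏ i, Matrix.of E (σ i) i -
        ((Equiv.Perm.sign σ : ℤ) : ℝ) * ∏ i, Matrix.of E' (σ i) i| ≤ n * C₀ ^ n * δ := by
    intro σ _
    rw [← mul_sub, abs_mul]
    have h2 : |((Equiv.Perm.sign σ : ℤ) : ℝ)| = 1 := by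
      rcases Int.units_eq_one_or (Equiv.Perm.sign σ) with h | h <;> rw [h] <;> simp
    rw [h2, one_mul]
    have h3 := Pool.Agent.H1.BFL.lip_prod (univ : Finset (Fin n)) C₀ δ hC₀ hδ
      (fun i => E (σ i) i) (fun i => E' (σ i) i) (fun i => hE _ _) (fun i => hE' _ _)
      (fun i => h _ _)
    rw [Finset.card_univ, Fintype.card_fin] at h3
    exact h3
  refine (Finset.sum_le_card_nsmul _ _ _ h1).trans (le_of_eq ?_)
  rw [Finset.card_univ, Fintype.card_perm, Fintype.card_fin, nsmul_eq_mul]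

lemma lg_sub {n : ℕ} (b b' : Pl n) (y E : Fin n → ℝ) (s : ℝ) (x : Fin n → ℝ) :
    lg (b - b') y E s x = lg b y E s x - lg b' y E s x := by
  have hc : ∀ b : Pl n, Continuous fun τ : ℝ =>
      MvPolynomial.eval (fun i => x i - y i - τ * E i) b := by
    intro b
    have h : Continuous fun y : Fin n → ℝ => MvPolynomial.eval y b := b.continuous_eval
    exact h.comp (continuous_pi fun i => by fun_prop)
  unfold lg
  rw [← intervalIntegral.integral_sub ((hc b).intervalIntegrable _ _)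
    ((hc b').intervalIntegrable _ _)]
  refine intervalIntegral.integral_congr fun τ _ => ?_
  exact map_sub _ _ _

lemma int_bd {f : ℝ → ℝ} {s M : ℝ} (hs : |s| ≤ 1) (hM : 0 ≤ M)
    (h : ∀ τ : ℝ, |τ| ≤ 1 → |f τ| ≤ M) : |∫ τ in (0 : ℝ)..s, f τ| ≤ M := by
  have h3 : ∀ τ ∈ Set.uIoc (0 : ℝ) s, ‖f τ‖ ≤ M := by
    intro τ hτ
    rw [Real.norm_eq_abs]
    refine h τ ?_
    rcases le_total 0 s with h5 | h5
    · rw [Set.uIoc_of_le h5] at hτ
      rw [abs_of_pos hτ.1]
      rw [abs_of_nonneg h5] at hs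
      linarith [hτ.2]
    · rw [Set.uIoc_of_ge h5] at hτ
      rw [abs_of_nonpos hτ.2]
      rw [abs_of_nonpos h5] at hs
      linarith [hτ.1]
  have h8 := intervalIntegral.norm_integral_le_of_norm_le_const h3
  rw [Real.norm_eq_abs, sub_zero] at h8
  refine h8.trans ?_
  calc M * |s| ≤ M * 1 := mul_le_mul_of_nonneg_left hs hM
    _ = M := mul_one _

/-- `lg` is bounded by the coefficients. -/
lemma lg_bound (n D : ℕ) (C₀ : ℝ) (hC₀ : 1 ≤ C₀) : ∃ C : ℝ, 1 ≤ C ∧
    ∀ (b : Pl n) (y E : Fin n → ℝ) (s : ℝ) (x : Fin n → ℝ) (r : ℝ), b.totalDegree ≤ D →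
      CB b r → (∀ i, |y i| ≤ C₀) → (∀ i, |E i| ≤ C₀) → |s| ≤ 1 → (∀ i, |x i| ≤ C₀) →
      |lg b y E s x| ≤ C * r := by
  refine ⟨1 + (Pool.Agent.H36.KBX.bx n D).card * ((3 * C₀) ^ (n * D)), ?_, ?_⟩
  · have : (0 : ℝ) ≤ (Pool.Agent.H36.KBX.bx n D).card * ((3 * C₀) ^ (n * D)) := by positivity
    linarith
  · intro b y E s x r hb hr hy hE hs hx
    have hr0 : 0 ≤ r := (abs_nonneg _).trans (hr 0)
    have h1 : |lg b y E s x| ≤ (Pool.Agent.H36.KBX.bx n D).card * (r * (3 * C₀) ^ (n * D)) := by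
      unfold lg
      refine int_bd hs (by positivity) fun τ hτ => ?_
      refine Pool.Agent.H36.KBX.eval_bound b hb r (3 * C₀) (by linarith) hr _ fun i => ?_
      have h2 : |τ * E i| ≤ C₀ := by
        rw [abs_mul]
        calc |τ| * |E i| ≤ 1 * C₀ := mul_le_mul hτ (hE i) (abs_nonneg _) zero_le_one
          _ = C₀ := one_mul _
      calc |x i - y i - τ * E i| ≤ |x i - y i| + |τ * E i| := abs_sub _ _
        _ ≤ (|x i| + |y i|) + |τ * E i| := by linarith [abs_sub (x i) (y i)]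
        _ ≤ 3 * C₀ := by linarith [hx i, hy i]
    refine h1.trans ?_
    nlinarith

/-- `lg` is Lipschitz in the direction. -/
lemma lg_lip (n D : ℕ) (C₀ : ℝ) (hC₀ : 1 ≤ C₀) : ∃ L : ℝ, 0 ≤ L ∧
    ∀ (b : Pl n) (y E E' : Fin n → ℝ) (s : ℝ) (x : Fin n → ℝ) (r δ : ℝ), b.totalDegree ≤ D →
      CB b r → (∀ i, |y i| ≤ C₀) → (∀ i, |E i| ≤ C₀) → (∀ i, |E' i| ≤ C₀) → |s| ≤ 1 →
      (∀ i, |x i| ≤ C₀) → 0 ≤ δ → (∀ i, |E i - E' i| ≤ δ) →
      |lg b y E s x - lg b y E' s x| ≤ L * r * δ := by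
  obtain ⟨L, hL0, hL⟩ := Pool.Agent.H1.BFL.lip_eval n D (3 * C₀) (by linarith)
  refine ⟨L, hL0, ?_⟩
  intro b y E E' s x r δ hb hr hy hE hE' hs hx hδ h
  have hr0 : 0 ≤ r := (abs_nonneg _).trans (hr 0)
  have hc : ∀ E : Fin n → ℝ, Continuous fun τ : ℝ =>
      MvPolynomial.eval (fun i => x i - y i - τ * E i) b := by
    intro E
    have h : Continuous fun y : Fin n → ℝ => MvPolynomial.eval y b := b.continuous_eval
    exact h.comp (continuous_pi fun i => by fun_prop)
  have hbd : ∀ E : Fin n → ℝ, (∀ i, |E i| ≤ C₀) → ∀ τ : ℝ, |τ| ≤ 1 → ∀ i,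
      |x i - y i - τ * E i| ≤ 3 * C₀ := by
    intro E hE τ hτ i
    have h2 : |τ * E i| ≤ C₀ := by
      rw [abs_mul]
      calc |τ| * |E i| ≤ 1 * C₀ := mul_le_mul hτ (hE i) (abs_nonneg _) zero_le_one
        _ = C₀ := one_mul _
    calc |x i - y i - τ * E i| ≤ |x i - y i| + |τ * E i| := abs_sub _ _
      _ ≤ (|x i| + |y i|) + |τ * E i| := by linarith [abs_sub (x i) (y i)]
      _ ≤ 3 * C₀ := by linarith [hx i, hy i]
  unfold lg
  rw [← intervalIntegral.integral_sub ((hc E).intervalIntegrable _ _)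
    ((hc E').intervalIntegrable _ _)]
  refine int_bd hs (by positivity) fun τ hτ => ?_
  refine hL b r δ hb hr hδ _ _ (hbd E hE τ hτ) (hbd E' hE' τ hτ) fun i => ?_
  have e : x i - y i - τ * E i - (x i - y i - τ * E' i) = -(τ * (E i - E' i)) := by ring
  rw [e, abs_neg, abs_mul]
  calc |τ| * |E i - E' i| ≤ 1 * δ := mul_le_mul hτ (h i) (abs_nonneg _) zero_le_one
    _ = δ := one_mul _

/-- The increment along the derivative of a polynomial. -/
lemma lg_dD {n : ℕ} (H : Pl n) (y E : Fin n → ℝ) (s : ℝ) (x : Fin n → ℝ) :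
    lg (dD E H) y E s x = MvPolynomial.eval (fun i => x i - y i) H -
      MvPolynomial.eval (fun i => x i - y i - s * E i) H := by
  set w : Fin n → ℝ := fun i => x i - y i with hw
  set E' : Fin n → ℝ := fun i => - E i with hE'
  have h1 : ∀ τ : ℝ, MvPolynomial.eval (fun i => x i - y i - τ * E i) (dD E H) =
      (ln (dD E H) w E').eval τ := by
    intro τ
    rw [ln_eval]
    refine congrArg (fun y => MvPolynomial.eval y (dD E H)) ?_
    funext i
    simp only [hw, hE']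
    ring
  have h2 : dD E H = - dD E' H := by
    unfold dD
    rw [← Finset.sum_neg_distrib]
    refine Finset.sum_congr rfl fun i _ => ?_
    simp only [hE']
    rw [MvPolynomial.C_neg]
    ring
  have h3 : ∀ τ : ℝ, (ln (dD E H) w E').eval τ = - ((ln H w E').derivative).eval τ := by
    intro τ
    rw [ln_derivative', ln_eval, ln_eval, h2, map_neg]
  unfold lg
  rw [intervalIntegral.integral_congr (g := fun τ => - ((ln H w E').derivative).eval τ)
    fun τ _ => (h1 τ).trans (h3 τ), intervalIntegral.integral_neg]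
  have h4 : ∫ τ in (0 : ℝ)..s, ((ln H w E').derivative).eval τ =
      (ln H w E').eval s - (ln H w E').eval 0 :=
    intervalIntegral.integral_eq_sub_of_hasDerivAt (f := fun x => (ln H w E').eval x)
      (fun x _ => (ln H w E').hasDerivAt x) (((ln H w E').derivative).continuous.intervalIntegrable _ _)
  rw [h4, ln_eval, ln_eval]
  have e1 : (fun i => w i + E' i * s) = fun i => x i - y i - s * E i := by
    funext i
    simp only [hw, hE']
    ring
  have e2 : (fun i => w i + E' i * 0) = w := by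
    funext i
    simp only [mul_zero, add_zero]
  rw [e1, e2]
  ring

lemma CB_mono {n : ℕ} {P : Pl n} {r r' : ℝ} (h : CB P r) (hr : r ≤ r') : CB P r' :=
  fun k => (h k).trans hr

lemma CB_sub {n : ℕ} {P Q : Pl n} {r r' : ℝ} (h : CB P r) (h' : CB Q r') : CB (P - Q) (r + r') := by
  intro k
  rw [MvPolynomial.coeff_sub]
  exact (abs_sub _ _).trans (add_le_add (h k) (h' k))

lemma CB_add {n : ℕ} {P Q : Pl n} {r r' : ℝ} (h : CB P r) (h' : CB Q r') : CB (P + Q) (r + r') := by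
  intro k
  rw [MvPolynomial.coeff_add]
  exact (abs_add_le _ _).trans (add_le_add (h k) (h' k))

lemma CB_symm {n : ℕ} {P Q : Pl n} {r : ℝ} (h : CB (P - Q) r) : CB (Q - P) r := by
  intro k
  have := h k
  rw [MvPolynomial.coeff_sub] at this ⊢
  rw [abs_sub_comm]
  exact this

lemma CB_tri {n : ℕ} {P Q R : Pl n} {r r' : ℝ} (h : CB (P - Q) r) (h' : CB (Q - R) r') :
    CB (P - R) (r + r') := by
  have := CB_add h h'
  rwa [sub_add_sub_cancel] at this

/-- **Closing.** -/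
lemma closing (n j : ℕ) (C₀ : ℝ) (hC₀ : 1 ≤ C₀) : ∃ C : ℝ, 1 ≤ C ∧
    ∀ (T T' H H' b : Pl n) (y y' E : Fin n → ℝ) (s δ d e r : ℝ) (x : Fin n → ℝ),
      H.totalDegree ≤ j → H'.totalDegree ≤ j → b.totalDegree ≤ j → CB H r → CB (H - H') e →
      CB (b - dD E H) e → (∀ i, |y i| ≤ C₀) → (∀ i, |y' i| ≤ C₀) → (∀ i, |E i| ≤ C₀) →
      |s| ≤ 1 → 0 ≤ d → (∀ i, |y' i - y i - s * E i| ≤ d) → (∀ i, |x i| ≤ C₀) →
      |MvPolynomial.eval x T' - MvPolynomial.eval x T - lg b y E s x| ≤ δ →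
      |MvPolynomial.eval x T' + MvPolynomial.eval (fun i => x i - y' i) H' -
        (MvPolynomial.eval x T + MvPolynomial.eval (fun i => x i - y i) H)| ≤
        δ + C * (e + r * d) := by
  obtain ⟨L, hL0, hL⟩ := Pool.Agent.H1.BFL.lip_eval n j (3 * C₀) (by linarith)
  obtain ⟨K, hK1, hK⟩ := lg_bound n j C₀ hC₀
  set B : ℝ := (Pool.Agent.H36.KBX.bx n j).card * ((3 * C₀) ^ (n * j)) with hB
  have hB0 : 0 ≤ B := by positivity
  refine ⟨K + B + L, by linarith, ?_⟩
  intro T T' H H' b y y' E s δ d e r x hH hH' hb hr he hbe hy hy' hE hs hd hyy hx hT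
  have hr0 : 0 ≤ r := (abs_nonneg _).trans (hr 0)
  have he0 : 0 ≤ e := (abs_nonneg _).trans (he 0)
  have h1 := lg_dD H y E s x
  have hdeg : (b - dD E H).totalDegree ≤ j :=
    (MvPolynomial.totalDegree_sub _ _).trans (max_le hb (dD_deg hH E))
  have h2 := hK (b - dD E H) y E s x e hdeg hbe hy hE hs hx
  rw [lg_sub, h1] at h2
  have h3 : |MvPolynomial.eval (fun i => x i - y' i) H' -
      MvPolynomial.eval (fun i => x i - y' i) H| ≤ B * e := by
    rw [← map_sub]
    refine (Pool.Agent.H36.KBX.eval_bound (H' - H) ((MvPolynomial.totalDegree_sub _ _).trans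
      (max_le hH' hH)) e (3 * C₀) (by linarith) (CB_symm he) _ fun i => ?_).trans (le_of_eq ?_)
    · calc |x i - y' i| ≤ |x i| + |y' i| := abs_sub _ _
        _ ≤ 3 * C₀ := by linarith [hx i, hy' i]
    · rw [hB]
      ring
  have h4 : |MvPolynomial.eval (fun i => x i - y' i) H -
      MvPolynomial.eval (fun i => x i - y i - s * E i) H| ≤ L * r * d := by
    refine hL H r d hH hr hd _ _ (fun i => ?_) (fun i => ?_) fun i => ?_
    · calc |x i - y' i| ≤ |x i| + |y' i| := abs_sub _ _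
        _ ≤ 3 * C₀ := by linarith [hx i, hy' i]
    · have h2 : |s * E i| ≤ C₀ := by
        rw [abs_mul]
        calc |s| * |E i| ≤ 1 * C₀ := mul_le_mul hs (hE i) (abs_nonneg _) zero_le_one
          _ = C₀ := one_mul _
      calc |x i - y i - s * E i| ≤ |x i - y i| + |s * E i| := abs_sub _ _
        _ ≤ (|x i| + |y i|) + |s * E i| := by linarith [abs_sub (x i) (y i)]
        _ ≤ 3 * C₀ := by linarith [hx i, hy i]
    · have e : x i - y' i - (x i - y i - s * E i) = -(y' i - y i - s * E i) := by ring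
      rw [e, abs_neg]
      exact hyy i
  have e : MvPolynomial.eval x T' + MvPolynomial.eval (fun i => x i - y' i) H' -
        (MvPolynomial.eval x T + MvPolynomial.eval (fun i => x i - y i) H) =
      (MvPolynomial.eval x T' - MvPolynomial.eval x T - lg b y E s x) +
      (lg b y E s x - (MvPolynomial.eval (fun i => x i - y i) H -
        MvPolynomial.eval (fun i => x i - y i - s * E i) H)) +
      (MvPolynomial.eval (fun i => x i - y' i) H' -
        MvPolynomial.eval (fun i => x i - y' i) H) +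
      (MvPolynomial.eval (fun i => x i - y' i) H -
        MvPolynomial.eval (fun i => x i - y i - s * E i) H) := by ring
  rw [e]
  refine (abs_add_le _ _).trans ((add_le_add (abs_add_three _ _ _) h4).trans ?_)
  have h5 : 0 ≤ r * d := mul_nonneg hr0 hd
  nlinarith

end Pool.Agent.H39.BFL
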