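import Pool.Agent.H39.BFL.CorC

/-!
# Board kbfl, row COR: the core theorem
-/

set_option autoImplicit false

namespace Pool.Agent.H39.BFL

open Finset Real
open Pool.Agent.H49.Ent Pool.Agent.H32.Dense Pool.STK Pool.KS3 Pool.BFL

lemma P2_mono {Ω G : Type} [Fintype Ω] {p : Ω → ℝ} (hp : ∀ ω, 0 ≤ p ω) (g : Ω → G)
    {A A' : Ω → Ω → Prop} (h : ∀ ω ω', 0 < p ω → 0 < p ω' → g ω = g ω' → A ω ω' → A' ω ω') :
    P2 p g A ≤ P2 p g A' := by
  classical
  unfold P2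
  refine Finset.sum_le_sum fun ω _ => Finset.sum_le_sum fun ω' _ => ?_
  have h0 : 0 ≤ p ω * p ω' / law p g (g ω) :=
    div_nonneg (mul_nonneg (hp ω) (hp ω')) (law_nonneg hp _ _)
  by_cases h1 : g ω = g ω' ∧ A ω ω'
  · rw [if_pos h1]
    rcases (hp ω).eq_or_lt with hw | hw
    · rw [← hw, zero_mul, zero_div]
      split_ifs <;> exact le_rfl
    · rcases (hp ω').eq_or_lt with hw' | hw'
      · rw [← hw', mul_zero, zero_div]
        split_ifs <;> exact le_rfl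
      · rw [if_pos ⟨h1.1, h ω ω' hw hw' h1.1 h1.2⟩]
  · rw [if_neg h1]
    split_ifs
    · exact h0
    · exact le_rfl

/-- **Row COR**, from the rows KVR and SPN. -/
theorem cor_of (hKVR : KVRStmt) (hSPN : SPNStmt) : Pool.BFL.CORStmt := by
  intro n j c C₀ τ₀ hn hj hc hC₀ hτ₀
  obtain ⟨τk, hτk, Uk, hk⟩ := kv_lem hKVR hSPN n j c C₀ (τ₀ / 32) hn hj hc hC₀ (by positivity)
  obtain ⟨A, hA1, hA⟩ := cor_core hSPN n j hn hj C₀ hC₀
  obtain ⟨Cc, hCc1, hCc⟩ := closing n j C₀ hC₀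
  set a : ℝ := n * j + 1 with ha
  have ha1 : 1 ≤ a := by
    rw [ha]
    have : (0 : ℝ) ≤ n * j := by positivity
    linarith only [this]
  set K : ℝ := 16 * a + 4 * (2 + 36 * n) with hK
  have hn0 : (0 : ℝ) ≤ n := Nat.cast_nonneg n
  have hK0 : 0 < K := by positivity
  set τ₁ : ℝ := min τk (τ₀ / K) with hτ₁
  have hτ₁0 : 0 < τ₁ := lt_min hτk (by positivity)
  have hKτ : K * τ₁ ≤ τ₀ := by
    have h1 : τ₁ ≤ τ₀ / K := min_le_right _ _
    rw [le_div_iff₀ hK0] at h1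
    linarith only [h1, mul_comm K τ₁]
  have b1 : 16 * a * τ₁ ≤ τ₀ := by
    have : 0 ≤ 4 * (2 + 36 * (n : ℝ)) * τ₁ := by positivity
    have e : K * τ₁ = 16 * a * τ₁ + 4 * (2 + 36 * n) * τ₁ := by
      rw [hK]
      ring
    linarith only [hKτ, this]
  have b2 : 4 * (2 + 36 * n) * τ₁ ≤ τ₀ := by
    have : 0 ≤ 16 * a * τ₁ := by positivity
    have e : K * τ₁ = 16 * a * τ₁ + 4 * (2 + 36 * n) * τ₁ := by
      rw [hK]
      ring
    linarith only [hKτ, this]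
  exact by
   obtain ⟨U1, hU1⟩ := exp_large (1 + Cc * A + Cc * A * C₀ + A) (τ₀ / 2) (by positivity)
   refine ⟨τ₁, hτ₁0, max Uk U1, ?_⟩
   intro U m hU hUm hmU Ω G B 𝔅 𝒱 _ p g bk β V tm Y E yc hgt T bV EV hC
   have hUUk : Uk ≤ U := (le_max_left _ _).trans hU
   have hUU1 : U1 ≤ U := (le_max_right _ _).trans hU
   have hU0 : (0 : ℝ) ≤ U := Nat.cast_nonneg U
   have h2U : (0 : ℝ) < 2 ^ U := by positivity
   have h2m : (0 : ℝ) < 2 ^ m := by positivity
   have hUm' : (2 : ℝ) ^ U ≤ 2 ^ m := pow_le_pow_right₀ (by norm_num) hUm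
   obtain ⟨W, instW, q, z, hMC⟩ := Pool.Agent.H67.BFL.mch_thm Ω (G ⊕ B) p (alt g bk)
     (2 * (2 * n + 1) - 1) hC.isLaw
   have hθ : 0 ≤ τ₁ * U := by positivity
   obtain ⟨hbig, hKV⟩ := hk U m hUUk hUm hmU hC hθ
     (mul_le_mul_of_nonneg_right (min_le_left _ _) hU0) hτ₁0.le (min_le_left _ _) hMC
   have hε : 1 / 2 ^ U ≤ exp (τ₀ / 32 * U) / 2 ^ U :=
     div_le_div_of_nonneg_right (one_le_exp (by positivity)) h2U.le
   obtain ⟨Hf, hHh, hHC, hHP⟩ := hA hC hMC hθ hτ₁0.le hUm hbig hε hKV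
   set Λ : ℝ := exp (a * (τ₁ * U)) with hΛ
   have hΛ1 : 1 ≤ Λ := one_le_exp (by positivity)
   have hΛ2 : Λ ^ 2 ≤ exp (τ₀ / 8 * U) := by
     rw [hΛ, ← Real.exp_nat_mul]
     refine Real.exp_le_exp.mpr ?_
     push_cast
     nlinarith
   have hΛ3 : Λ ≤ exp (τ₀ / 8 * U) := by
     refine le_trans ?_ hΛ2
     nlinarith only [hΛ1]
   have hbigA := hU1 U hUU1
   have hpos1 : 0 ≤ Cc * A := by positivity
   have hpos2 : 0 ≤ Cc * A * C₀ := by positivity
   exact by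
    refine ⟨Hf, hHh, fun x => CB_mono (hHC x) ?_, ?_⟩
    · have h1 : A ≤ exp (τ₀ / 2 * U) := by linarith only [hbigA, hpos1, hpos2]
      calc A * Λ ≤ exp (τ₀ / 2 * U) * exp (τ₀ / 8 * U) :=
            mul_le_mul h1 hΛ3 (by positivity) (exp_pos _).le
        _ = exp (τ₀ / 2 * U + τ₀ / 8 * U) := (Real.exp_add _ _).symm
        _ ≤ exp (τ₀ * U) := Real.exp_le_exp.mpr (by nlinarith only [hτ₀])
    · refine le_trans (P2_mono hC.isLaw.nonneg g ?_) (hHP.trans ?_)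
      · intro ω ω' hω hω' hgg hnot hall
        obtain ⟨c1, c2, c3⟩ := hall
        refine hnot ?_
        intro x hx
        have htm := hC.tm_g _ _ hgg
        have hs : |((tm ω' - tm ω : ℤ) : ℝ) / 2 ^ m| ≤ 1 := by
          have h4 : |((tm ω' - tm ω : ℤ) : ℝ)| ≤ 2 ^ m := by
            have : ((|tm ω' - tm ω| : ℤ) : ℝ) ≤ ((2 ^ m : ℤ) : ℝ) := by exact_mod_cast htm
            push_cast at this ⊢
            exact this
          rw [abs_div, abs_of_pos h2m, div_le_one h2m]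
          exact h4
        have h5 := hCc (T (bk ω)) (T (bk ω')) (Hf (bk ω)) (Hf (bk ω')) (bV (V ω) (β ω)) (Y ω) (Y ω')
          (E ω) (((tm ω' - tm ω : ℤ) : ℝ) / 2 ^ m) (exp (τ₁ * U) / 2 ^ U) (C₀ / 2 ^ m)
          (A * Λ ^ 2 * (exp (τ₀ / 32 * U) / 2 ^ U)) (A * Λ) x (hHh _).totalDegree_le
          (hHh _).totalDegree_le ((hC.bV_hom _ _).totalDegree_le.trans (by omega)) (hHC _) c1 c2
          (hC.Y_le _) (hC.Y_le _) (hC.E_le _) hs (by positivity) (hC.Y_g _ _ hgg) hx (c3 x hx)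
        refine h5.trans ?_
        have h6 : exp (τ₁ * U) ≤ Λ ^ 2 * exp (τ₀ / 32 * U) := by
          have h7 : exp (τ₁ * U) ≤ Λ := Real.exp_le_exp.mpr (by nlinarith only [ha1, hθ])
          have h8 : Λ ≤ Λ ^ 2 := by nlinarith only [hΛ1]
          have h9 : 1 ≤ exp (τ₀ / 32 * U) := one_le_exp (by positivity)
          nlinarith only [h7, h8, h9]
        have h7 : A * Λ * (C₀ / 2 ^ m) ≤ A * C₀ * (Λ ^ 2 * exp (τ₀ / 32 * U) / 2 ^ U) := by
          have h8 : C₀ / 2 ^ m ≤ C₀ / 2 ^ U := div_le_div_of_nonneg_left (by linarith only [hC₀]) h2U hUm'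
          have h9 : Λ ≤ Λ ^ 2 * exp (τ₀ / 32 * U) := by
            have h8 : Λ ≤ Λ ^ 2 := by nlinarith only [hΛ1]
            have h9 : 1 ≤ exp (τ₀ / 32 * U) := one_le_exp (by positivity)
            nlinarith only [h8, h9]
          calc A * Λ * (C₀ / 2 ^ m) ≤ A * (Λ ^ 2 * exp (τ₀ / 32 * U)) * (C₀ / 2 ^ U) := by
                refine mul_le_mul ?_ h8 (by positivity) (by positivity)
                exact mul_le_mul_of_nonneg_left h9 (by linarith only [hA1])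
            _ = _ := by ring
        have h8 : exp (τ₁ * U) / 2 ^ U ≤ Λ ^ 2 * exp (τ₀ / 32 * U) / 2 ^ U :=
          div_le_div_of_nonneg_right h6 h2U.le
        have h9 : Λ ^ 2 * exp (τ₀ / 32 * U) ≤ exp (τ₀ / 2 * U) := by
          calc Λ ^ 2 * exp (τ₀ / 32 * U) ≤ exp (τ₀ / 8 * U) * exp (τ₀ / 32 * U) :=
                mul_le_mul_of_nonneg_right hΛ2 (exp_pos _).le
            _ = exp (τ₀ / 8 * U + τ₀ / 32 * U) := (Real.exp_add _ _).symm
            _ ≤ exp (τ₀ / 2 * U) := Real.exp_le_exp.mpr (by nlinarith only [hτ₀])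
        set R : ℝ := Λ ^ 2 * exp (τ₀ / 32 * U) / 2 ^ U with hR
        have hR0 : 0 ≤ R := by positivity
        have h10 : R ≤ exp (τ₀ / 2 * U) / 2 ^ U := div_le_div_of_nonneg_right h9 h2U.le
        have h11 : exp (τ₁ * U) / 2 ^ U + Cc * (A * Λ ^ 2 * (exp (τ₀ / 32 * U) / 2 ^ U) +
            A * Λ * (C₀ / 2 ^ m)) ≤ (1 + Cc * A + Cc * A * C₀) * R := by
          have e1 : A * Λ ^ 2 * (exp (τ₀ / 32 * U) / 2 ^ U) = A * R := by
            rw [hR]
            ring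
          rw [e1]
          have h12 : Cc * (A * Λ * (C₀ / 2 ^ m)) ≤ Cc * (A * C₀ * R) :=
            mul_le_mul_of_nonneg_left h7 (by linarith only [hCc1])
          nlinarith only [h8, h12]
        refine h11.trans ?_
        calc (1 + Cc * A + Cc * A * C₀) * R ≤ exp (τ₀ / 2 * U) * (exp (τ₀ / 2 * U) / 2 ^ U) :=
              mul_le_mul (by linarith only [hA1, hbigA]) h10 hR0 (exp_pos _).le
          _ = exp (τ₀ / 2 * U + τ₀ / 2 * U) / 2 ^ U := by
            rw [Real.exp_add]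
            ring
          _ = exp (τ₀ * U) / 2 ^ U := by
            congr 2
            ring
      · linarith only [hτ₀, b2]

end Pool.Agent.H39.BFL
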