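import Pool.Agent.H39.BFL.KvL

/-!
# The visible conserved form of degree `j`
-/

set_option autoImplicit false

namespace Pool.Agent.H39.BFL

open Finset Real
open Pool.Agent.H49.Ent Pool.Agent.H32.Dense Pool.STK Pool.KS3 Pool.BFL

open Classical in
/-- The potential of a frame, zero if the frame is degenerate. -/
noncomputable def FP {n : ℕ} {𝒱 𝔅 : Type} (j : ℕ) (κ : ℝ) (EV : 𝒱 → Fin n → ℝ)
    (bV : 𝒱 → 𝔅 → Pl n) (vs : Fin n → 𝒱) (x : 𝔅) : Pl n :=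
  if κ ≤ |(Matrix.of fun k => EV (vs k)).det| then
    pot (j - 1) (fun k => EV (vs k)) (fun k => bV (vs k) x) else 0

lemma FP_hom {n : ℕ} {𝒱 𝔅 : Type} {j : ℕ} (hj : 1 ≤ j) (κ : ℝ) (EV : 𝒱 → Fin n → ℝ)
    {bV : 𝒱 → 𝔅 → Pl n} (hb : ∀ v x, (bV v x).IsHomogeneous (j - 1)) (vs : Fin n → 𝒱) (x : 𝔅) :
    (FP j κ EV bV vs x).IsHomogeneous j := by
  unfold FP
  split_ifs
  · have h := pot_homog (fun k => EV (vs k)) (fun k => bV (vs k) x) (fun k => hb _ _)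
    rwa [Nat.sub_add_cancel hj] at h
  · exact MvPolynomial.isHomogeneous_zero _ _ _

lemma FP_CB (n j : ℕ) (hj : 1 ≤ j) (C₀ : ℝ) (hC₀ : 1 ≤ C₀) : ∃ C : ℝ, 1 ≤ C ∧
    ∀ {𝒱 𝔅 : Type} (EV : 𝒱 → Fin n → ℝ) (bV : 𝒱 → 𝔅 → Pl n) (κ r : ℝ), 0 < κ →
      (∀ v i, |EV v i| ≤ C₀) → (∀ v x, (bV v x).IsHomogeneous (j - 1)) → 0 ≤ r →
      (∀ v x, CB (bV v x) r) → ∀ (vs : Fin n → 𝒱) (x : 𝔅),
      CB (FP j κ EV bV vs x) (C * r / κ ^ j) := by
  obtain ⟨C, hC1, hC⟩ := pot_CB n (j - 1) C₀ hC₀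
  rw [Nat.sub_add_cancel hj] at hC
  refine ⟨C, hC1, ?_⟩
  intro 𝒱 𝔅 EV bV κ r hκ hE hb hr hbr vs x
  unfold FP
  split_ifs with h
  · exact hC _ _ κ r hκ h (fun a i => hE _ _) (fun a => hb _ _) hr (fun a => hbr _ _)
  · intro k
    rw [MvPolynomial.coeff_zero, abs_zero]
    positivity

lemma dD_sub_left {n : ℕ} (E E' : Fin n → ℝ) (P : Pl n) :
    dD (fun i => E i - E' i) P = dD E P - dD E' P := by
  unfold dD
  rw [← Finset.sum_sub_distrib]
  refine Finset.sum_congr rfl fun i _ => ?_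
  rw [MvPolynomial.C_sub, sub_mul]

/-- Change of the direction. -/
lemma CB_dir {n j : ℕ} {b H : Pl n} {E E' : Fin n → ℝ} {t e r : ℝ} (hH : H.totalDegree ≤ j)
    (hr : CB H r) (he : ∀ i, |E i - E' i| ≤ e) (h : CB (b - dD E H) t) :
    CB (b - dD E' H) (t + n * e * (j + 1) * r) := by
  have h1 := CB_dD hH hr he
  rw [dD_sub_left] at h1
  have h2 := CB_add h h1
  rwa [sub_add_sub_cancel] at h2

/-- Replace the polynomial. -/
lemma CB_rep {n j : ℕ} {b H H' : Pl n} {E : Fin n → ℝ} {t e C₀ : ℝ} (hH : H.totalDegree ≤ j)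
    (hH' : H'.totalDegree ≤ j) (hE : ∀ i, |E i| ≤ C₀) (he : CB (H - H') e)
    (h : CB (b - dD E H) t) : CB (b - dD E H') (t + n * C₀ * (j + 1) * e) := by
  have h1 := CB_dD (E := E) ((MvPolynomial.totalDegree_sub H H').trans (max_le hH hH')) he hE
  rw [dD_sub] at h1
  have h2 := CB_add h h1
  rwa [sub_add_sub_cancel] at h2

/-- **The core theorem, explicit form.** -/
theorem cor_core (hSPN : SPNStmt) (n j : ℕ) (hn : 1 ≤ n) (hj : 1 ≤ j) (C₀ : ℝ) (hC₀ : 1 ≤ C₀) :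
    ∃ A : ℝ, 1 ≤ A ∧ ∀ {Ω G B 𝔅 𝒱 W : Type} [Fintype Ω] [Fintype W] {U m : ℕ} {c θ η : ℝ}
    {p : Ω → ℝ} {g : Ω → G} {bk : Ω → B} {β : Ω → 𝔅} {V : Ω → 𝒱} {tm : Ω → ℤ}
    {Y E : Ω → Fin n → ℝ} {yc : Ω → Fin n → ℤ} {hgt : Ω → ℝ} {T : B → Pl n}
    {bV : 𝒱 → 𝔅 → Pl n} {EV : 𝒱 → Fin n → ℝ} {q : W → ℝ} {z : ℕ → W → Ω} {ε η₀ : ℝ},
    Core j U m c C₀ θ η p g bk β V tm Y E yc hgt T bV EV →
    MC p (alt g bk) (2 * (2 * n + 1) - 1) q z → 0 ≤ θ → 0 ≤ η → U ≤ m →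
    n.factorial * (n * C₀ ^ n * (C₀ / 2 ^ m)) ≤ exp (-(n * θ)) / 2 → 1 / 2 ^ U ≤ ε →
    Pb q (fun w => KV ε
      (fun a : Fin (2 * n + 1) => EV (V (z (2 * a) w)))
      (Qw (fun a : Fin (2 * n + 1) => bV (V (z (2 * a) w)) (β (z 0 w)))
        (fun a : Fin (2 * n + 1) => EV (V (z (2 * a) w))))) ≤ η₀ →
    ∃ Hf : B → Pl n, (∀ x, (Hf x).IsHomogeneous j) ∧
      (∀ x, CB (Hf x) (A * exp ((n * j + 1) * θ))) ∧
      P2 p g (fun ω ω' => ¬ (
        CB (Hf (bk ω) - Hf (bk ω')) (A * exp ((n * j + 1) * θ) ^ 2 * ε) ∧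
        CB (bV (V ω) (β ω) - dD (E ω) (Hf (bk ω))) (A * exp ((n * j + 1) * θ) ^ 2 * ε) ∧
        Trn m C₀ (exp θ / 2 ^ U) bk β V tm Y E T bV ω ω')) ≤ (2 + 36 * n) * η + 9 * η₀ := by
  obtain ⟨Cf, hCf1, hCf⟩ := frames_CB n (2 * n + 1) (j - 1) C₀ hC₀
  obtain ⟨Cp, hCp1, hCp⟩ := FP_CB n j hj C₀ hC₀
  rw [Nat.sub_add_cancel hj] at hCf
  set a₃ : ℝ := 4 * (n * C₀ * (j + 1)) * Cf + 2 * (n * C₀ * (j + 1)) * Cp with ha₃
  have hk0 : 0 ≤ n * C₀ * ((j : ℝ) + 1) := by positivity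
  have ha₃0 : 0 ≤ a₃ := by positivity
  refine ⟨1 + 2 ^ j * (3 * Cf + a₃ + Cp), by
    have : 0 ≤ (2 : ℝ) ^ j * (3 * Cf + a₃ + Cp) := by positivity
    linarith only [this], ?_⟩
  set A : ℝ := 1 + 2 ^ j * (3 * Cf + a₃ + Cp) with hA
  intro Ω G B 𝔅 𝒱 W _ _ U m c θ η p g bk β V tm Y E yc hgt T bV EV q z ε η₀ hC hMC hθ hη hUm hbig
    hε hKV
  set N := 2 * n + 1 with hN
  have hq := hMC.isLaw
  have hq0 := hq.nonneg
  have hp0 := hC.isLaw.nonneg
  have h2U : (0 : ℝ) < 2 ^ U := by positivity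
  have h2m : (0 : ℝ) < 2 ^ m := by positivity
  have hε0 : 0 < ε := lt_of_lt_of_le (by positivity) hε
  set κ : ℝ := exp (-(n * θ)) / 2 with hκ
  have hκ0 : 0 < κ := by positivity
  set Λ : ℝ := exp ((n * j + 1) * θ) with hΛ
  have hΛ1 : 1 ≤ Λ := one_le_exp (by positivity)
  have hκj : 1 / κ ^ j = 2 ^ j * exp (n * j * θ) := by
    rw [hκ, div_pow, ← Real.exp_nat_mul, one_div, inv_div, div_eq_mul_inv, ← Real.exp_neg]
    congr 2
    ring
  have hexpθ : exp θ ≤ Λ := Real.exp_le_exp.mpr (by nlinarith only [hθ, mul_nonneg (mul_nonneg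
    (Nat.cast_nonneg n : (0 : ℝ) ≤ n) (Nat.cast_nonneg j : (0 : ℝ) ≤ j)) hθ])
  have hexpn : exp (n * j * θ) ≤ Λ := Real.exp_le_exp.mpr (by nlinarith only [hθ])
  have hΛe : exp (n * j * θ) * exp θ = Λ := by
    rw [hΛ, ← Real.exp_add]
    congr 1
    ring
  set P : ℝ := 2 ^ j * Λ with hP
  have hP0 : 0 < P := by positivity
  set t₁ : ℝ := Cf * P * ε with ht₁
  have ht₁0 : 0 < t₁ := by positivity
  set CH : ℝ := Cp * P with hCH
  have hCH0 : 0 < CH := by positivity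
  set dl : ℝ := n * C₀ * (j + 1) * CH * ε with hdl
  have hdl0 : 0 ≤ dl := by positivity
  set t₂ : ℝ := n * C₀ * (j + 1) * (2 * t₁) with ht₂
  have ht₂0 : 0 ≤ t₂ := by positivity
  set t₃ : ℝ := 2 * t₂ + 2 * dl with ht₃
  have ht₃0 : 0 ≤ t₃ := by positivity
  have hn0 : (0 : ℝ) < n := by exact_mod_cast hn
  have ht₃p : 0 < t₃ := by positivity
  set t₄ : ℝ := t₃ * exp θ with ht₄
  have ht₄0 : 0 < t₄ := by positivity
  -- the potentials
  set F := FP j κ EV bV with hF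
  have hFh : ∀ vs x, (F vs x).IsHomogeneous j := fun vs x => FP_hom hj κ EV hC.bV_hom vs x
  have hFd : ∀ vs x, (F vs x).totalDegree ≤ j := fun vs x => (hFh vs x).totalDegree_le
  have hFC : ∀ vs x, CB (F vs x) CH := by
    intro vs x
    have h1 := hCp EV bV κ (exp θ) hκ0 hC.EV_le hC.bV_hom (exp_pos _).le hC.bV_le vs x
    refine CB_mono h1 (le_of_eq ?_)
    rw [div_eq_mul_one_div, hκj, hCH, hP, ← hΛe]
    ring
  set fr : ℕ → W → Fin n → 𝒱 := fun a₀ w k => V (z (2 * (a₀ + k)) w) with hfr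
  set dt : ℕ → W → ℝ := fun a₀ w => |(Matrix.of fun k : Fin n => EV (fr a₀ w k)).det| with hdt
  set KVw : W → Prop := fun w => KV ε
      (fun a : Fin N => EV (V (z (2 * a) w)))
      (Qw (fun a : Fin N => bV (V (z (2 * a) w)) (β (z 0 w)))
        (fun a : Fin N => EV (V (z (2 * a) w)))) with hKVw
  have hagree : ∀ w, ¬ KVw w → ∀ a₀ a₁, a₀ + n ≤ N → a₁ + n ≤ N → κ ≤ dt a₀ w → κ ≤ dt a₁ w →
      CB (F (fr a₀ w) (β (z 0 w)) - F (fr a₁ w) (β (z 0 w))) t₁ := by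
    intro w hw a₀ a₁ h0 h1 d0 d1
    have h2 := hCf (fun a : Fin N => EV (V (z (2 * a) w)))
      (fun a : Fin N => bV (V (z (2 * a) w)) (β (z 0 w))) ε κ hκ0 (fun _ _ => hC.EV_le _ _)
      (fun _ => hC.bV_hom _ _) hw (fun k : Fin n => (⟨a₀ + k, by omega⟩ : Fin N))
      (fun k : Fin n => (⟨a₁ + k, by omega⟩ : Fin N))
      (by
        intro k k' hk
        rw [Fin.lt_def] at hk ⊢
        simp only
        omega)
      (by
        intro k k' hk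
        rw [Fin.lt_def] at hk ⊢
        simp only
        omega) d0 d1
    have e0 : F (fr a₀ w) (β (z 0 w)) = pot (j - 1) (fun k => EV (fr a₀ w k))
        (fun k => bV (fr a₀ w k) (β (z 0 w))) := by
      rw [hF]
      unfold FP
      rw [if_pos]
      exact d0
    have e1 : F (fr a₁ w) (β (z 0 w)) = pot (j - 1) (fun k => EV (fr a₁ w k))
        (fun k => bV (fr a₁ w k) (β (z 0 w))) := by
      rw [hF]
      unfold FP
      rw [if_pos]
      exact d1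
    rw [e0, e1]
    refine CB_mono h2 ?_
    rw [div_eq_mul_one_div, hκj, ht₁, hP]
    have h3 : Cf * ε * (2 ^ j * exp (n * j * θ)) ≤ Cf * ε * (2 ^ j * Λ) := by
      refine mul_le_mul_of_nonneg_left ?_ (by positivity)
      exact mul_le_mul_of_nonneg_left hexpn (by positivity)
    refine h3.trans (le_of_eq ?_)
    ring
  set Bd : W → Prop := fun w => (dt 0 w < κ ∨ dt 1 w < κ) ∨
    ((dt (0 + n) w < κ ∨ dt (1 + n) w < κ) ∨ KVw w) with hBd
  set η₁ : ℝ := 4 * n * η + η₀ with hη₁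
  have hBdp : Pb q Bd ≤ η₁ := by
    have f0 := frame_det hSPN hC hMC hC₀ hbig (a₀ := 0) (by omega)
    have f1 := frame_det hSPN hC hMC hC₀ hbig (a₀ := 1) (by omega)
    have f2 := frame_det hSPN hC hMC hC₀ hbig (a₀ := 0 + n) (by omega)
    have f3 := frame_det hSPN hC hMC hC₀ hbig (a₀ := 1 + n) (by omega)
    have h1 := Pb_or_le hq0 (Pb_or_le hq0 f0 f1) (Pb_or_le hq0 (Pb_or_le hq0 f2 f3) hKV)
    refine h1.trans (le_of_eq ?_)
    rw [hη₁]
    ring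
  have hgood : ∀ w, ¬ Bd w → (κ ≤ dt 0 w ∧ κ ≤ dt 1 w) ∧ (κ ≤ dt (0 + n) w ∧ κ ≤ dt (1 + n) w) ∧
      ¬ KVw w := by
    intro w hw
    simp only [hBd, not_or, not_lt] at hw
    exact hw
  have hβc := beta_const hMC hC.bk_β hC.g_β
  -- the form of the first leg of a frame
  have hfirst : ∀ a₀, a₀ + 2 * n ≤ N → ∀ w, 0 < q w → κ ≤ dt (a₀ + n) w → ∀ H : Pl n,
      H.totalDegree ≤ j → CB (F (fr (a₀ + n) w) (β (z 0 w)) - H) (2 * t₁) →
      CB (bV (V (z (2 * (a₀ + n)) w)) (β (z (2 * (a₀ + n)) w)) -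
        dD (EV (V (z (2 * (a₀ + n)) w))) H) t₂ := by
    intro a₀ ha w hw hd H hH hCB
    have e0 : F (fr (a₀ + n) w) (β (z 0 w)) = pot (j - 1) (fun k => EV (fr (a₀ + n) w k))
        (fun k => bV (fr (a₀ + n) w k) (β (z 0 w))) := by
      rw [hF]
      unfold FP
      rw [if_pos]
      exact hd
    have hdet : (Matrix.of fun k : Fin n => EV (fr (a₀ + n) w k)).det ≠ 0 := by
      intro h0
      have h1 : dt (a₀ + n) w = 0 := by
        simp only [hdt]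
        rw [h0, abs_zero]
      linarith only [hκ0, hd, h1]
    have h1 := first_leg (D := j - 1) (by omega : 0 < n) (E := fun k => EV (fr (a₀ + n) w k))
      (b := fun k => bV (fr (a₀ + n) w k) (β (z 0 w))) hdet
      (fun k => (hC.bV_hom _ _).totalDegree_le)
    rw [← e0] at h1
    have e2 : fr (a₀ + n) w ⟨0, by omega⟩ = V (z (2 * (a₀ + n)) w) := by
      simp only [hfr, Nat.add_zero]
    simp only [e2] at h1
    rw [← hβc w hw (2 * (a₀ + n)) (by omega)]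
    have h2 : CB (bV (V (z (2 * (a₀ + n)) w)) (β (z 0 w)) -
        dD (EV (V (z (2 * (a₀ + n)) w))) (F (fr (a₀ + n) w) (β (z 0 w)))) 0 := by
      rw [← h1, sub_self]
      intro k
      rw [MvPolynomial.coeff_zero, abs_zero]
    have h3 := CB_rep (hFd _ _) hH (hC.EV_le _) hCB h2
    rw [zero_add] at h3
    exact h3
  -- visibility
  have hvis : ∀ a₀, a₀ + 2 * n ≤ N → (∀ w, ¬ Bd w → κ ≤ dt a₀ w ∧ κ ≤ dt (a₀ + n) w) →
      ∃ Hf : B → Pl n, (∀ x, ∃ vs y, Hf x = F vs y) ∧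
      Pb q (fun w => ¬ CB (F (fr a₀ w) (β (z 0 w)) - Hf (bk (z (2 * (a₀ + n)) w))) t₁) ≤ η₁ ∧
      Pb p (fun ω => ¬ CB (bV (V ω) (β ω) - dD (EV (V ω)) (Hf (bk ω))) t₂) ≤ η₁ + η₁ := by
    intro a₀ ha hd
    obtain ⟨Hf, h1, h2⟩ := vis_lem (η := η₁) (t := t₁) hMC hC.bk_β hC.g_β hn ha F hFd ht₁0.le (by
      refine (Pb_mono hq0 ?_).trans hBdp
      intro w hw hCB
      by_contra hcon
      obtain ⟨_, _, hk⟩ := hgood w hcon
      exact hCB (hagree w hk a₀ (a₀ + n) (by omega) (by omega) (hd w hcon).1 (hd w hcon).2))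
    refine ⟨Hf, h1, h2, ?_⟩
    have h3 := Pool.Agent.H67.BFL.Pb_marg (hMC.marg (2 * (a₀ + n)) (by omega))
        (fun ω => ¬ CB (bV (V ω) (β ω) - dD (EV (V ω)) (Hf (bk ω))) t₂)
    rw [← h3]
    refine (Pb_mono hq0 ?_).trans (Pb_or_le hq0 hBdp h2)
    intro w hw hCB
    by_contra hcon
    rw [not_or, not_not] at hcon
    obtain ⟨c1, c2⟩ := hcon
    obtain ⟨_, _, hk⟩ := hgood w c1
    refine hCB (hfirst a₀ ha w hw (hd w c1).2 _ ?_ ?_)
    · obtain ⟨vs, y, e⟩ := h1 (bk (z (2 * (a₀ + n)) w))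
      rw [e]
      exact hFd _ _
    · have h5 := CB_tri (hagree w hk (a₀ + n) a₀ (by omega) (by omega) (hd w c1).2 (hd w c1).1) c2
      exact CB_mono h5 (by linarith only)
  obtain ⟨Hf1, h1a, h1b, h1c⟩ := hvis 0 (by omega) (fun w hw => ⟨(hgood w hw).1.1, (hgood w hw).2.1.1⟩)
  obtain ⟨Hf2, h2a, h2b, h2c⟩ := hvis 1 (by omega) (fun w hw => ⟨(hgood w hw).1.2, (hgood w hw).2.1.2⟩)
  have h1h : ∀ x, (Hf1 x).IsHomogeneous j := by
    intro x
    obtain ⟨vs, y, e⟩ := h1a x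
    rw [e]
    exact hFh _ _
  have h2h : ∀ x, (Hf2 x).IsHomogeneous j := by
    intro x
    obtain ⟨vs, y, e⟩ := h2a x
    rw [e]
    exact hFh _ _
  have h1C : ∀ x, CB (Hf1 x) CH := by
    intro x
    obtain ⟨vs, y, e⟩ := h1a x
    rw [e]
    exact hFC _ _
  have h2C : ∀ x, CB (Hf2 x) CH := by
    intro x
    obtain ⟨vs, y, e⟩ := h2a x
    rw [e]
    exact hFC _ _
  have h2mε : C₀ / 2 ^ m ≤ C₀ * ε := by
    have h3 : 1 / (2 : ℝ) ^ m ≤ 1 / 2 ^ U :=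
      one_div_le_one_div_of_le h2U (pow_le_pow_right₀ (by norm_num) hUm)
    calc C₀ / 2 ^ m = C₀ * (1 / 2 ^ m) := by ring
      _ ≤ C₀ * ε := mul_le_mul_of_nonneg_left (h3.trans hε) (by linarith only [hC₀])
  have hdl1 : n * (C₀ / 2 ^ m) * (j + 1) * CH ≤ dl := by
    rw [hdl]
    have h3 : n * (C₀ / 2 ^ m) * ((j : ℝ) + 1) * CH = (n * (j + 1) * CH) * (C₀ / 2 ^ m) := by ring
    have h4 : n * C₀ * ((j : ℝ) + 1) * CH * ε = (n * (j + 1) * CH) * (C₀ * ε) := by ring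
    rw [h3, h4]
    exact mul_le_mul_of_nonneg_left h2mε (by positivity)
  -- the two forms agree
  set Gf : B → Pl n := fun x => Hf1 x - Hf2 x with hGf
  have hGh : ∀ x, (Gf x).IsHomogeneous j := fun x => (h1h x).sub (h2h x)
  have hGC : ∀ x, CB (Gf x) (CH + CH) := fun x => CB_sub (h1C x) (h2C x)
  have hgrad : ∀ x, ∃ α : Fin n →₀ ℕ, ¬ CB (Gf x) t₄ →
      ∃ i, t₄ < |(MvPolynomial.pderiv i (Gf x)).coeff α| := by
    intro x
    by_cases hx : CB (Gf x) t₄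
    · exact ⟨0, fun h => absurd hx h⟩
    · obtain ⟨α, i, h⟩ := exists_grad hj (hGh x) ht₄0.le hx
      exact ⟨α, fun _ => ⟨i, h⟩⟩
  choose α hα using hgrad
  obtain ⟨e, he0, he1, he2⟩ := hC.span
  have hspan : Pb p (fun ω => ¬ CB (Gf (bk ω)) t₄) ≤ ((η₁ + η₁) + (η₁ + η₁)) + η := by
    have h3 := span_lem hC.isLaw bk e he0 (fun x => ¬ CB (Gf x) t₄)
      (fun ω => (¬ CB (bV (V ω) (β ω) - dD (EV (V ω)) (Hf1 (bk ω))) t₂) ∨
        (¬ CB (bV (V ω) (β ω) - dD (EV (V ω)) (Hf2 (bk ω))) t₂))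
      (fun x ω => |∑ i, (MvPolynomial.pderiv i (Gf x)).coeff (α x) / t₄ * E ω i| ≤ exp (-θ))
      (by
        intro ω hω hA
        obtain ⟨i, hi⟩ := hα (bk ω) hA
        refine he2 ω hω (fun i => (MvPolynomial.pderiv i (Gf (bk ω))).coeff (α (bk ω)) / t₄)
          ⟨i, ?_⟩
        rw [abs_div, abs_of_pos ht₄0, le_div_iff₀ ht₄0, one_mul]
        exact hi.le)
      (by
        intro ω hω hA hbad
        rw [not_or, not_not, not_not] at hbad
        obtain ⟨b1, b2⟩ := hbad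
        have h4 := CB_sub b2 b1
        rw [sub_sub_sub_cancel_left, ← dD_sub] at h4
        have h5 := CB_dD (E := fun i => E ω i - EV (V ω) i) (e := C₀ / 2 ^ m)
          (hGh (bk ω)).totalDegree_le (hGC (bk ω)) (fun i => by
            rw [abs_sub_comm]
            exact hC.EV_near ω hω i)
        rw [dD_sub_left] at h5
        have h6 := CB_add h5 h4
        have e6 : dD (E ω) (Gf (bk ω)) - dD (EV (V ω)) (Gf (bk ω)) +
            dD (EV (V ω)) (Hf1 (bk ω) - Hf2 (bk ω)) = dD (E ω) (Gf (bk ω)) :=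
          sub_add_cancel _ _
        rw [e6] at h6
        have h7 := h6 (α (bk ω))
        rw [coeff_dD] at h7
        have h8 : ∑ i, (MvPolynomial.pderiv i (Gf (bk ω))).coeff (α (bk ω)) / t₄ * E ω i =
            (∑ i, E ω i * (MvPolynomial.pderiv i (Gf (bk ω))).coeff (α (bk ω))) / t₄ := by
          rw [Finset.sum_div]
          refine Finset.sum_congr rfl fun i _ => ?_
          ring
        rw [h8, abs_div, abs_of_pos ht₄0, div_le_iff₀ ht₄0]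
        have h9 : exp (-θ) * t₄ = t₃ := by
          rw [ht₄, mul_comm, mul_assoc, ← Real.exp_add]
          simp
        rw [h9]
        refine h7.trans ?_
        rw [ht₃]
        have h10 : n * (C₀ / 2 ^ m) * ((j : ℝ) + 1) * (CH + CH) =
            2 * (n * (C₀ / 2 ^ m) * (j + 1) * CH) := by ring
        rw [h10]
        linarith only [hdl1])
    refine h3.trans ?_
    exact add_le_add (Pb_or_le hp0 h1c h2c) he1
  -- conclusion
  have hP3 : 3 * t₁ + t₄ ≤ A * Λ ^ 2 * ε := by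
    have e3 : t₃ = P * ε * a₃ := by
      rw [ht₃, ht₂, hdl, ht₁, hCH, ha₃]
      ring
    have h3 : t₄ ≤ P * ε * a₃ * Λ := by
      rw [ht₄, e3]
      exact mul_le_mul_of_nonneg_left hexpθ (by positivity)
    have h4 : 3 * t₁ ≤ 3 * Cf * P * ε * Λ := by
      have : 3 * t₁ = 3 * Cf * P * ε * 1 := by
        rw [ht₁]
        ring
      rw [this]
      exact mul_le_mul_of_nonneg_left hΛ1 (by positivity)
    have h5 : A * Λ ^ 2 * ε = Λ ^ 2 * ε + (3 * Cf * P * ε * Λ + P * ε * a₃ * Λ + Cp * P * ε * Λ) := by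
      rw [hA, hP]
      ring
    rw [h5]
    have h6 : 0 ≤ Λ ^ 2 * ε := by positivity
    have h7 : 0 ≤ Cp * P * ε * Λ := by positivity
    linarith only [h3, h4, h6, h7]
  have hP4 : t₂ + dl ≤ A * Λ ^ 2 * ε := by
    have e3 : t₃ = P * ε * a₃ := by
      rw [ht₃, ht₂, hdl, ht₁, hCH, ha₃]
      ring
    have h3 : t₃ ≤ t₄ := by
      rw [ht₄]
      exact le_mul_of_one_le_right ht₃0 (one_le_exp hθ)
    have h4 : t₂ + dl ≤ t₃ := by
      rw [ht₃]
      linarith only [ht₃p]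
    linarith only [ht₁0, ht₄0, hP3, h3]
  refine ⟨Hf1, h1h, fun x => CB_mono (h1C x) ?_, ?_⟩
  · rw [hCH, hP, hA]
    have h3 : 0 ≤ Λ + 2 ^ j * (3 * Cf + a₃) * Λ := by positivity
    nlinarith only [h3]
  · have hlt : 2 * (0 + n) < 2 * N - 1 := by omega
    have h3 := hMC.pair (2 * (0 + n)) hlt (fun ω ω' => ¬ (
        CB (Hf1 (bk ω) - Hf1 (bk ω')) (A * Λ ^ 2 * ε) ∧
        CB (bV (V ω) (β ω) - dD (E ω) (Hf1 (bk ω))) (A * Λ ^ 2 * ε) ∧
        Trn m C₀ (exp θ / 2 ^ U) bk β V tm Y E T bV ω ω'))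
    rw [P2_alt g bk (by omega)] at h3
    rw [← h3]
    have h4 := hMC.pair (2 * (0 + n)) hlt
      (fun ω ω' => ¬ Trn m C₀ (exp θ / 2 ^ U) bk β V tm Y E T bV ω ω')
    rw [P2_alt g bk (by omega)] at h4
    have h5 : Pb q (fun w => ¬ Trn m C₀ (exp θ / 2 ^ U) bk β V tm Y E T bV (z (2 * (0 + n)) w)
        (z (2 * (0 + n) + 1) w)) ≤ η := by
      rw [h4]
      exact hC.transport
    have h6 := Pool.Agent.H67.BFL.Pb_marg (hMC.marg (2 * (0 + n) + 1) (by omega))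
        (fun ω => ¬ CB (Gf (bk ω)) t₄)
    rw [← h6] at hspan
    have h7 := Pool.Agent.H67.BFL.Pb_marg (hMC.marg (2 * (0 + n)) (by omega))
        (fun ω => ¬ CB (bV (V ω) (β ω) - dD (EV (V ω)) (Hf1 (bk ω))) t₂)
    rw [← h7] at h1c
    have h8 := Pb_or_le hq0 (Pb_or_le hq0 h5 hspan) (Pb_or_le hq0 (Pb_or_le hq0 hBdp h1b)
      (Pb_or_le hq0 h2b h1c))
    refine le_trans (Pb_mono hq0 ?_) (h8.trans (le_of_eq ?_))
    · intro w hw hnot
      by_contra hcon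
      obtain ⟨i1, i2⟩ := not_or.mp hcon
      obtain ⟨i3, i4⟩ := not_or.mp i1
      obtain ⟨i5, i6⟩ := not_or.mp i2
      obtain ⟨c3, i7⟩ := not_or.mp i5
      obtain ⟨i8, i9⟩ := not_or.mp i6
      have c1 := not_not.mp i3
      have c2 := not_not.mp i4
      have c4 := not_not.mp i7
      have c5 := not_not.mp i8
      have c6 := not_not.mp i9
      refine hnot ⟨?_, ?_, c1⟩
      · obtain ⟨⟨d0, d1⟩, _, hk⟩ := hgood w c3
        have k1 := hagree w hk 0 1 (by omega) (by omega) d0 d1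
        have k2 : bk (z (2 * (1 + n)) w) = bk (z (2 * (0 + n) + 1) w) := by
          have h9 := same_bk hMC hw (i := 2 * (0 + n) + 1) (by omega) (by omega)
          rw [h9]
          congr 2
          ring
        rw [k2] at c5
        have k4 : CB (Hf2 (bk (z (2 * (0 + n) + 1) w)) - Hf1 (bk (z (2 * (0 + n) + 1) w))) t₄ :=
          CB_symm c2
        have k3 := CB_tri (CB_tri (CB_tri (CB_symm c4) k1) c5) k4
        exact CB_mono k3 (by linarith only [hP3])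
      · have k1 := CB_dir (E' := E (z (2 * (0 + n)) w)) (e := C₀ / 2 ^ m) (h1h _).totalDegree_le
          (h1C (bk (z (2 * (0 + n)) w))) (fun i => hC.EV_near _
            ((hMC.marg (2 * (0 + n)) (by omega)).pos hq0 hw) i) c6
        exact CB_mono k1 (by linarith only [hdl1, hP4])
    · rw [hη₁]
      ring

end Pool.Agent.H39.BFL
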