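import Pool.Agent.H39.BFL.VisL

/-!
# The height at the end of a typical walk
-/

set_option autoImplicit false

namespace Pool.Agent.H39.BFL

open Finset Real
open Pool.Agent.H49.Ent Pool.Agent.H32.Dense Pool.STK Pool.KS3 Pool.BFL

/-- Transport of the Taylor polynomial along one leg. -/
def Trn {n : ℕ} {Ω B 𝔅 𝒱 : Type} (m : ℕ) (C₀ e : ℝ) (bk : Ω → B) (β : Ω → 𝔅) (V : Ω → 𝒱)
    (tm : Ω → ℤ) (Y E : Ω → Fin n → ℝ) (T : B → Pl n) (bV : 𝒱 → 𝔅 → Pl n) (ω ω' : Ω) : Prop :=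
  ∀ x : Fin n → ℝ, (∀ i, |x i| ≤ C₀) →
    |MvPolynomial.eval x (T (bk ω')) - MvPolynomial.eval x (T (bk ω)) -
      lg (bV (V ω) (β ω)) (Y ω) (E ω) (((tm ω' - tm ω : ℤ) : ℝ) / 2 ^ m) x| ≤ e

/-- The base point at the end of the walk. -/
lemma base_det {n N : ℕ} (hN : 1 ≤ N) {Ω G B 𝔅 𝒱 : Type} [Fintype Ω] {j U m : ℕ} {c C₀ θ η : ℝ}
    {p : Ω → ℝ} {g : Ω → G} {bk : Ω → B} {β : Ω → 𝔅} {V : Ω → 𝒱} {tm : Ω → ℤ}
    {Y E : Ω → Fin n → ℝ} {yc : Ω → Fin n → ℤ} {hgt : Ω → ℝ} {T : B → Pl n}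
    {bV : 𝒱 → 𝔅 → Pl n} {EV : 𝒱 → Fin n → ℝ}
    (hC : Core j U m c C₀ θ η p g bk β V tm Y E yc hgt T bV EV) (o : ℕ → Ω)
    (hg : ∀ a < N, g (o (2 * a)) = g (o (2 * a + 1)))
    (hb : ∀ a, a + 1 < N → bk (o (2 * a + 1)) = bk (o (2 * a + 2)))
    (hpos : ∀ i ≤ 2 * N - 1, 0 < p (o i)) (i : Fin n) :
    |(yc (o (2 * N - 1)) i : ℝ) - 2 ^ m * Y (o 0) i -
      ∑ a : Fin N, ((tm (o (2 * a + 1)) - tm (o (2 * a)) : ℤ) : ℝ) * EV (V (o (2 * a))) i| ≤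
      (3 * N + 1) * C₀ := by
  have h2m : (0 : ℝ) < 2 ^ m := by positivity
  set f : ℕ → ℝ := fun a => ((tm (o (2 * a + 1)) - tm (o (2 * a)) : ℤ) : ℝ) *
    EV (V (o (2 * a))) i with hf
  -- one leg
  have hleg : ∀ a < N, |2 ^ m * Y (o (2 * a + 1)) i - 2 ^ m * Y (o (2 * a)) i - f a| ≤ 2 * C₀ := by
    intro a ha
    have h1 := hC.Y_g _ _ (hg a ha) i
    have h2 := hC.tm_g _ _ (hg a ha)
    have h3 := hC.EV_near (o (2 * a)) (hpos _ (by omega)) i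
    set τ : ℤ := tm (o (2 * a + 1)) - tm (o (2 * a)) with hτ
    have h4 : |(τ : ℝ)| ≤ 2 ^ m := by
      have : ((|τ| : ℤ) : ℝ) ≤ ((2 ^ m : ℤ) : ℝ) := by exact_mod_cast h2
      push_cast at this
      exact this
    have e : 2 ^ m * Y (o (2 * a + 1)) i - 2 ^ m * Y (o (2 * a)) i - f a =
        2 ^ m * (Y (o (2 * a + 1)) i - Y (o (2 * a)) i - (τ : ℝ) / 2 ^ m * E (o (2 * a)) i) -
          (τ : ℝ) * (EV (V (o (2 * a))) i - E (o (2 * a)) i) := by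
      simp only [hf]
      rw [← hτ]
      field_simp
      ring
    rw [e]
    refine (abs_sub _ _).trans ?_
    rw [abs_mul, abs_mul, abs_of_pos h2m]
    have h5 : 2 ^ m * |Y (o (2 * a + 1)) i - Y (o (2 * a)) i - (τ : ℝ) / 2 ^ m * E (o (2 * a)) i| ≤
        2 ^ m * (C₀ / 2 ^ m) := mul_le_mul_of_nonneg_left h1 h2m.le
    have h6 : |(τ : ℝ)| * |EV (V (o (2 * a))) i - E (o (2 * a)) i| ≤ 2 ^ m * (C₀ / 2 ^ m) :=
      mul_le_mul h4 h3 (abs_nonneg _) h2m.le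
    have h7 : (2 : ℝ) ^ m * (C₀ / 2 ^ m) = C₀ := by field_simp
    rw [h7] at h5 h6
    linarith
  have hC0 : 0 ≤ C₀ := by
    have := hC.E_le (o 0) i
    exact (abs_nonneg _).trans this
  -- all the legs
  have hall : ∀ a < N, |2 ^ m * Y (o (2 * a + 1)) i - 2 ^ m * Y (o 0) i -
      ∑ k ∈ range (a + 1), f k| ≤ 3 * (a + 1) * C₀ := by
    intro a
    induction a with
    | zero =>
      intro h0
      have h1 := hleg 0 h0
      simp only [Nat.mul_zero, Nat.zero_add] at h1 ⊢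
      rw [Finset.sum_range_one]
      refine h1.trans ?_
      push_cast
      linarith
    | succ a ih =>
      intro ha
      have h1 := ih (by omega)
      have h2 := hleg (a + 1) ha
      have h3 := hC.Y_bk _ _ (hb a ha) i
      have e0 : 2 * (a + 1) = 2 * a + 2 := by ring
      rw [e0] at h2 ⊢
      rw [Finset.sum_range_succ]
      have e : 2 ^ m * Y (o (2 * a + 2 + 1)) i - 2 ^ m * Y (o 0) i -
          (∑ k ∈ range (a + 1), f k + f (a + 1)) =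
          (2 ^ m * Y (o (2 * a + 1)) i - 2 ^ m * Y (o 0) i - ∑ k ∈ range (a + 1), f k) +
          2 ^ m * (Y (o (2 * a + 2)) i - Y (o (2 * a + 1)) i) +
          (2 ^ m * Y (o (2 * a + 2 + 1)) i - 2 ^ m * Y (o (2 * a + 2)) i - f (a + 1)) := by ring
      rw [e]
      refine (abs_add_three _ _ _).trans ?_
      rw [abs_mul, abs_of_pos h2m]
      have h5 : 2 ^ m * |Y (o (2 * a + 2)) i - Y (o (2 * a + 1)) i| ≤ 2 ^ m * (C₀ / 2 ^ m) :=
        mul_le_mul_of_nonneg_left h3 h2m.le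
      have h7 : (2 : ℝ) ^ m * (C₀ / 2 ^ m) = C₀ := by field_simp
      rw [h7] at h5
      push_cast
      linarith
  have h1 := hall (N - 1) (by omega)
  have e1 : 2 * (N - 1) + 1 = 2 * N - 1 := by omega
  have e2 : N - 1 + 1 = N := by omega
  rw [e1, e2] at h1
  have e3 : ((N - 1 : ℕ) : ℝ) + 1 = N := by
    have : ((N - 1 + 1 : ℕ) : ℝ) = N := by rw [e2]
    push_cast at this
    exact this
  rw [e3] at h1
  have h2 := hC.yc_near (o (2 * N - 1)) i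
  have e4 : ∑ a : Fin N, ((tm (o (2 * a + 1)) - tm (o (2 * a)) : ℤ) : ℝ) * EV (V (o (2 * a))) i =
      ∑ k ∈ range N, f k := (Fin.sum_univ_eq_sum_range f N)
  rw [e4]
  have e : (yc (o (2 * N - 1)) i : ℝ) - 2 ^ m * Y (o 0) i - ∑ k ∈ range N, f k =
      ((yc (o (2 * N - 1)) i : ℝ) - 2 ^ m * Y (o (2 * N - 1)) i) +
      (2 ^ m * Y (o (2 * N - 1)) i - 2 ^ m * Y (o 0) i - ∑ k ∈ range N, f k) := by ring
  rw [e]
  refine (abs_add_le _ _).trans ?_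
  linarith

/-- The height at the end of the walk. -/
lemma height_det (n N j : ℕ) (hN : 1 ≤ N) (C₀ : ℝ) (hC₀ : 1 ≤ C₀) : ∃ A : ℝ, 1 ≤ A ∧
    ∀ {Ω G B 𝔅 𝒱 : Type} [Fintype Ω] {U m : ℕ} {c θ η : ℝ}
    {p : Ω → ℝ} {g : Ω → G} {bk : Ω → B} {β : Ω → 𝔅} {V : Ω → 𝒱} {tm : Ω → ℤ}
    {Y E : Ω → Fin n → ℝ} {yc : Ω → Fin n → ℤ} {hgt : Ω → ℝ} {T : B → Pl n}
    {bV : 𝒱 → 𝔅 → Pl n} {EV : 𝒱 → Fin n → ℝ}
    (_ : Core j U m c C₀ θ η p g bk β V tm Y E yc hgt T bV EV) (o : ℕ → Ω)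
    (_ : ∀ a < N, g (o (2 * a)) = g (o (2 * a + 1)))
    (_ : ∀ a, a + 1 < N → bk (o (2 * a + 1)) = bk (o (2 * a + 2)))
    (_ : ∀ i ≤ 2 * N - 1, 0 < p (o i)) (_ : ∀ i ≤ 2 * N - 1, β (o 0) = β (o i))
    (_ : 0 ≤ θ) (_ : 2 * C₀ ≤ 2 ^ m) (_ : U ≤ m)
    (_ : ∀ a < N, Trn m C₀ (exp θ / 2 ^ U) bk β V tm Y E T bV (o (2 * a)) (o (2 * a + 1)))
    (_ : |hgt (o (2 * N - 1)) - MvPolynomial.eval (Y (o (2 * N - 1))) (T (bk (o (2 * N - 1))))| ≤
      exp θ / 2 ^ U),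
    |hgt (o (2 * N - 1)) -
      MvPolynomial.eval (fun i => (yc (o (2 * N - 1)) i : ℝ) / 2 ^ m) (T (bk (o 0))) -
      Qw (fun a : Fin N => bV (V (o (2 * a))) (β (o 0))) (fun a : Fin N => EV (V (o (2 * a))))
        (fun a : Fin N => ((tm (o (2 * a + 1)) - tm (o (2 * a)) : ℤ) : ℝ) / 2 ^ m)| ≤
      A * (exp θ / 2 ^ U) := by
  obtain ⟨C, hC1, hTRN⟩ := Pool.Agent.H1.BFL.trn_thm n N j C₀ hC₀
  obtain ⟨L, hL0, hL⟩ := lg_lip n j C₀ hC₀
  refine ⟨2 + C * (1 + L * C₀ + 2 * C₀), by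
    have : 0 ≤ C * (1 + L * C₀ + 2 * C₀) := by positivity
    linarith, ?_⟩
  intro Ω G B 𝔅 𝒱 _ U m c θ η p g bk β V tm Y E yc hgt T bV EV hC o hg hb hpos hβ hθ hm hUm hTr hH
  have h2m : (0 : ℝ) < 2 ^ m := by positivity
  have h2U : (0 : ℝ) < 2 ^ U := by positivity
  have hUm' : (2 : ℝ) ^ U ≤ 2 ^ m := pow_le_pow_right₀ (by norm_num) hUm
  have her : 1 ≤ exp θ := one_le_exp hθ
  set Ts : ℕ → Pl n := fun a => if a = 0 then T (bk (o 0)) else T (bk (o (2 * a - 1))) with hTs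
  have hTs1 : ∀ a, Ts (a + 1) = T (bk (o (2 * a + 1))) := by
    intro a
    simp only [hTs]
    rw [if_neg (by omega)]
    have : 2 * (a + 1) - 1 = 2 * a + 1 := by omega
    rw [this]
  have hTs2 : ∀ a < N, Ts a = T (bk (o (2 * a))) := by
    intro a ha
    cases a with
    | zero =>
      simp only [hTs, if_true]
    | succ a =>
      rw [hTs1, hb a ha, Nat.mul_add]
  have hs1 : ∀ a < N, |((tm (o (2 * a + 1)) - tm (o (2 * a)) : ℤ) : ℝ) / 2 ^ m| ≤ 1 := by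
    intro a ha
    have h2 := hC.tm_g _ _ (hg a ha)
    have h4 : |((tm (o (2 * a + 1)) - tm (o (2 * a)) : ℤ) : ℝ)| ≤ 2 ^ m := by
      have : ((|tm (o (2 * a + 1)) - tm (o (2 * a))| : ℤ) : ℝ) ≤ ((2 ^ m : ℤ) : ℝ) := by
        exact_mod_cast h2
      push_cast at this ⊢
      exact this
    rw [abs_div, abs_of_pos h2m, div_le_one h2m]
    exact h4
  have hbd : ∀ v x, (bV v x).totalDegree ≤ j := fun v x =>
    (hC.bV_hom v x).totalDegree_le.trans (by omega)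
  have key := hTRN (fun a : Fin N => Y (o (2 * a))) (fun a : Fin N => Y (o (2 * a + 1)))
    (fun a : Fin N => EV (V (o (2 * a))))
    (fun a : Fin N => ((tm (o (2 * a + 1)) - tm (o (2 * a)) : ℤ) : ℝ) / 2 ^ m) Ts
    (fun a : Fin N => bV (V (o (2 * a))) (β (o 0)))
    (exp θ / 2 ^ U + L * exp θ * (C₀ / 2 ^ m)) (2 * C₀ / 2 ^ m) (exp θ) (by omega)
    (by positivity) (by positivity) (by rw [div_le_one h2m]; exact hm) her
    (fun a i => hC.Y_le _ i) (fun a i => hC.Y_le _ i) (fun a i => hC.EV_le _ i)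
    (fun a => hs1 a a.2) (fun a => hbd _ _) (fun a => hC.bV_le _ _)
    (fun a i => by
      have h1 := hC.Y_g _ _ (hg a a.2) i
      have h3 := hC.EV_near (o (2 * a)) (hpos _ (by have := a.2; omega)) i
      have h4 := hs1 a a.2
      set s := ((tm (o (2 * a + 1)) - tm (o (2 * a)) : ℤ) : ℝ) / 2 ^ m with hs
      have e : Y (o (2 * a + 1)) i - Y (o (2 * a)) i - s * EV (V (o (2 * a))) i =
          (Y (o (2 * a + 1)) i - Y (o (2 * a)) i - s * E (o (2 * a)) i) -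
            s * (EV (V (o (2 * a))) i - E (o (2 * a)) i) := by ring
      rw [e]
      refine (abs_sub _ _).trans ?_
      rw [abs_mul]
      have h5 : |s| * |EV (V (o (2 * a))) i - E (o (2 * a)) i| ≤ 1 * (C₀ / 2 ^ m) :=
        mul_le_mul h4 h3 (abs_nonneg _) zero_le_one
      have e2 : 2 * C₀ / 2 ^ m = C₀ / 2 ^ m + C₀ / 2 ^ m := by ring
      rw [e2]
      linarith)
    (fun a a' haa i => by
      have h3 := hC.Y_bk _ _ (hb a (by have := a'.2; omega)) i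
      have e0 : 2 * (a' : ℕ) = 2 * a + 2 := by omega
      rw [e0]
      refine h3.trans ?_
      have : 0 ≤ C₀ / 2 ^ m := by positivity
      have e2 : 2 * C₀ / 2 ^ m = C₀ / 2 ^ m + C₀ / 2 ^ m := by ring
      linarith)
    (fun a x' hx' => by
      have h1 := hTr a a.2 x' hx'
      rw [hTs1, hTs2 a a.2]
      have h2 := hL (bV (V (o (2 * a))) (β (o 0))) (Y (o (2 * a))) (E (o (2 * a)))
        (EV (V (o (2 * a)))) (((tm (o (2 * a + 1)) - tm (o (2 * a)) : ℤ) : ℝ) / 2 ^ m) x'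
        (exp θ) (C₀ / 2 ^ m) (hbd _ _) (hC.bV_le _ _) (hC.Y_le _) (hC.E_le _) (hC.EV_le _)
        (hs1 a a.2) hx' (by positivity) (fun i => by
          rw [abs_sub_comm]
          exact hC.EV_near (o (2 * a)) (hpos _ (by have := a.2; omega)) i)
      rw [← hβ (2 * a) (by have := a.2; omega)] at h1
      have e : ∀ u v w w' : ℝ, u - v - w' = (u - v - w) + (w - w') := fun _ _ _ _ => by ring
      rw [e _ _ (lg (bV (V (o (2 * a))) (β (o 0))) (Y (o (2 * a))) (E (o (2 * a)))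
        (((tm (o (2 * a + 1)) - tm (o (2 * a)) : ℤ) : ℝ) / 2 ^ m) x')]
      exact (abs_add_le _ _).trans (add_le_add h1 h2))
  have hlast : 2 * (N - 1) + 1 = 2 * N - 1 := by omega
  have hTN : Ts N = T (bk (o (2 * N - 1))) := by
    obtain ⟨k, rfl⟩ : ∃ k, N = k + 1 := ⟨N - 1, by omega⟩
    rw [hTs1]
    rfl
  have hT0 : Ts 0 = T (bk (o 0)) := by simp only [hTs, if_true]
  simp only [hTN, hT0, hlast] at key
  -- Lipschitz
  have hyc : ∀ i, |(yc (o (2 * N - 1)) i : ℝ) / 2 ^ m - Y (o (2 * N - 1)) i| ≤ C₀ / 2 ^ m := by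
    intro i
    have h1 := hC.yc_near (o (2 * N - 1)) i
    have e : (yc (o (2 * N - 1)) i : ℝ) / 2 ^ m - Y (o (2 * N - 1)) i =
        ((yc (o (2 * N - 1)) i : ℝ) - 2 ^ m * Y (o (2 * N - 1)) i) / 2 ^ m := by
      field_simp
    rw [e, abs_div, abs_of_pos h2m]
    exact div_le_div_of_nonneg_right h1 h2m.le
  have hC2m : C₀ / 2 ^ m ≤ C₀ := by
    refine div_le_self (by linarith) ?_
    linarith
  have h3 := hC.T_lip (bk (o 0)) (fun i => (yc (o (2 * N - 1)) i : ℝ) / 2 ^ m)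
    (Y (o (2 * N - 1))) (fun i => by
      have h1 := hyc i
      have h2 := hC.Y_le (o (2 * N - 1)) i
      have e : (yc (o (2 * N - 1)) i : ℝ) / 2 ^ m =
        ((yc (o (2 * N - 1)) i : ℝ) / 2 ^ m - Y (o (2 * N - 1)) i) + Y (o (2 * N - 1)) i := by ring
      rw [e]
      refine (abs_add_le _ _).trans ?_
      linarith) (fun i => by
      have h2 := hC.Y_le (o (2 * N - 1)) i
      linarith) (fun i => by
      refine (hyc i).trans ?_
      refine div_le_div_of_nonneg_right ?_ h2m.le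
      linarith)
  have e : ∀ a b c d k : ℝ, a - b - k = (a - c) - (b - d) + (c - d - k) := fun _ _ _ _ _ => by ring
  rw [e _ _ (MvPolynomial.eval (Y (o (2 * N - 1))) (T (bk (o (2 * N - 1)))))
    (MvPolynomial.eval (Y (o (2 * N - 1))) (T (bk (o 0))))]
  refine (abs_add_le _ _).trans ((add_le_add (abs_sub _ _) key).trans ?_)
  have hee : exp θ * (2 * C₀ / 2 ^ m) ≤ 2 * C₀ * (exp θ / 2 ^ U) := by
    have h6 : exp θ / 2 ^ m ≤ exp θ / 2 ^ U :=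
      div_le_div_of_nonneg_left (exp_pos θ).le h2U hUm'
    have h7 : 2 * C₀ * (exp θ / 2 ^ m) ≤ 2 * C₀ * (exp θ / 2 ^ U) :=
      mul_le_mul_of_nonneg_left h6 (by linarith)
    calc exp θ * (2 * C₀ / 2 ^ m) = 2 * C₀ * (exp θ / 2 ^ m) := by ring
      _ ≤ _ := h7
  have hee2 : L * exp θ * (C₀ / 2 ^ m) ≤ L * C₀ * (exp θ / 2 ^ U) := by
    have h6 : exp θ / 2 ^ m ≤ exp θ / 2 ^ U :=
      div_le_div_of_nonneg_left (exp_pos θ).le h2U hUm'
    calc L * exp θ * (C₀ / 2 ^ m) = L * C₀ * (exp θ / 2 ^ m) := by ring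
      _ ≤ _ := mul_le_mul_of_nonneg_left h6 (by positivity)
  have h8 : C * (exp θ / 2 ^ U + L * exp θ * (C₀ / 2 ^ m) + exp θ * (2 * C₀ / 2 ^ m)) ≤
      C * ((1 + L * C₀ + 2 * C₀) * (exp θ / 2 ^ U)) := by
    refine mul_le_mul_of_nonneg_left ?_ (by linarith)
    nlinarith
  nlinarith

end Pool.Agent.H39.BFL
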