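import Pool.Agent.H19.BFL.Stmts
import Pool.Agent.H36.KBX.Coef

/-!
# The height of the walk as a polynomial in the lengths of the legs
-/

set_option autoImplicit false

namespace Pool.Agent.H39.BFL

open Finset
open Pool.BFL

/-- Primitive in the variable `a`. -/
noncomputable def prim {N : ℕ} (a : Fin N) (F : Pl N) : Pl N :=
  ∑ α ∈ F.support, MvPolynomial.monomial (α + Finsupp.single a 1) (F.coeff α / ((α a : ℝ) + 1))

lemma prim_eval {N : ℕ} (a : Fin N) (F : Pl N) (σ : Fin N → ℝ) :
    MvPolynomial.eval σ (prim a F) =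
      ∫ τ in (0 : ℝ)..(σ a), MvPolynomial.eval (Function.update σ a τ) F := by
  classical
  have h1 : ∀ τ : ℝ, MvPolynomial.eval (Function.update σ a τ) F =
      ∑ α ∈ F.support, (F.coeff α * ∏ c ∈ univ.erase a, σ c ^ α c) * τ ^ α a := by
    intro τ
    rw [MvPolynomial.eval_eq']
    refine Finset.sum_congr rfl fun α _ => ?_
    rw [← Finset.mul_prod_erase univ _ (Finset.mem_univ a), Function.update_self]
    have h2 : ∏ c ∈ univ.erase a, Function.update σ a τ c ^ α c =
        ∏ c ∈ univ.erase a, σ c ^ α c := by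
      refine Finset.prod_congr rfl fun c hc => ?_
      rw [Function.update_of_ne (Finset.ne_of_mem_erase hc)]
    rw [h2]
    ring
  rw [intervalIntegral.integral_congr (g := fun τ : ℝ => ∑ α ∈ F.support,
    (F.coeff α * ∏ c ∈ univ.erase a, σ c ^ α c) * τ ^ α a) fun τ _ => h1 τ]
  rw [intervalIntegral.integral_finsetSum fun α _ =>
    (Continuous.intervalIntegrable (by fun_prop) _ _)]
  unfold prim
  rw [map_sum]
  refine Finset.sum_congr rfl fun α _ => ?_
  rw [intervalIntegral.integral_const_mul, integral_pow, MvPolynomial.eval_monomial,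
    Finsupp.prod_fintype _ _ (fun i => pow_zero _),
    ← Finset.mul_prod_erase univ _ (Finset.mem_univ a)]
  have h2 : ∏ c ∈ univ.erase a, σ c ^ (α + Finsupp.single a 1 : Fin N →₀ ℕ) c =
      ∏ c ∈ univ.erase a, σ c ^ α c := by
    refine Finset.prod_congr rfl fun c hc => ?_
    rw [Finsupp.add_apply, Finsupp.single_eq_of_ne (Finset.ne_of_mem_erase hc), add_zero]
  have h3 : (α + Finsupp.single a 1 : Fin N →₀ ℕ) a = α a + 1 := by
    rw [Finsupp.add_apply, Finsupp.single_eq_same]
  rw [h2, h3, zero_pow (by omega), sub_zero]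
  ring

lemma prim_degree {N : ℕ} (a : Fin N) (F : Pl N) : (prim a F).totalDegree ≤ F.totalDegree + 1 := by
  classical
  unfold prim
  refine MvPolynomial.totalDegree_finsetSum_le fun α hα => ?_
  refine (MvPolynomial.totalDegree_monomial_le _ _).trans ?_
  rw [Finsupp.sum_add_index' (fun _ => rfl) (fun _ _ _ => rfl), Finsupp.sum_single_index rfl]
  exact Nat.add_le_add_right (MvPolynomial.le_totalDegree hα) 1

/-- The linear forms of the leg `a`. -/
noncomputable def legL {n N : ℕ} (E : Fin N → Fin n → ℝ) (a : Fin N) (i : Fin n) : Pl N :=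
  MvPolynomial.C (E a i) * MvPolynomial.X a +
    ∑ c ∈ univ.filter (a < ·), MvPolynomial.C (E c i) * MvPolynomial.X c

lemma legL_degree {n N : ℕ} (E : Fin N → Fin n → ℝ) (a : Fin N) (i : Fin n) :
    (legL E a i).totalDegree ≤ 1 := by
  have h1 : ∀ (e : ℝ) (c : Fin N), (MvPolynomial.C e * MvPolynomial.X c : Pl N).totalDegree ≤ 1 := by
    intro e c
    refine (MvPolynomial.totalDegree_mul _ _).trans ?_
    rw [MvPolynomial.totalDegree_C, MvPolynomial.totalDegree_X]
  unfold legL
  refine (MvPolynomial.totalDegree_add _ _).trans (max_le (h1 _ _) ?_)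
  exact MvPolynomial.totalDegree_finsetSum_le fun c _ => h1 _ _

/-- The form of the leg `a` at the displacement of the legs from `a` on. -/
noncomputable def legF {n N : ℕ} (b : Pl n) (E : Fin N → Fin n → ℝ) (a : Fin N) : Pl N :=
  ∑ α ∈ b.support, MvPolynomial.C (b.coeff α) * ∏ i, legL E a i ^ α i

lemma legF_degree {n N D : ℕ} {b : Pl n} (hb : b.totalDegree ≤ D) (E : Fin N → Fin n → ℝ)
    (a : Fin N) : (legF b E a).totalDegree ≤ D := by
  unfold legF
  refine MvPolynomial.totalDegree_finsetSum_le fun α hα => ?_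
  refine (MvPolynomial.totalDegree_mul _ _).trans ?_
  rw [MvPolynomial.totalDegree_C, zero_add]
  refine (MvPolynomial.totalDegree_finsetProd _ _).trans ?_
  have h1 : ∀ i ∈ (univ : Finset (Fin n)), (legL E a i ^ α i).totalDegree ≤ α i := by
    intro i _
    refine (MvPolynomial.totalDegree_pow _ _).trans ?_
    have := legL_degree E a i
    calc α i * (legL E a i).totalDegree ≤ α i * 1 := Nat.mul_le_mul_left _ this
      _ = α i := Nat.mul_one _
  refine (Finset.sum_le_sum h1).trans ?_
  have h2 := MvPolynomial.le_totalDegree hα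
  rw [Finsupp.sum_fintype _ _ (fun _ => rfl)] at h2
  exact h2.trans hb

lemma legF_eval {n N : ℕ} (b : Pl n) (E : Fin N → Fin n → ℝ) (a : Fin N) (σ : Fin N → ℝ) (τ : ℝ) :
    MvPolynomial.eval (Function.update σ a τ) (legF b E a) =
      MvPolynomial.eval (fun i => τ * E a i + ∑ c ∈ univ.filter (a < ·), σ c * E c i) b := by
  unfold legF
  rw [map_sum, MvPolynomial.eval_eq']
  refine Finset.sum_congr rfl fun α _ => ?_
  rw [map_mul, MvPolynomial.eval_C, map_prod]
  congr 1
  refine Finset.prod_congr rfl fun i _ => ?_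
  rw [map_pow]
  congr 1
  unfold legL
  rw [map_add, map_mul, MvPolynomial.eval_C, MvPolynomial.eval_X, map_sum, Function.update_self,
    mul_comm]
  congr 1
  refine Finset.sum_congr rfl fun c hc => ?_
  rw [map_mul, MvPolynomial.eval_C, MvPolynomial.eval_X,
    Function.update_of_ne (ne_of_gt (Finset.mem_filter.mp hc).2), mul_comm]

/-- The height of the walk as a polynomial in the lengths. -/
noncomputable def QP {n N : ℕ} (b : Fin N → Pl n) (E : Fin N → Fin n → ℝ) : Pl N :=
  ∑ a, prim a (legF (b a) E a)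

theorem QP_eval {n N : ℕ} (b : Fin N → Pl n) (E : Fin N → Fin n → ℝ) (σ : Fin N → ℝ) :
    MvPolynomial.eval σ (QP b E) = Qw b E σ := by
  unfold QP Qw
  rw [map_sum]
  refine Finset.sum_congr rfl fun a _ => ?_
  rw [prim_eval]
  refine intervalIntegral.integral_congr fun τ _ => ?_
  exact legF_eval (b a) E a σ τ

theorem QP_degree {n N D : ℕ} {b : Fin N → Pl n} (hb : ∀ a, (b a).totalDegree ≤ D)
    (E : Fin N → Fin n → ℝ) : (QP b E).totalDegree ≤ D + 1 := by
  unfold QP
  refine MvPolynomial.totalDegree_finsetSum_le fun a _ => ?_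
  exact (prim_degree _ _).trans (Nat.add_le_add_right (legF_degree (hb a) E a) 1)

/-- The height of the walk as a polynomial, with bounds. -/
theorem qpol (n N D : ℕ) (C₀ : ℝ) (hC₀ : 1 ≤ C₀) : ∃ C : ℝ, 1 ≤ C ∧
    ∀ (b : Fin N → Pl n) (E : Fin N → Fin n → ℝ) (r : ℝ), (∀ a i, |E a i| ≤ C₀) →
      (∀ a, (b a).totalDegree ≤ D) → 0 ≤ r → (∀ a, CB (b a) r) →
      (∀ σ, MvPolynomial.eval σ (QP b E) = Qw b E σ) ∧ (QP b E).totalDegree ≤ D + 1 ∧
        CB (QP b E) (C * r) := by
  obtain ⟨K, hK0, hK⟩ := Pool.Agent.H36.KBX.coef_bound N (D + 1)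
  set B : ℝ := N * ((Pool.Agent.H36.KBX.bx n D).card * (((N + 1) * C₀) ^ (n * D))) with hB
  have hB0 : 0 ≤ B := by positivity
  refine ⟨K * B + 1, by nlinarith [mul_nonneg hK0 hB0], ?_⟩
  intro b E r hE hb hr hr2
  refine ⟨QP_eval b E, QP_degree hb E, ?_⟩
  have h1 : ∀ y : Fin N → ℝ, (∀ i, |y i| ≤ 1) → |MvPolynomial.eval y (QP b E)| ≤ B * r := by
    intro y hy
    rw [QP_eval]
    unfold Qw
    refine (Finset.abs_sum_le_sum_abs _ _).trans ?_
    have h2 : ∀ a ∈ (univ : Finset (Fin N)), |∫ τ in (0 : ℝ)..(y a), MvPolynomial.eval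
        (fun i => τ * E a i + ∑ c ∈ univ.filter (a < ·), y c * E c i) (b a)| ≤
        (Pool.Agent.H36.KBX.bx n D).card * (r * ((N + 1) * C₀) ^ (n * D)) := by
      intro a _
      set M := (Pool.Agent.H36.KBX.bx n D).card * (r * ((N + 1) * C₀) ^ (n * D)) with hM
      have hM0 : 0 ≤ M := by positivity
      have h3 : ∀ τ ∈ Set.uIoc (0 : ℝ) (y a), ‖MvPolynomial.eval
          (fun i => τ * E a i + ∑ c ∈ univ.filter (a < ·), y c * E c i) (b a)‖ ≤ M := by
        intro τ hτ
        rw [Real.norm_eq_abs]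
        have hτ1 : |τ| ≤ 1 := by
          have h4 := hy a
          rcases le_total 0 (y a) with h5 | h5
          · rw [Set.uIoc_of_le h5] at hτ
            rw [abs_of_pos hτ.1]
            rw [abs_of_nonneg h5] at h4
            linarith [hτ.2]
          · rw [Set.uIoc_of_ge h5] at hτ
            rw [abs_of_nonpos hτ.2]
            rw [abs_of_nonpos h5] at h4
            linarith [hτ.1]
        refine Pool.Agent.H36.KBX.eval_bound (b a) (hb a) r ((N + 1) * C₀) ?_ (hr2 a) _ ?_
        · have : (0 : ℝ) ≤ N := Nat.cast_nonneg N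
          nlinarith
        · intro i
          refine (abs_add_le _ _).trans ?_
          have h5 : |τ * E a i| ≤ C₀ := by
            rw [abs_mul]
            calc |τ| * |E a i| ≤ 1 * C₀ := mul_le_mul hτ1 (hE a i) (abs_nonneg _) zero_le_one
              _ = C₀ := one_mul _
          have h6 : |∑ c ∈ univ.filter (a < ·), y c * E c i| ≤ N * C₀ := by
            refine (Finset.abs_sum_le_sum_abs _ _).trans ?_
            refine (Finset.sum_le_sum_of_subset_of_nonneg (Finset.filter_subset _ _)
              fun _ _ _ => abs_nonneg _).trans ?_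
            have h7 : ∀ c ∈ (univ : Finset (Fin N)), |y c * E c i| ≤ C₀ := by
              intro c _
              rw [abs_mul]
              calc |y c| * |E c i| ≤ 1 * C₀ := mul_le_mul (hy c) (hE c i) (abs_nonneg _) zero_le_one
                _ = C₀ := one_mul _
            refine (Finset.sum_le_card_nsmul _ _ _ h7).trans ?_
            rw [Finset.card_univ, Fintype.card_fin, nsmul_eq_mul]
          linarith
      have h8 := intervalIntegral.norm_integral_le_of_norm_le_const h3
      rw [Real.norm_eq_abs] at h8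
      refine h8.trans ?_
      have h9 : |y a - 0| ≤ 1 := by
        rw [sub_zero]
        exact hy a
      calc M * |y a - 0| ≤ M * 1 := mul_le_mul_of_nonneg_left h9 hM0
        _ = M := mul_one _
    refine (Finset.sum_le_card_nsmul _ _ _ h2).trans ?_
    rw [Finset.card_univ, Fintype.card_fin, nsmul_eq_mul, hB]
    exact le_of_eq (by ring)
  intro k
  have h2 := hK (QP b E) (B * r) (QP_degree hb E) h1 k
  refine h2.trans ?_
  nlinarith

end Pool.Agent.H39.BFL
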